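import Pool.Agent.Helper2.LM.Defs

open Set MeasureTheory Filter Topology Metric

namespace Pool.Agent.Helper2.LM

theorem hp_two (v : ℝ × ℝ) : hp 2 v = v.1 ^ 2 + v.2 ^ 2 := by
  unfold hp
  rw [Real.rpow_two, Real.rpow_two, sq_abs, sq_abs]

lemma op_two (x : ℝ) : op 2 x = x := by
  unfold op
  rw [sub_self, Real.rpow_zero, one_mul]

theorem Dhp_two (v u : ℝ × ℝ) : Dhp 2 v u = 2 * (v.1 * u.1 + v.2 * u.2) := by
  unfold Dhp
  rw [op_two, op_two]

/-- contDiff_norm_rpow -/
theorem contDiff_hp1 {p : ℝ} (h : 1 < p) : ContDiff ℝ 1 (hp p) := by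
  have h1 : ContDiff ℝ 1 (fun x : ℝ => |x| ^ p) := contDiff_norm_rpow (E := ℝ) h
  exact (h1.comp contDiff_fst).add (h1.comp contDiff_snd)

lemma hasDerivAt_op {p : ℝ} (h : 2 < p) (x : ℝ) :
    HasDerivAt (op p) ((p - 1) * |x| ^ (p - 2)) x := by
  rcases eq_or_ne x 0 with rfl | hx
  · have hp2 : p - 2 ≠ 0 := by linarith
    rw [abs_zero, Real.zero_rpow hp2, mul_zero, hasDerivAt_iff_tendsto_slope]
    have hcont : Tendsto (fun y : ℝ => |y| ^ (p - 2)) (𝓝[≠] 0) (𝓝 0) := by
      have h1 : ContinuousAt (fun y : ℝ => |y| ^ (p - 2)) 0 :=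
        (continuous_abs.continuousAt).rpow_const (Or.inr (by linarith))
      have h2 := h1.tendsto
      simp only [abs_zero, Real.zero_rpow hp2] at h2
      exact h2.mono_left nhdsWithin_le_nhds
    refine hcont.congr' ?_
    filter_upwards [self_mem_nhdsWithin] with y hy
    have hy0 : y ≠ 0 := hy
    rw [slope_def_field]
    unfold op
    rw [mul_zero, sub_zero, sub_zero, mul_div_assoc, div_self hy0, mul_one]
  · have ha : |x| ≠ 0 := abs_ne_zero.2 hx
    have h1 : HasDerivAt (fun y : ℝ => |y|) (SignType.sign x : ℝ) x := hasDerivAt_abs hx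
    have h2 := (h1.rpow_const (p := p - 2) (Or.inl ha)).mul (hasDerivAt_id x)
    have e : (SignType.sign x : ℝ) * (p - 2) * |x| ^ (p - 2 - 1) * id x + |x| ^ (p - 2) * 1 =
        (p - 1) * |x| ^ (p - 2) := by
      have h3 : (SignType.sign x : ℝ) * x = |x| := by
        rcases lt_or_gt_of_ne hx with hneg | hpos
        · rw [sign_neg hneg, abs_of_neg hneg]; simp
        · rw [sign_pos hpos, abs_of_pos hpos]; simp
      have h4 : |x| ^ (p - 2 - 1) * |x| = |x| ^ (p - 2) := by
        rw [← Real.rpow_add_one ha]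
        congr 1
        ring
      calc (SignType.sign x : ℝ) * (p - 2) * |x| ^ (p - 2 - 1) * id x + |x| ^ (p - 2) * 1
          = (p - 2) * (|x| ^ (p - 2 - 1) * ((SignType.sign x : ℝ) * x)) + |x| ^ (p - 2) := by
            simp only [id]; ring
        _ = (p - 1) * |x| ^ (p - 2) := by rw [h3, h4]; ring
    rw [e] at h2
    exact h2

lemma contDiff_op1 {p : ℝ} (h : 2 < p) : ContDiff ℝ 1 (op p) := by
  rw [contDiff_one_iff_deriv]
  refine ⟨fun x => (hasDerivAt_op h x).differentiableAt, ?_⟩
  have e : deriv (op p) = fun x => (p - 1) * |x| ^ (p - 2) :=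
    funext fun x => (hasDerivAt_op h x).deriv
  rw [e]
  exact continuous_const.mul (continuous_abs.rpow_const fun x => Or.inr (by linarith))

/-- `|x|^p` has derivative `p * op p x` (hasDerivAt_abs_rpow) and `op p` has derivative
`(p - 1) * |x|^(p-2)`, continuous for `p > 2`. -/
theorem contDiff_hp2 {p : ℝ} (h : 2 < p) : ContDiff ℝ 2 (hp p) := by
  have h1 : ContDiff ℝ 2 (fun x : ℝ => |x| ^ p) := by
    have h2 : ContDiff ℝ (1 + 1) (fun x : ℝ => |x| ^ p) := by
      rw [contDiff_succ_iff_deriv]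
      refine ⟨fun x => (hasDerivAt_abs_rpow x (by linarith)).differentiableAt, ?_, ?_⟩
      · intro hw
        exact absurd hw (by simp)
      · have e : deriv (fun x : ℝ => |x| ^ p) = fun x => p * op p x :=
          funext fun x => by
            rw [(hasDerivAt_abs_rpow x (by linarith)).deriv]
            unfold op
            ring
        rw [e]
        exact contDiff_const.mul (contDiff_op1 h)
    exact h2
  exact (h1.comp contDiff_fst).add (h1.comp contDiff_snd)

/-- hasDerivAt_abs_rpow and the chain rule -/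
theorem hasDerivAt_hp {p : ℝ} (h : 1 < p) {c : ℝ → ℝ × ℝ} {c' : ℝ × ℝ} {t : ℝ}
    (hc : HasDerivAt c c' t) : HasDerivAt (fun s => hp p (c s)) (Dhp p (c t) c') t := by
  have h1 : HasDerivAt (fun s => (c s).1) c'.1 t := hc.fst
  have h2 : HasDerivAt (fun s => (c s).2) c'.2 t := hc.snd
  have k1 := (hasDerivAt_abs_rpow (c t).1 h).comp t h1
  have k2 := (hasDerivAt_abs_rpow (c t).2 h).comp t h2
  have k := k1.add k2
  have e : p * |(c t).1| ^ (p - 2) * (c t).1 * c'.1 + p * |(c t).2| ^ (p - 2) * (c t).2 * c'.2 =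
      Dhp p (c t) c' := by
    unfold Dhp op
    ring
  rw [e] at k
  exact k

theorem continuousOn_hp :
    ContinuousOn (fun z : ℝ × (ℝ × ℝ) => hp z.1 z.2) (Ioi 1 ×ˢ univ) := by
  unfold hp
  apply ContinuousOn.add
  · apply ContinuousOn.rpow
    · exact (continuous_abs.comp (continuous_fst.comp continuous_snd)).continuousOn
    · exact continuous_fst.continuousOn
    · intro z hz
      right
      have : (1 : ℝ) < z.1 := hz.1
      linarith
  · apply ContinuousOn.rpow
    · exact (continuous_abs.comp (continuous_snd.comp continuous_snd)).continuousOn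
    · exact continuous_fst.continuousOn
    · intro z hz
      right
      have : (1 : ℝ) < z.1 := hz.1
      linarith

lemma abs_op {p x : ℝ} (h : 1 < p) : |op p x| = |x| ^ (p - 1) := by
  unfold op
  rw [abs_mul, abs_of_nonneg (Real.rpow_nonneg (abs_nonneg x) _)]
  rcases eq_or_ne x 0 with rfl | hx
  · rw [abs_zero, mul_zero, Real.zero_rpow (by linarith)]
  · rw [← Real.rpow_add_one (abs_ne_zero.2 hx)]
    congr 1
    ring

/-- At a point with x = 0 use |op p x| = |x|^(p-1). -/
theorem continuousOn_op : ContinuousOn (fun z : ℝ × ℝ => op z.1 z.2) (Ioi 1 ×ˢ univ) := by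
  rintro ⟨p, x⟩ hz
  have hp1 : (1 : ℝ) < p := hz.1
  rcases eq_or_ne x 0 with rfl | hx
  · have hcont : ContinuousWithinAt (fun z : ℝ × ℝ => |z.2| ^ (z.1 - 1)) (Ioi 1 ×ˢ univ) (p, 0) := by
      apply ContinuousWithinAt.rpow
      · exact (continuous_abs.comp continuous_snd).continuousWithinAt
      · exact (continuous_fst.sub continuous_const).continuousWithinAt
      · right
        change 0 < p - 1
        linarith
    have h0 : op p 0 = 0 := by unfold op; rw [mul_zero]
    unfold ContinuousWithinAt at hcont ⊢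
    simp only [abs_zero] at hcont
    rw [Real.zero_rpow (by linarith)] at hcont
    change Tendsto (fun z : ℝ × ℝ => op z.1 z.2) (𝓝[Ioi 1 ×ˢ univ] (p, 0)) (𝓝 (op p 0))
    rw [h0]
    apply squeeze_zero_norm' _ hcont
    filter_upwards [self_mem_nhdsWithin] with z hz
    rw [Real.norm_eq_abs, abs_op hz.1]
  · unfold op
    apply ContinuousWithinAt.mul
    · apply ContinuousWithinAt.rpow
      · exact (continuous_abs.comp continuous_snd).continuousWithinAt
      · exact (continuous_fst.sub continuous_const).continuousWithinAt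
      · left
        exact abs_ne_zero.2 hx
    · exact continuous_snd.continuousWithinAt

theorem continuousOn_Dhp :
    ContinuousOn (fun z : ℝ × (ℝ × ℝ) × (ℝ × ℝ) => Dhp z.1 z.2.1 z.2.2) (Ioi 1 ×ˢ univ) := by
  unfold Dhp
  apply ContinuousOn.mul continuous_fst.continuousOn
  apply ContinuousOn.add
  · apply ContinuousOn.mul
    · exact continuousOn_op.comp
        (f := fun z : ℝ × (ℝ × ℝ) × (ℝ × ℝ) => ((z.1, z.2.1.1) : ℝ × ℝ))
        (by fun_prop) (fun z hz => ⟨hz.1, mem_univ _⟩)
    · exact Continuous.continuousOn (by fun_prop)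
  · apply ContinuousOn.mul
    · exact continuousOn_op.comp
        (f := fun z : ℝ × (ℝ × ℝ) × (ℝ × ℝ) => ((z.1, z.2.1.2) : ℝ × ℝ))
        (by fun_prop) (fun z hz => ⟨hz.1, mem_univ _⟩)
    · exact Continuous.continuousOn (by fun_prop)

end Pool.Agent.Helper2.LM
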