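import Pool.Agent.Helper2.LM.Defs

open Set MeasureTheory Filter Topology Metric

namespace Pool.Agent.Helper2.LM

/-- Use the inverse function (f is strictly increasing, continuous and unbounded), and
translationNumber_pow, CircleDeg1Lift.map_lt_of_translationNumber_lt_int,
lt_map_of_int_lt_translationNumber. -/
theorem cdiff_of {f : ℝ → ℝ} (hf : ContDiff ℝ 2 f) (hpos : ∀ x, 0 < deriv f x)
    (hadd : ∀ x, f (x + 1) = f x + 1) {F : CircleDeg1Lift} (hF : ∀ x, F x = f x)
    (hirr : Irrational (CircleDeg1Lift.translationNumber F)) :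
    ∃ g, CDiff f g (CircleDeg1Lift.translationNumber F) := by
  have hFf : (F : ℝ → ℝ) = f := funext hF
  have hmono : StrictMono f := strictMono_of_deriv_pos hpos
  have htop : Tendsto f atTop atTop := hFf ▸ F.tendsto_atTop
  have hbot : Tendsto f atBot atBot := hFf ▸ F.tendsto_atBot
  have hsurj : Function.Surjective f := hf.continuous.surjective htop hbot
  have hpow : ∀ (n : ℕ) (x : ℝ), (F ^ n) x = f^[n] x := by
    intro n x
    rw [CircleDeg1Lift.coe_pow, hFf]
  refine ⟨Function.surjInv hsurj, hf, hpos, hadd, Function.surjInv_eq hsurj, ?_, ?_, ?_, hirr⟩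
  · intro x
    exact Function.leftInverse_surjInv ⟨hmono.injective, hsurj⟩ x
  · intro n m x h
    have h1 : CircleDeg1Lift.translationNumber (F ^ n) < m := by
      rw [CircleDeg1Lift.translationNumber_pow]; exact h
    have := CircleDeg1Lift.map_lt_of_translationNumber_lt_int _ h1 x
    rwa [hpow] at this
  · intro n m x h
    have h1 : (m : ℝ) < CircleDeg1Lift.translationNumber (F ^ n) := by
      rw [CircleDeg1Lift.translationNumber_pow]; exact h
    have := CircleDeg1Lift.lt_map_of_int_lt_translationNumber _ h1 x
    rwa [hpow] at this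

end Pool.Agent.Helper2.LM
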