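import Pool.Agent.Helper2.LM.Defs

open Set MeasureTheory Filter Topology Metric

namespace Pool.Agent.Helper2.LM

theorem m3_null {E : Type*} [NormedAddCommGroup E] [NormedSpace ℝ E] [FiniteDimensional ℝ E]
    [MeasurableSpace E] [BorelSpace E] (μ : Measure E) [μ.IsAddHaarMeasure]
    {F : E → E} (hF : ContDiff ℝ 1 F) {N : Set E} (hN : μ N = 0) {S : Set E}
    (hS : ∀ z ∈ S, F z ∈ N) (hS' : ∀ z ∈ S, ∃ L : E ≃L[ℝ] E, HasFDerivAt F (L : E →L[ℝ] E) z) :
    μ S = 0 := by
  have hcomplete : CompleteSpace E := FiniteDimensional.complete ℝ E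
  apply measure_null_of_locally_null
  intro z hz
  obtain ⟨L, hL⟩ := hS' z hz
  have hFz : ContDiffAt ℝ 1 F z := hF.contDiffAt
  have h1 : (1 : WithTop ℕ∞) ≠ 0 := one_ne_zero
  have hinv := hFz.to_localInverse hL h1
  have hev : ∀ᶠ y in 𝓝 (F z), DifferentiableAt ℝ (hFz.localInverse hL h1) y := by
    have := hinv.eventually (by simp)
    filter_upwards [this] with y hy
    exact hy.differentiableAt h1
  set e := hFz.toOpenPartialHomeomorph F hL h1 with he
  have hsrc : e.source ∈ 𝓝 z := e.open_source.mem_nhds (hFz.mem_toOpenPartialHomeomorph_source hL h1)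
  have hpre : ∀ᶠ w in 𝓝 z, DifferentiableAt ℝ (hFz.localInverse hL h1) (F w) :=
    hF.continuous.continuousAt.eventually hev
  refine ⟨{w | w ∈ e.source ∧ DifferentiableAt ℝ (hFz.localInverse hL h1) (F w)} ∩ S, ?_, ?_⟩
  · apply inter_mem _ self_mem_nhdsWithin
    apply mem_nhdsWithin_of_mem_nhds
    filter_upwards [hsrc, hpre] with w h2 h3
    exact ⟨h2, h3⟩
  · have hsub : {w | w ∈ e.source ∧ DifferentiableAt ℝ (hFz.localInverse hL h1) (F w)} ∩ S ⊆
        (hFz.localInverse hL h1) ''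
          {y | y ∈ N ∧ DifferentiableAt ℝ (hFz.localInverse hL h1) y} := by
      rintro w ⟨⟨hw1, hw2⟩, hw3⟩
      exact ⟨F w, ⟨hS w hw3, hw2⟩, e.left_inv hw1⟩
    apply measure_mono_null hsub
    apply addHaar_image_eq_zero_of_differentiableOn_of_addHaar_eq_zero
    · intro y hy
      exact hy.2.differentiableWithinAt
    · exact measure_mono_null (fun y hy => hy.1) hN

/-- Preimages of null sets under a `C¹` diffeomorphism onto its image are null. -/
theorem null_preimage {f : ℝ → ℝ} (hf : ContDiff ℝ 1 f) (hf' : ∀ x, 0 < deriv f x) {N : Set ℝ}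
    (hN : volume N = 0) : volume (f ⁻¹' N) = 0 := by
  apply m3_null volume hf hN
  · intro z hz
    exact hz
  · intro z _
    have hd : HasDerivAt f (deriv f z) z := (hf.differentiable one_ne_zero z).hasDerivAt
    exact ⟨_, hd.hasFDerivAt_equiv (hf' z).ne'⟩

/-- Proof: the map `(s, t) ↦ x + γ₁ s + γ₂ t` is `C¹`, and its derivative
`(a, b) ↦ a • γ₁' s + b • γ₂' t` is invertible where the determinant is not zero; so it is locally
a diffeomorphism there (HasStrictFDerivAt.toOpenPartialHomeomorph) and the preimage of a null set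
within this open set is null (countable cover, images of null sets under differentiable maps are
null: MeasureTheory.addHaar_image_eq_zero_of_differentiableOn_of_addHaar_eq_zero, or the change
of variables formula lintegral_image_eq_lintegral_abs_det_fderiv_mul); then Fubini
(measure_ae_null_of_prod_null, with a measurable null superset of `M`). -/
theorem null_sum {γ₁ γ₂ : ℝ → ℝ × ℝ} (h₁ : ContDiff ℝ 1 γ₁) (h₂ : ContDiff ℝ 1 γ₂)
    {M : Set (ℝ × ℝ)} (hM : volume M = 0) (x : ℝ × ℝ) :
    ∀ᵐ s : ℝ, ∀ᵐ t : ℝ, det2 (deriv γ₁ s) (deriv γ₂ t) ≠ 0 → x + γ₁ s + γ₂ t ∉ M := by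
  have hF : ContDiff ℝ 1 (fun z : ℝ × ℝ => x + γ₁ z.1 + γ₂ z.2) :=
    (contDiff_const.add (h₁.comp contDiff_fst)).add (h₂.comp contDiff_snd)
  have key : volume {z : ℝ × ℝ | det2 (deriv γ₁ z.1) (deriv γ₂ z.2) ≠ 0 ∧
      x + γ₁ z.1 + γ₂ z.2 ∈ M} = 0 := by
    apply m3_null volume hF hM
    · intro z hz
      exact hz.2
    · rintro ⟨s, t⟩ ⟨hdet, _⟩
      simp only at hdet
      have d1 : HasDerivAt γ₁ (deriv γ₁ s) s := (h₁.differentiable one_ne_zero s).hasDerivAt
      have d2 : HasDerivAt γ₂ (deriv γ₂ t) t := (h₂.differentiable one_ne_zero t).hasDerivAt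
      set v := deriv γ₁ s with hv
      set w := deriv γ₂ t with hw
      let L : ℝ × ℝ →L[ℝ] ℝ × ℝ :=
        (ContinuousLinearMap.fst ℝ ℝ ℝ).smulRight v + (ContinuousLinearMap.snd ℝ ℝ ℝ).smulRight w
      have hLd : HasFDerivAt (fun z : ℝ × ℝ => x + γ₁ z.1 + γ₂ z.2) L (s, t) := by
        have e1 : HasFDerivAt (fun z : ℝ × ℝ => γ₁ z.1)
            ((ContinuousLinearMap.fst ℝ ℝ ℝ).smulRight v) (s, t) := by
          have := HasFDerivAt.comp (s, t) (f := fun z : ℝ × ℝ => z.1) (g := γ₁)
            d1.hasFDerivAt hasFDerivAt_fst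
          exact this.congr_fderiv (by ext <;> simp)
        have e2 : HasFDerivAt (fun z : ℝ × ℝ => γ₂ z.2)
            ((ContinuousLinearMap.snd ℝ ℝ ℝ).smulRight w) (s, t) := by
          have := HasFDerivAt.comp (s, t) (f := fun z : ℝ × ℝ => z.2) (g := γ₂)
            d2.hasFDerivAt hasFDerivAt_snd
          exact this.congr_fderiv (by ext <;> simp)
        exact (e1.const_add x).add e2
      have hinj : Function.Injective (L : ℝ × ℝ →ₗ[ℝ] ℝ × ℝ) := by
        rw [← LinearMap.ker_eq_bot, LinearMap.ker_eq_bot']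
        rintro ⟨a, b⟩ hab
        have hab' : a • v + b • w = 0 := hab
        have q1 : a * v.1 + b * w.1 = 0 := by
          have := congrArg Prod.fst hab'
          simpa using this
        have q2 : a * v.2 + b * w.2 = 0 := by
          have := congrArg Prod.snd hab'
          simpa using this
        unfold det2 at hdet
        have ha : a * (v.1 * w.2 - v.2 * w.1) = 0 := by linear_combination w.2 * q1 - w.1 * q2
        have hb : b * (v.1 * w.2 - v.2 * w.1) = 0 := by linear_combination v.1 * q2 - v.2 * q1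
        have ha' := (mul_eq_zero.1 ha).resolve_right hdet
        have hb' := (mul_eq_zero.1 hb).resolve_right hdet
        rw [ha', hb']
        rfl
      refine ⟨(LinearEquiv.ofInjectiveEndo (L : ℝ × ℝ →ₗ[ℝ] ℝ × ℝ) hinj).toContinuousLinearEquiv, ?_⟩
      exact hLd.congr_fderiv (by ext <;> rfl)
  rw [Measure.volume_eq_prod] at key
  have h := Measure.measure_ae_null_of_prod_null key
  filter_upwards [h] with s hs
  have hs' : ∀ᵐ t : ℝ, t ∉ Prod.mk s ⁻¹' {z : ℝ × ℝ | det2 (deriv γ₁ z.1) (deriv γ₂ z.2) ≠ 0 ∧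
      x + γ₁ z.1 + γ₂ z.2 ∈ M} := measure_eq_zero_iff_ae_notMem.1 hs
  filter_upwards [hs'] with t ht hdet hmem
  exact ht ⟨hdet, hmem⟩

end Pool.Agent.Helper2.LM
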