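import Pool.Agent.Helper2.LM.D6
import Pool.Agent.Helper2.LM.M3

/-!
# No measurable set of the circle is mapped to its complement by a `C²` diffeomorphism with
irrational rotation number
-/

open Set MeasureTheory Filter Topology Metric

namespace Pool.Agent.Helper2.LM

theorem core {h h' : ℝ → ℝ} {C η a b : ℝ} (hab : a < b) (hd : ∀ x, HasDerivAt h (h' x) x)
    (hpos : ∀ x, 0 < h' x) (hC0 : 0 ≤ C)
    (hC : ∀ u ∈ Icc a b, ∀ v ∈ Icc a b, h' u ≤ C * h' v) {E : Set ℝ} (hE : MeasurableSet E)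
    (hanti : ∀ᵐ t : ℝ, (t ∈ E ↔ h t ∉ E)) (hη : 0 ≤ η) (hη1 : η * (1 + C) < 1)
    (h1 : volume (Eᶜ ∩ Icc a b) ≤ ENNReal.ofReal (η * (b - a)))
    (h2 : volume (Eᶜ ∩ Icc (h a) (h b)) ≤ ENNReal.ofReal (η * (h b - h a))) : False := by
  have hcont : Continuous h := continuous_iff_continuousAt.2 fun x => (hd x).continuousAt
  have hmono : StrictMono h := strictMono_of_hasDerivAt_pos hd hpos
  obtain ⟨v, hv, hv'⟩ := exists_hasDerivAt_eq_slope h h' hab hcont.continuousOn
    fun x _ => hd x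
  have hlen : h b - h a = h' v * (b - a) := by
    rw [hv']; field_simp [(sub_pos.2 hab).ne']
  have hba : 0 < b - a := sub_pos.2 hab
  have hL : 0 < h b - h a := sub_pos.2 (hmono hab)
  -- the part of `E` in the image
  set S : Set ℝ := Icc a b ∩ h ⁻¹' E with hS
  have hSm : MeasurableSet S := measurableSet_Icc.inter (hcont.measurable hE)
  have hSae : S =ᵐ[volume] (Eᶜ ∩ Icc a b : Set ℝ) := by
    filter_upwards [hanti] with t ht
    apply propext
    change (t ∈ Icc a b ∩ h ⁻¹' E) ↔ t ∈ Eᶜ ∩ Icc a b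
    simp only [mem_inter_iff, mem_preimage, mem_compl_iff]
    tauto
  have himg : h '' S = E ∩ Icc (h a) (h b) := by
    ext y
    constructor
    · rintro ⟨x, ⟨hx1, hx2⟩, rfl⟩
      exact ⟨hx2, hmono.monotone hx1.1, hmono.monotone hx1.2⟩
    · rintro ⟨hy1, hy2⟩
      obtain ⟨x, hx, rfl⟩ := intermediate_value_Icc hab.le hcont.continuousOn hy2
      exact ⟨x, ⟨hx, hy1⟩, rfl⟩
  have h3 : volume (E ∩ Icc (h a) (h b)) ≤ ENNReal.ofReal (C * h' v * (η * (b - a))) := by
    rw [← himg]
    have e := lintegral_image_eq_lintegral_abs_deriv_mul hSm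
      (fun x _ => (hd x).hasDerivWithinAt) hmono.injective.injOn (fun _ => 1)
    simp only [lintegral_const, mul_one, one_mul, MeasurableSet.univ, Measure.restrict_apply,
      univ_inter] at e
    rw [e]
    calc ∫⁻ x in S, ENNReal.ofReal |h' x|
        ≤ ∫⁻ _ in S, ENNReal.ofReal (C * h' v) := by
          refine setLIntegral_mono measurable_const fun x hx => ENNReal.ofReal_le_ofReal ?_
          rw [abs_of_pos (hpos x)]
          exact hC x hx.1 v (Ioo_subset_Icc_self hv)
      _ = ENNReal.ofReal (C * h' v) * volume S := by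
          rw [setLIntegral_const]
      _ ≤ ENNReal.ofReal (C * h' v) * ENNReal.ofReal (η * (b - a)) := by
          rw [measure_congr hSae]
          gcongr
      _ = ENNReal.ofReal (C * h' v * (η * (b - a))) := by
          rw [← ENNReal.ofReal_mul (mul_nonneg hC0 (hpos v).le)]
  have h4 : volume (Icc (h a) (h b)) ≤ ENNReal.ofReal (C * h' v * (η * (b - a))) +
      ENNReal.ofReal (η * (h b - h a)) := by
    calc volume (Icc (h a) (h b))
        ≤ volume (E ∩ Icc (h a) (h b) ∪ Eᶜ ∩ Icc (h a) (h b)) := by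
          apply measure_mono
          intro x hx
          by_cases hxE : x ∈ E
          · exact Or.inl ⟨hxE, hx⟩
          · exact Or.inr ⟨hxE, hx⟩
      _ ≤ volume (E ∩ Icc (h a) (h b)) + volume (Eᶜ ∩ Icc (h a) (h b)) := measure_union_le _ _
      _ ≤ _ := add_le_add h3 h2
  rw [Real.volume_Icc, ← ENNReal.ofReal_add, ENNReal.ofReal_le_ofReal_iff] at h4
  · have e : C * h' v * (η * (b - a)) = η * C * (h b - h a) := by rw [hlen]; ring
    rw [e] at h4
    have : (η * (1 + C)) * (h b - h a) < 1 * (h b - h a) := mul_lt_mul_of_pos_right hη1 hL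
    nlinarith
  · have := mul_nonneg (mul_nonneg hC0 (hpos v).le) (mul_nonneg hη hba.le)
    have := mul_nonneg hη hL.le
    linarith
  · exact mul_nonneg (mul_nonneg hC0 (hpos v).le) (mul_nonneg hη hba.le)
  · exact mul_nonneg hη hL.le

/-- one-sided density -/
theorem density {E : Set ℝ} (hE : MeasurableSet E) (hne : volume E ≠ 0) :
    ∃ z ∈ E, ∀ η > 0, ∃ r > 0, ∀ a b : ℝ, a < b → b - a < r → z ∈ Icc a b →
      volume (Eᶜ ∩ Icc a b) ≤ ENNReal.ofReal (η * (b - a)) := by
  have h0 := IsUnifLocDoublingMeasure.ae_tendsto_measure_inter_div (volume : Measure ℝ) E 1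
  rw [ae_restrict_iff' hE] at h0
  obtain ⟨z, hz, hzE⟩ : ∃ z, (z ∈ E → ∀ {ι : Type} {l : Filter ι} (w : ι → ℝ) (δ : ι → ℝ),
      Tendsto δ l (𝓝[>] 0) → (∀ᶠ j in l, z ∈ closedBall (w j) (1 * δ j)) →
      Tendsto (fun j => volume (E ∩ closedBall (w j) (δ j)) / volume (closedBall (w j) (δ j)))
        l (𝓝 1)) ∧ z ∈ E := by
    have hfr : ∃ᶠ z in ae volume, z ∈ E := by
      intro hcon
      exact hne (by simpa [ae_iff] using hcon)
    obtain ⟨z, hz1, hz2⟩ := (hfr.and_eventually h0).exists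
    exact ⟨z, fun _ => hz2 hz1, hz1⟩
  refine ⟨z, hzE, fun η hη => ?_⟩
  by_contra hcon
  push Not at hcon
  have hc : ∀ n : ℕ, ∃ a b : ℝ, a < b ∧ b - a < 1 / ((n : ℝ) + 1) ∧ z ∈ Icc a b ∧
      ENNReal.ofReal (η * (b - a)) < volume (Eᶜ ∩ Icc a b) :=
    fun n => hcon (1 / ((n : ℝ) + 1)) (by positivity)
  choose a b hab hlen hzab hlt using hc
  have hT := hz hzE (ι := ℕ) (l := atTop) (fun n => (a n + b n) / 2) (fun n => (b n - a n) / 2)
    ?_ ?_
  · have hball : ∀ n, closedBall ((a n + b n) / 2) ((b n - a n) / 2) = Icc (a n) (b n) := by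
      intro n
      rw [Real.closedBall_eq_Icc]
      congr 1 <;> ring
    simp only [hball] at hT
    have hlt1 : ENNReal.ofReal (1 - η / 2) < 1 := by
      rw [← ENNReal.ofReal_one, ENNReal.ofReal_lt_ofReal_iff one_pos]
      linarith
    obtain ⟨n, hn⟩ := (hT.eventually (lt_mem_nhds hlt1)).exists
    have hpos : 0 < b n - a n := sub_pos.2 (hab n)
    have hv : volume (Icc (a n) (b n)) = ENNReal.ofReal (b n - a n) := Real.volume_Icc
    rw [hv] at hn
    have hv0 : ENNReal.ofReal (b n - a n) ≠ 0 := by simpa using hpos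
    rw [ENNReal.lt_div_iff_mul_lt (Or.inl hv0) (Or.inl ENNReal.ofReal_ne_top)] at hn
    have hsum : volume (E ∩ Icc (a n) (b n)) + volume (Eᶜ ∩ Icc (a n) (b n)) =
        ENNReal.ofReal (b n - a n) := by
      rw [← hv, inter_comm E, inter_comm Eᶜ, ← sdiff_eq]
      exact measure_inter_add_sdiff _ hE
    have hcontr : ENNReal.ofReal (1 - η / 2) * ENNReal.ofReal (b n - a n) +
        ENNReal.ofReal (η * (b n - a n)) < ENNReal.ofReal (b n - a n) :=
      lt_of_lt_of_eq (ENNReal.add_lt_add hn (hlt n)) hsum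
    rcases le_total 0 (1 - η / 2) with hle | hle
    · rw [← ENNReal.ofReal_mul hle, ← ENNReal.ofReal_add (mul_nonneg hle hpos.le) (by positivity),
        ENNReal.ofReal_lt_ofReal_iff hpos] at hcontr
      nlinarith
    · rw [ENNReal.ofReal_of_nonpos hle, zero_mul, zero_add,
        ENNReal.ofReal_lt_ofReal_iff hpos] at hcontr
      nlinarith
  · rw [tendsto_nhdsWithin_iff]
    constructor
    · have h1 : Tendsto (fun n : ℕ => 1 / ((n : ℝ) + 1)) atTop (𝓝 0) :=
        tendsto_one_div_add_atTop_nhds_zero_nat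
      refine squeeze_zero (fun n => ?_) (fun n => ?_) h1
      · have := hab n; linarith
      · have := hab n; have := hlen n; linarith
    · exact Eventually.of_forall fun n => by
        have := hab n
        simp only [mem_Ioi]
        linarith
  · refine Eventually.of_forall fun n => ?_
    rw [Real.closedBall_eq_Icc, one_mul]
    obtain ⟨h1, h2⟩ := hzab n
    constructor <;> linarith

theorem anti_iter {f g : ℝ → ℝ} {α : ℝ} (h : CDiff f g α) {E : Set ℝ}
    (hanti : ∀ᵐ t : ℝ, (t ∈ E ↔ f t ∉ E)) (k : ℕ) :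
    ∀ᵐ t : ℝ, (t ∈ E ↔ f^[2 * k] t ∈ E) := by
  have hf1 : ContDiff ℝ 1 f := h.f2.of_le (by norm_num)
  have comp : ∀ {P : ℝ → Prop}, (∀ᵐ t : ℝ, P t) → ∀ᵐ t : ℝ, P (f t) := by
    intro P hP
    rw [ae_iff] at hP ⊢
    exact null_preimage hf1 h.pos hP
  induction k with
  | zero => simp
  | succ k ih =>
    filter_upwards [hanti, comp hanti, comp (comp ih)] with t h1 h2 h3
    rw [show 2 * (k + 1) = 2 * k + 1 + 1 by ring, Function.iterate_succ_apply,
      Function.iterate_succ_apply, ← h3]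
    tauto

theorem anti_odd {f g : ℝ → ℝ} {α : ℝ} (h : CDiff f g α) {E : Set ℝ}
    (hE1 : ∀ᵐ t : ℝ, (t + 1 ∈ E ↔ t ∈ E)) (hanti : ∀ᵐ t : ℝ, (t ∈ E ↔ f t ∉ E)) {q : ℕ}
    (hq : Odd q) (p : ℤ) : ∀ᵐ t : ℝ, (t ∈ E ↔ f^[q] t - p ∉ E) := by
  have hf1 : ContDiff ℝ 1 f := h.f2.of_le (by norm_num)
  have comp : ∀ {P : ℝ → Prop}, (∀ᵐ t : ℝ, P t) → ∀ᵐ t : ℝ, P (f t) := by
    intro P hP
    rw [ae_iff] at hP ⊢
    exact null_preimage hf1 h.pos hP
  have compn : ∀ (n : ℕ) {P : ℝ → Prop}, (∀ᵐ t : ℝ, P t) → ∀ᵐ t : ℝ, P (f^[n] t) := by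
    intro n
    induction n with
    | zero => intro P hP; exact hP
    | succ n ih =>
      intro P hP
      exact comp (P := fun t => P (f^[n] t)) (ih hP)
  have shift : ∀ (c : ℝ) {P : ℝ → Prop}, (∀ᵐ t : ℝ, P t) → ∀ᵐ t : ℝ, P (t + c) := by
    intro c P hP
    exact (measurePreserving_add_right (volume : Measure ℝ) c).quasiMeasurePreserving.ae hP
  have hint : ∀ m : ℤ, ∀ᵐ t : ℝ, (t - m ∈ E ↔ t ∈ E) := by
    intro m
    induction m using Int.induction_on with
    | zero => simp
    | succ n ih =>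
      filter_upwards [ih, shift (-((n : ℝ) + 1)) hE1] with t h1 h2
      push_cast at h1 ⊢
      rw [← h1, show t - (n : ℝ) = t + (-((n : ℝ) + 1)) + 1 by ring, h2,
        show t - ((n : ℝ) + 1) = t + (-((n : ℝ) + 1)) by ring]
    | pred n ih =>
      filter_upwards [ih, shift (n : ℝ) hE1] with t h1 h2
      push_cast at h1 ⊢
      rw [← h1, show t - (-(n : ℝ) - 1) = t + (n : ℝ) + 1 by ring, h2,
        show t - (-(n : ℝ)) = t + (n : ℝ) by ring]
  obtain ⟨k, rfl⟩ := hq
  filter_upwards [anti_iter h hanti k, compn (2 * k) hanti, compn (2 * k + 1) (hint p)]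
    with t h1 h2 h3
  rw [h3, Function.iterate_succ_apply', ← h2, ← h1]

/-- No measurable set is mapped to its complement. -/
theorem no_anti {f g : ℝ → ℝ} {α : ℝ} (h : CDiff f g α) {E : Set ℝ} (hE : MeasurableSet E)
    (hE1 : ∀ᵐ t : ℝ, (t + 1 ∈ E ↔ t ∈ E)) (hanti : ∀ᵐ t : ℝ, (t ∈ E ↔ f t ∉ E)) : False := by
  wlog hne : volume E ≠ 0 generalizing E with H
  · push Not at hne
    refine H (E := Eᶜ) hE.compl ?_ ?_ ?_
    · filter_upwards [hE1] with t ht
      simp only [mem_compl_iff, ht]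
    · filter_upwards [hanti] with t ht
      simp only [mem_compl_iff]
      tauto
    · intro h0
      have h1 := measure_add_measure_compl hE (μ := (volume : Measure ℝ))
      rw [h0, hne] at h1
      simp at h1
  obtain ⟨z, -, hz⟩ := density hE hne
  obtain ⟨K, hK0, hK⟩ := distortion h
  set C := Real.exp (2 * K) with hCdef
  have hCpos : 0 < C := Real.exp_pos _
  obtain ⟨r, hr, hr'⟩ := hz (1 / (2 * (1 + C))) (by positivity)
  obtain ⟨δ, hδ, hsh⟩ := shrink h z (ε := r) hr
  obtain ⟨q, p, -, hodd, hbest, herr⟩ := exists_odd_best h.irr (lt_min hδ one_pos) 0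
  have herr1 : |(q : ℝ) * α - p| < 1 := lt_of_lt_of_le herr (min_le_right _ _)
  obtain ⟨s1, s2⟩ := hsh q p (lt_of_lt_of_le herr (min_le_left _ _))
  have hdiff : Differentiable ℝ f := h.f2.differentiable (by norm_num)
  have hd1 : ∀ n : ℕ, ∀ x, HasDerivAt f^[n] (deriv f^[n] x) x ∧ 0 < deriv f^[n] x := by
    intro n
    have hdn : Differentiable ℝ f^[n] := hdiff.iterate n
    intro x
    refine ⟨(hdn x).hasDerivAt, ?_⟩
    induction n with
    | zero => simp
    | succ n ih =>
      have e : f^[n + 1] = f ∘ f^[n] := Function.iterate_succ' f n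
      rw [e, deriv_comp x (hdiff _) (hdiff.iterate n x)]
      exact mul_pos (h.pos _) (ih (hdiff.iterate n))
  have hH : ∀ x, HasDerivAt (fun t => f^[q] t - p) (deriv f^[q] x) x := fun x =>
    ((hd1 q x).1).sub_const _
  have hA := anti_odd h hE1 hanti hodd p
  set y : ℝ := g^[q] z + p with hy
  have hfy : f^[q] y - p = z := by
    rw [hy, h.iter_add, h.fg_iter]; ring
  have hne' : y ≠ z := by
    intro hyz
    rw [hyz] at hfy
    have hne2 : (q : ℝ) * α + ((-p : ℤ) : ℝ) ≠ 0 := by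
      apply h.ne
      rintro ⟨hq0, -⟩
      rw [hq0] at hodd
      exact (Nat.not_odd_zero hodd)
    rcases lt_or_gt_of_ne hne2 with hlt | hgt
    · have := h.lt q p z (by push_cast at hlt; linarith)
      linarith
    · have := h.gt q p z (by push_cast at hgt; linarith)
      linarith
  have hη1 : 1 / (2 * (1 + C)) * (1 + C) < 1 := by
    field_simp
    norm_num
  rw [abs_lt] at s1 s2
  rcases lt_or_gt_of_ne hne' with hlt | hgt
  · have hsum := sum_le h hbest herr1 hlt (Or.inl hfy.symm)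
    have hdist := hK q y z hlt.le hsum
    have hm : f^[q] y < f^[q] z := h.iter_mono q hlt
    refine core (h := fun t => f^[q] t - p) (h' := deriv f^[q]) hlt hH
      (fun x => (hd1 q x).2) hCpos.le hdist hE hA (by positivity) hη1 ?_ ?_
    · exact hr' y z hlt (by linarith) ⟨hlt.le, le_rfl⟩
    · refine hr' _ _ (by linarith) (by linarith) ⟨by linarith, by linarith⟩
  · have hsum := sum_le h hbest herr1 hgt (Or.inr hfy.symm)
    have hdist := hK q z y hgt.le hsum
    have hm : f^[q] z < f^[q] y := h.iter_mono q hgt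
    refine core (h := fun t => f^[q] t - p) (h' := deriv f^[q]) hgt hH
      (fun x => (hd1 q x).2) hCpos.le hdist hE hA (by positivity) hη1 ?_ ?_
    · exact hr' z y hgt (by linarith) ⟨le_rfl, hgt.le⟩
    · refine hr' _ _ (by linarith) (by linarith) ⟨by linarith, by linarith⟩

end Pool.Agent.Helper2.LM
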