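import Pool.Agent.Helper2.LM.M1

open Set MeasureTheory Filter Topology Metric

namespace Pool.Agent.Helper2.LM

theorem m2_vol_rad (n : ℕ) (x : ℝ × ℝ) :
    volume (closedBall x (rad n)) = volume (closedBall (0 : ℝ × ℝ) (rad n)) :=
  Measure.addHaar_closedBall_center volume x (rad n)

/-- continuity of the proportion -/
theorem m2_continuous_dens {B : Set (ℝ × ℝ)} (hB : MeasurableSet B) (n : ℕ) :
    Continuous fun x => dens B n x := by
  unfold dens
  have h1 : Continuous fun x : ℝ × ℝ => volume (B ∩ closedBall x (rad n)) := by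
    rw [continuous_iff_continuousAt]
    intro x
    unfold ContinuousAt
    refine tendsto_measure_of_ae_tendsto_indicator (𝓝 x) (hB.inter measurableSet_closedBall)
      (fun y => hB.inter measurableSet_closedBall)
      (B := closedBall x (rad n + 1)) measurableSet_closedBall measure_closedBall_lt_top.ne ?_ ?_
    · filter_upwards [closedBall_mem_nhds x one_pos] with y hy z hz
      rw [mem_closedBall] at hy ⊢
      have h2 := mem_closedBall.1 hz.2
      calc dist z x ≤ dist z y + dist y x := dist_triangle _ _ _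
        _ ≤ rad n + 1 := add_le_add h2 hy
    · have h3 : volume (sphere x (rad n)) = 0 :=
        Measure.addHaar_sphere_of_ne_zero volume x (rad_pos n).ne'
      rw [measure_eq_zero_iff_ae_notMem] at h3
      filter_upwards [h3] with z hz
      have h4 : dist z x ≠ rad n := fun h => hz (mem_sphere.2 h)
      have hc : Continuous fun y : ℝ × ℝ => dist z y := continuous_const.dist continuous_id
      rcases lt_or_gt_of_ne h4 with h5 | h5
      · have h6 : ∀ᶠ y in 𝓝 x, dist z y < rad n := hc.continuousAt.eventually_lt_const h5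
        filter_upwards [h6] with y hy
        simp only [mem_inter_iff, mem_closedBall]
        constructor
        · rintro ⟨h7, -⟩
          exact ⟨h7, h5.le⟩
        · rintro ⟨h7, -⟩
          exact ⟨h7, hy.le⟩
      · have h6 : ∀ᶠ y in 𝓝 x, rad n < dist z y := hc.continuousAt.eventually_const_lt h5
        filter_upwards [h6] with y hy
        simp only [mem_inter_iff, mem_closedBall]
        constructor
        · rintro ⟨-, h7⟩
          exact absurd h7 (not_le.2 hy)
        · rintro ⟨-, h7⟩
          exact absurd h7 (not_le.2 h5)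
  have h2 : (fun x : ℝ × ℝ => volume (B ∩ closedBall x (rad n)) / volume (closedBall x (rad n))) =
      fun x => volume (B ∩ closedBall x (rad n)) * (volume (closedBall (0 : ℝ × ℝ) (rad n)))⁻¹ := by
    funext x
    rw [m2_vol_rad n x, div_eq_mul_inv]
  rw [h2]
  refine ENNReal.continuous_mul_const ?_ |>.comp h1
  exact ENNReal.inv_ne_top.2 (vol_ball_pos n 0).ne'

/-- in an open convex set which meets `B` and its complement in positive measure, there are small
squares in which the proportion is exactly one half -/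
theorem m2_exists_half {B : Set (ℝ × ℝ)} (hB : MeasurableSet B) {U : Set (ℝ × ℝ)} (hU : IsOpen U)
    (hUc : Convex ℝ U) (h1 : volume (B ∩ U) ≠ 0) (h2 : volume (Bᶜ ∩ U) ≠ 0) (N : ℕ) :
    ∃ n, N ≤ n ∧ ∃ y, closedBall y (rad n) ⊆ U ∧ dens B n y = 1 / 2 := by
  have hdens : ∀ C : Set (ℝ × ℝ), MeasurableSet C → volume (C ∩ U) ≠ 0 →
      ∃ a ∈ U, Dens1 C a := by
    intro C hC hCU
    have h2 := Besicovitch.ae_tendsto_measure_inter_div (volume : Measure (ℝ × ℝ)) C
    rw [ae_restrict_iff' hC] at h2
    by_contra hno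
    push Not at hno
    apply hCU
    rw [measure_eq_zero_iff_ae_notMem]
    filter_upwards [h2] with x hx hxC
    exact hno x hxC.2 ((hx hxC.1).comp tendsto_rad)
  obtain ⟨a, haU, ha⟩ := hdens B hB h1
  obtain ⟨b, hbU, hb⟩ := hdens Bᶜ hB.compl h2
  have hseg : segment ℝ a b ⊆ U := hUc.segment_subset haU hbU
  have hcomp : IsCompact (segment ℝ a b) := by
    rw [segment_eq_image_lineMap]
    exact isCompact_Icc.image (AffineMap.lineMap_continuous)
  obtain ⟨δ, hδ, hδU⟩ := hcomp.exists_cthickening_subset_open hU hseg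
  have e1 : ∀ᶠ n in atTop, rad n < δ :=
    (tendsto_rad.mono_right nhdsWithin_le_nhds).eventually_lt_const hδ
  have e2 : ∀ᶠ n in atTop, (1 / 2 : ENNReal) < dens B n a := by
    refine ha.eventually_const_lt ?_
    exact ENNReal.half_lt_self (by norm_num) (by norm_num)
  have e3 : ∀ᶠ n in atTop, (1 / 2 : ENNReal) < dens Bᶜ n b := by
    refine hb.eventually_const_lt ?_
    exact ENNReal.half_lt_self (by norm_num) (by norm_num)
  obtain ⟨n, ⟨⟨hn1, hn2⟩, hn3⟩, hn4⟩ :=
    (((e1.and e2).and e3).and (eventually_ge_atTop N)).exists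
  refine ⟨n, hn4, ?_⟩
  have hlt : dens B n b ≤ 1 / 2 := by
    by_contra hgt
    push Not at hgt
    have h3 := dens_add_le hB.compl (disjoint_compl_right) n b (B := B)
    have h4 : (1 / 2 : ENNReal) + 1 / 2 < dens B n b + dens Bᶜ n b :=
      ENNReal.add_lt_add hgt hn3
    rw [ENNReal.add_halves] at h4
    exact absurd h3 (not_le.2 h4)
  have hcont : ContinuousOn (fun t : ℝ => dens B n (AffineMap.lineMap a b t)) (Icc 0 1) :=
    ((m2_continuous_dens hB n).comp AffineMap.lineMap_continuous).continuousOn
  have hivt := intermediate_value_Icc' (zero_le_one' ℝ) hcont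
  have hmem : (1 / 2 : ENNReal) ∈ Icc (dens B n (AffineMap.lineMap a b (1 : ℝ)))
      (dens B n (AffineMap.lineMap a b (0 : ℝ))) := by
    rw [AffineMap.lineMap_apply_one, AffineMap.lineMap_apply_zero]
    exact ⟨hlt, hn2.le⟩
  obtain ⟨t, ht, hty⟩ := hivt hmem
  refine ⟨AffineMap.lineMap a b t, ?_, hty⟩
  have hmemseg : AffineMap.lineMap a b t ∈ segment ℝ a b := by
    rw [segment_eq_image_lineMap]
    exact mem_image_of_mem _ ht
  exact (closedBall_subset_closedBall hn1.le).trans
    ((closedBall_subset_cthickening hmemseg δ).trans hδU)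

theorem m2_vol_rad_succ (n : ℕ) : volume (closedBall (0 : ℝ × ℝ) (rad n)) =
    4 * volume (closedBall (0 : ℝ × ℝ) (rad (n + 1))) := by
  have h1 : rad n = 2 * rad (n + 1) := by
    unfold rad
    rw [pow_succ]
    ring
  rw [h1, Measure.addHaar_closedBall_mul_of_pos volume (0 : ℝ × ℝ) (by norm_num : (0:ℝ) < 2)]
  congr 1
  rw [Module.finrank_prod, Module.finrank_self]
  norm_num

theorem m2_dens_ge {B : Set (ℝ × ℝ)} {n : ℕ} {x y : ℝ × ℝ}
    (hx : x ∈ closedBall y (rad (n + 1))) (hy : 1 / 2 ≤ dens B (n + 1) y) :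
    1 / 8 ≤ dens B n x := by
  have h1 : rad n = 2 * rad (n + 1) := by
    unfold rad
    rw [pow_succ]
    ring
  have hsub : closedBall y (rad (n + 1)) ⊆ closedBall x (rad n) := by
    intro z hz
    rw [mem_closedBall] at hx hz ⊢
    rw [dist_comm] at hx
    calc dist z x ≤ dist z y + dist y x := dist_triangle _ _ _
      _ ≤ rad (n + 1) + rad (n + 1) := add_le_add hz hx
      _ = rad n := by rw [h1]; ring
  unfold dens at hy ⊢
  rw [m2_vol_rad] at hy ⊢
  set V := volume (closedBall (0 : ℝ × ℝ) (rad (n + 1))) with hV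
  have hV0 : V ≠ 0 := (vol_ball_pos (n + 1) 0).ne'
  have hVt : V ≠ ⊤ := (vol_ball_lt (n + 1) 0).ne
  rw [m2_vol_rad_succ, ← hV]
  have h2 : 1 / 2 * V ≤ volume (B ∩ closedBall y (rad (n + 1))) := by
    rwa [ENNReal.le_div_iff_mul_le (Or.inl hV0) (Or.inl hVt)] at hy
  rw [ENNReal.le_div_iff_mul_le (Or.inl (by simp [hV0])) (Or.inl (ENNReal.mul_ne_top (by norm_num) hVt))]
  calc 1 / 8 * (4 * V) = 1 / 2 * V := by
        rw [← mul_assoc]
        congr 1
        rw [← ENNReal.toReal_eq_toReal_iff' (by finiteness) (by finiteness)]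
        simp
        norm_num
    _ ≤ volume (B ∩ closedBall y (rad (n + 1))) := h2
    _ ≤ volume (B ∩ closedBall x (rad n)) := measure_mono (inter_subset_inter_right _ hsub)

theorem m2_not_dens1 {B C : Set (ℝ × ℝ)} {x : ℝ × ℝ}
    (h : ∃ᶠ n in atTop, 1 / 8 ≤ dens C n x) (hBC : ∀ n, dens B n x + dens C n x ≤ 1) :
    ¬ Dens1 B x := by
  intro hB
  have h1 : ∀ᶠ n in atTop, (7 / 8 : ENNReal) < dens B n x := by
    refine hB.eventually_const_lt ?_
    rw [← ENNReal.toReal_lt_toReal (by finiteness) (by finiteness)]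
    simp
    norm_num
  obtain ⟨n, hn1, hn2⟩ := (h.and_eventually h1).exists
  have h2 : (7 / 8 : ENNReal) + 1 / 8 < dens B n x + dens C n x :=
    ENNReal.add_lt_add_of_lt_of_le (by finiteness) hn2 hn1
  have h3 : (7 / 8 : ENNReal) + 1 / 8 = 1 := by
    rw [← ENNReal.toReal_eq_toReal_iff' (by finiteness) (by finiteness)]
    rw [ENNReal.toReal_add (by finiteness) (by finiteness)]
    simp
    norm_num
  rw [h3] at h2
  exact absurd (hBC n) (not_le.2 h2)

/-- There is a point of density one for no class. Proof: by `avoid` and `D` nonempty some class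
`A i` has positive measure and its complement too (a translate of `A i` by an element of `D` misses
`A i`). Construct nested squares `closedBall (x k) (rad (n k))`, `n k` strictly increasing, in
each of which `A i` has proportion exactly one half: inside the square there are density points
`a` of `A i` and `b` of its complement; for a large `n` the proportion at scale `n` is > 1/2 at
`a`, < 1/2 at `b`, and it is continuous along the segment from `a` to `b` (which stays inside).
The common point `x` of the squares satisfies closedBall (x k) (rad (n k)) inside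
closedBall x (rad (n k - 1)), so both `A i` and its complement have proportion >= 1/8 there for
infinitely many scales; hence `x` is a density one point of no class. -/
theorem mix_nonempty {D : Set (ℝ × ℝ)} {A : Fin 4 → Set (ℝ × ℝ)} (h : Avoid D A)
    (hD : D.Nonempty) : (Mix A).Nonempty := by
  obtain ⟨d, hd⟩ := hD
  -- a class of positive measure
  have hi : ∃ i, volume (A i) ≠ 0 := by
    by_contra hno
    push Not at hno
    have h1 : ∀ᵐ x : ℝ × ℝ, ∀ i, x ∉ A i := by
      rw [ae_all_iff]
      intro i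
      exact measure_eq_zero_iff_ae_notMem.1 (hno i)
    have h2 : ∀ᵐ x : ℝ × ℝ, False := by
      filter_upwards [h1, h.cover] with x hx ⟨i, hi⟩
      exact hx i hi
    rw [ae_iff] at h2
    simp at h2
  obtain ⟨i, hi⟩ := hi
  set B := A i with hBdef
  have hB : MeasurableSet B := h.meas i
  have hBc : volume Bᶜ ≠ 0 := by
    have hsub : (fun z => z + d) ⁻¹' B ⊆ Bᶜ := by
      intro z hz hzB
      refine h.avoid i (z + d) hz z hzB ?_
      rwa [add_sub_cancel_left]
    have h1 : volume ((fun z => z + d) ⁻¹' B) = volume B := measure_preimage_add_right volume d B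
    intro h0
    apply hi
    rw [← h1]
    exact measure_mono_null hsub h0
  -- one step
  have hstep : ∀ p : ℕ × (ℝ × ℝ), dens B p.1 p.2 = 1 / 2 →
      ∃ q : ℕ × (ℝ × ℝ), dens B q.1 q.2 = 1 / 2 ∧ p.1 + 1 ≤ q.1 ∧
        closedBall q.2 (rad q.1) ⊆ closedBall p.2 (rad p.1) := by
    intro p hp
    have hball : ∀ C : Set (ℝ × ℝ), volume (C ∩ ball p.2 (rad p.1)) =
        volume (C ∩ closedBall p.2 (rad p.1)) := by
      intro C
      apply measure_congr
      have h3 : volume (sphere p.2 (rad p.1)) = 0 :=
        Measure.addHaar_sphere_of_ne_zero volume p.2 (rad_pos p.1).ne'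
      rw [measure_eq_zero_iff_ae_notMem] at h3
      filter_upwards [h3] with z hz
      apply propext
      constructor
      · rintro ⟨h4, h5⟩
        exact ⟨h4, ball_subset_closedBall h5⟩
      · rintro ⟨h4, h5⟩
        refine ⟨h4, ?_⟩
        rw [mem_sphere] at hz
        exact mem_ball.2 (lt_of_le_of_ne (mem_closedBall.1 h5) hz)
    have hv : volume (closedBall p.2 (rad p.1)) ≠ 0 := (vol_ball_pos p.1 p.2).ne'
    have hv' : volume (closedBall p.2 (rad p.1)) ≠ ⊤ := (vol_ball_lt p.1 p.2).ne
    have hp1 : volume (B ∩ closedBall p.2 (rad p.1)) = 1 / 2 * volume (closedBall p.2 (rad p.1)) := by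
      unfold dens at hp
      rw [← hp, ENNReal.div_mul_cancel hv hv']
    have h1 : volume (B ∩ ball p.2 (rad p.1)) ≠ 0 := by
      rw [hball, hp1]
      exact mul_ne_zero (by norm_num) hv
    have h2 : volume (Bᶜ ∩ ball p.2 (rad p.1)) ≠ 0 := by
      rw [hball]
      intro h0
      have h3 : volume (closedBall p.2 (rad p.1)) ≤ 1 / 2 * volume (closedBall p.2 (rad p.1)) := by
        rw [← hp1]
        calc volume (closedBall p.2 (rad p.1)) ≤
            volume ((B ∩ closedBall p.2 (rad p.1)) ∪ (Bᶜ ∩ closedBall p.2 (rad p.1))) := by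
              apply measure_mono
              intro z hz
              by_cases hzB : z ∈ B
              · exact Or.inl ⟨hzB, hz⟩
              · exact Or.inr ⟨hzB, hz⟩
          _ ≤ _ := measure_union_le _ _
          _ = volume (B ∩ closedBall p.2 (rad p.1)) := by rw [h0, add_zero]
      have h4 : 1 / 2 * volume (closedBall p.2 (rad p.1)) < volume (closedBall p.2 (rad p.1)) := by
        have := ENNReal.half_lt_self hv hv'
        rw [one_div, mul_comm, ← div_eq_mul_inv]
        exact this
      exact absurd h3 (not_le.2 h4)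
    obtain ⟨n, hn, y, hy1, hy2⟩ :=
      m2_exists_half hB isOpen_ball (convex_ball p.2 (rad p.1)) h1 h2 (p.1 + 1)
    exact ⟨(n, y), hy2, hn, hy1.trans ball_subset_closedBall⟩
  obtain ⟨n0, hn0, y0, -, hy0⟩ := m2_exists_half hB isOpen_univ convex_univ
    (by rwa [inter_univ]) (by rwa [inter_univ]) 1
  choose! F hF1 hF2 hF3 using hstep
  let s : ℕ → ℕ × (ℝ × ℝ) := fun k => F^[k] (n0, y0)
  have hs : ∀ k, s (k + 1) = F (s k) := fun k => Function.iterate_succ_apply' F k (n0, y0)
  have hs1 : ∀ k, dens B (s k).1 (s k).2 = 1 / 2 := by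
    intro k
    induction k with
    | zero => exact hy0
    | succ k ih => rw [hs]; exact hF1 _ ih
  have hs2 : ∀ k, k + 1 ≤ (s k).1 := by
    intro k
    induction k with
    | zero => exact hn0
    | succ k ih =>
      rw [hs]
      exact (Nat.add_le_add_right ih 1).trans (hF2 _ (hs1 k))
  have hs3 : ∀ k, closedBall (s (k + 1)).2 (rad (s (k + 1)).1) ⊆
      closedBall (s k).2 (rad (s k).1) := by
    intro k
    rw [hs]
    exact hF3 _ (hs1 k)
  obtain ⟨x, hx⟩ := IsCompact.nonempty_iInter_of_sequence_nonempty_isCompact_isClosed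
    (fun k => closedBall (s k).2 (rad (s k).1)) hs3
    (fun k => nonempty_closedBall.2 (rad_pos _).le) (isCompact_closedBall _ _)
    (fun k => isClosed_closedBall)
  rw [mem_iInter] at hx
  have hfreq : ∀ C : Set (ℝ × ℝ), (∀ k, dens C (s k).1 (s k).2 = 1 / 2) →
      ∃ᶠ n in atTop, 1 / 8 ≤ dens C n x := by
    intro C hC
    rw [frequently_atTop]
    intro N
    have hk := hs2 N
    obtain ⟨m, hm⟩ : ∃ m, (s N).1 = m + 1 := ⟨(s N).1 - 1, by omega⟩
    refine ⟨m, by omega, ?_⟩
    have h1 := hx N
    have h2 := hC N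
    rw [hm] at h1 h2
    exact m2_dens_ge h1 h2.ge
  have hcompl : ∀ k, dens Bᶜ (s k).1 (s k).2 = 1 / 2 := by
    intro k
    have h1 := hs1 k
    generalize (s k).1 = n at h1
    generalize (s k).2 = y at h1
    have h2 : dens B n y + dens Bᶜ n y = 1 := by
      unfold dens
      rw [← ENNReal.add_div, inter_comm B, inter_comm Bᶜ, ← sdiff_eq,
        measure_inter_add_sdiff _ hB]
      exact ENNReal.div_self (vol_ball_pos n y).ne' (vol_ball_lt n y).ne
    rw [h1] at h2
    have h3 : (1 / 2 : ENNReal) + 1 / 2 = 1 := ENNReal.add_halves 1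
    have h4 : (1 / 2 : ENNReal) ≠ ⊤ := by finiteness
    exact (ENNReal.add_right_inj h4).1 (h2.trans h3.symm)
  refine ⟨x, fun j => ?_⟩
  by_cases hj : j = i
  · subst hj
    exact m2_not_dens1 (hfreq Bᶜ hcompl) fun n => dens_add_le hB.compl disjoint_compl_right n x
  · exact m2_not_dens1 (hfreq B hs1) fun n => dens_add_le hB (h.disj j i hj) n x

end Pool.Agent.Helper2.LM
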