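import Pool.Agent.Helper2.LM.M1
import Pool.Agent.Helper2.LM.M2
import Pool.Agent.Helper2.LM.M3

/-!
# From a colouring to an anti-invariant set of the circle
-/

open Set MeasureTheory Filter Topology Metric

namespace Pool.Agent.Helper2.LM

variable {D : Set (ℝ × ℝ)} {A : Fin 4 → Set (ℝ × ℝ)} {γ : ℝ → ℝ × ℝ} {T ρ : ℝ → ℝ}

theorem fin4 : ∀ i j m m' n : Fin 4, i ≠ j → m ≠ m' → m ≠ i → m ≠ j → m' ≠ i → m' ≠ j →
    n ≠ m → n ≠ m' → n = i ∨ n = j := by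
  decide

theorem ae_deriv_ne (hC : Config D γ T ρ) : ∀ᵐ t : ℝ, deriv γ t ≠ 0 := by
  filter_upwards [hC.dir (1, 0) (by simp)] with t ht h0
  apply ht
  rw [h0]
  simp [det2]

/-- a centre: a point of density one for no class, whose `γ`-circle is almost nowhere mixed -/
def Good (A : Fin 4 → Set (ℝ × ℝ)) (γ : ℝ → ℝ × ℝ) (x : ℝ × ℝ) : Prop :=
  x ∈ Mix A ∧ ∀ᵐ t : ℝ, x + γ t ∉ Mix A

theorem exists_good (hC : Config D γ T ρ) (h : Avoid D A) : ∃ x, Good A γ x := by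
  obtain ⟨x0, hx0⟩ := mix_nonempty h ⟨_, hC.γ_mem 0⟩
  by_cases hn : ∀ᵐ t : ℝ, x0 + γ t ∉ Mix A
  · exact ⟨x0, hx0, hn⟩
  · have h1 := null_sum hC.γ_c hC.γ_c (mix_null h) x0
    have h2 : ∀ᵐ s : ℝ, ∀ᵐ t : ℝ, x0 + γ s + γ t ∉ Mix A := by
      filter_upwards [h1, ae_deriv_ne hC] with s hs hs'
      filter_upwards [hs, hC.dir _ hs'] with t ht ht'
      exact ht ht'
    have h3 : ∃ᶠ t : ℝ in ae volume, x0 + γ t ∈ Mix A := fun h' => hn h'
    obtain ⟨s, hs1, hs2⟩ := (h3.and_eventually h2).exists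
    exact ⟨x0 + γ s, hs1, hs2⟩

theorem key (h : Avoid D A) {a b : ℝ × ℝ} {u v : Fin 4} (hu : ¬ Dens0 (A u) a)
    (hv : Dens1 (A v) b) (hab : b - a ∈ D ∨ a - b ∈ D) : v ≠ u := by
  rintro rfl
  rcases hab with hab | hab
  · exact (far h hu hv).2 hab
  · exact (far h hu hv).1 hab

theorem not_mix {x : ℝ × ℝ} (hx : x ∉ Mix A) : ∃ m, Dens1 (A m) x := by
  by_contra hcon
  exact hx fun i hi => hcon ⟨i, hi⟩

theorem ae_comp {f : ℝ → ℝ} (hf : ContDiff ℝ 1 f) (hf' : ∀ x, 0 < deriv f x) {P : ℝ → Prop}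
    (hP : ∀ᵐ t : ℝ, P t) : ∀ᵐ t : ℝ, P (f t) := by
  rw [ae_iff] at hP ⊢
  exact null_preimage hf hf' hP

theorem types (hC : Config D γ T ρ) (h : Avoid D A) {x : ℝ × ℝ} (hx : Good A γ x) :
    ∃ i j : Fin 4, i ≠ j ∧
      ∀ᵐ t : ℝ, ∀ n, ¬ Dens0 (A n) (x + (γ t + γ (T t))) → n = i ∨ n = j := by
  obtain ⟨i, j, hij, hi, hj⟩ := two_classes h hx.1
  refine ⟨i, j, hij, ?_⟩
  filter_upwards [hx.2, ae_comp hC.T_c hC.T_pos hx.2] with t h1 h2 n hn
  obtain ⟨m, hm⟩ := not_mix h1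
  obtain ⟨m', hm'⟩ := not_mix h2
  have hd : γ t ∈ D := hC.γ_mem t
  have hd' : γ (T t) ∈ D := hC.γ_mem _
  have e1 : x + γ t - x = γ t := by abel
  have e2 : x + γ (T t) - x = γ (T t) := by abel
  have e3 : x + γ t - (x + γ (T t)) = γ t - γ (T t) := by abel
  have e4 : x + (γ t + γ (T t)) - (x + γ t) = γ (T t) := by abel
  have e5 : x + (γ t + γ (T t)) - (x + γ (T t)) = γ t := by abel
  refine fin4 i j m m' n hij ?_ ?_ ?_ ?_ ?_ ?_ ?_
  · exact key h (dens1_not_dens0 hm') hm (Or.inl (by rw [e3]; exact hC.γT t))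
  · exact key h hi hm (Or.inl (by rw [e1]; exact hd))
  · exact key h hj hm (Or.inl (by rw [e1]; exact hd))
  · exact key h hi hm' (Or.inl (by rw [e2]; exact hd'))
  · exact key h hj hm' (Or.inl (by rw [e2]; exact hd'))
  · exact (key h hn hm (Or.inr (by rw [e4]; exact hd'))).symm
  · exact (key h hn hm' (Or.inr (by rw [e5]; exact hd))).symm

theorem ρ_c1 (hC : Config D γ T ρ) : ContDiff ℝ 1 ρ := hC.ρ_c.of_le (by norm_num)

theorem w_c1 (hC : Config D γ T ρ) : ContDiff ℝ 1 fun s => γ s + γ (T s) :=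
  hC.γ_c.add (hC.γ_c.comp hC.T_c)

theorem inv_ae (hC : Config D γ T ρ) (h : Avoid D A) {x : ℝ × ℝ} (hx : Good A γ x) :
    ∀ᵐ t : ℝ, (x + (γ t + γ (T t)) ∈ Mix A ↔ x + (γ (ρ t) + γ (T (ρ t))) ∈ Mix A) := by
  obtain ⟨i, j, hij, hty⟩ := types hC h hx
  filter_upwards [hty, ae_comp (ρ_c1 hC) hC.ρ_pos hty] with t h1 h2
  have e : x + (γ t + γ (T t)) - (x + (γ (ρ t) + γ (T (ρ t)))) =
      (γ t + γ (T t)) - (γ (ρ t) + γ (T (ρ t))) := by abel
  have hD : x + (γ t + γ (T t)) - (x + (γ (ρ t) + γ (T (ρ t)))) ∈ D := by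
    rw [e]; exact hC.wρ t
  have both : ∀ {y : ℝ × ℝ}, y ∈ Mix A → (∀ n, ¬ Dens0 (A n) y → n = i ∨ n = j) →
      ¬ Dens0 (A i) y ∧ ¬ Dens0 (A j) y := by
    intro y hy hyt
    obtain ⟨a, b, hab, ha, hb⟩ := two_classes h hy
    rcases hyt a ha with rfl | rfl <;> rcases hyt b hb with rfl | rfl
    · exact absurd rfl hab
    · exact ⟨ha, hb⟩
    · exact ⟨hb, ha⟩
    · exact absurd rfl hab
  constructor
  · intro hz
    by_contra hz'
    obtain ⟨m, hm⟩ := not_mix hz'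
    obtain ⟨hi, hj⟩ := both hz h1
    rcases h2 m (dens1_not_dens0 hm) with rfl | rfl
    · exact key h hi hm (Or.inr hD) rfl
    · exact key h hj hm (Or.inr hD) rfl
  · intro hz
    by_contra hz'
    obtain ⟨m, hm⟩ := not_mix hz'
    obtain ⟨hi, hj⟩ := both hz h2
    rcases h1 m (dens1_not_dens0 hm) with rfl | rfl
    · exact key h hi hm (Or.inl hD) rfl
    · exact key h hj hm (Or.inl hD) rfl

theorem det2_par {a b c : ℝ × ℝ} (ha : a ≠ 0) (hb : det2 a b = 0) (hc : det2 a c = 0) :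
    det2 b c = 0 := by
  obtain ⟨a1, a2⟩ := a
  obtain ⟨b1, b2⟩ := b
  obtain ⟨c1, c2⟩ := c
  simp only [det2] at *
  by_cases h1 : a1 = 0
  · have h2 : a2 ≠ 0 := by
      rintro rfl
      exact ha (by rw [h1]; rfl)
    have : a2 * (b1 * c2 - b2 * c1) = 0 := by
      linear_combination (-c2) * hb + b2 * hc
    exact (mul_eq_zero.1 this).resolve_left h2
  · have : a1 * (b1 * c2 - b2 * c1) = 0 := by
      linear_combination (-c1) * hb + b1 * hc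
    exact (mul_eq_zero.1 this).resolve_left h1

theorem w_ne (hC : Config D γ T ρ) (t : ℝ) : deriv (fun s => γ s + γ (T s)) t ≠ 0 := by
  intro h0
  have := hC.ww t
  rw [h0] at this
  simp [det2] at this

theorem exists_null (hC : Config D γ T ρ) (h : Avoid D A) :
    ∃ x, Good A γ x ∧ ∀ᵐ t : ℝ, x + (γ t + γ (T t)) ∉ Mix A := by
  obtain ⟨x, hx⟩ := exists_good hC h
  by_cases hn : ∀ᵐ t : ℝ, x + (γ t + γ (T t)) ∉ Mix A
  · exact ⟨x, hx, hn⟩
  have h1 := null_sum (w_c1 hC) hC.γ_c (mix_null h) x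
  have h2 := null_sum (w_c1 hC) (w_c1 hC) (mix_null h) x
  have h3 : ∀ᵐ s : ℝ, ∀ᵐ t : ℝ, x + (γ s + γ (T s)) + γ t ∉ Mix A := by
    filter_upwards [h1] with s hs
    filter_upwards [hs, hC.dir _ (w_ne hC s)] with t ht ht'
    exact ht ht'
  have h4 : ∃ᶠ t : ℝ in ae volume, x + (γ t + γ (T t)) ∈ Mix A := fun h' => hn h'
  obtain ⟨s, hs1, hs2, hs3⟩ := (h4.and_eventually (h3.and h2)).exists
  have hG : Good A γ (x + (γ s + γ (T s))) := ⟨hs1, hs2⟩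
  refine ⟨_, hG, ?_⟩
  filter_upwards [inv_ae hC h hG, hs3, ae_comp (ρ_c1 hC) hC.ρ_pos hs3] with t ht1 ht2 ht3 hmem
  have a1 : det2 (deriv (fun s => γ s + γ (T s)) s) (deriv (fun s => γ s + γ (T s)) t) = 0 := by
    by_contra hne
    exact ht2 hne hmem
  have a2 : det2 (deriv (fun s => γ s + γ (T s)) s) (deriv (fun s => γ s + γ (T s)) (ρ t)) = 0 := by
    by_contra hne
    exact ht3 hne (ht1.1 hmem)
  exact hC.ww t (det2_par (w_ne hC s) a1 a2)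

theorem exists_anti {D : Set (ℝ × ℝ)} {A : Fin 4 → Set (ℝ × ℝ)} {γ : ℝ → ℝ × ℝ} {T ρ : ℝ → ℝ}
    (hC : Config D γ T ρ) (h : Avoid D A) :
    ∃ E : Set ℝ, MeasurableSet E ∧ (∀ᵐ t : ℝ, (t + 1 ∈ E ↔ t ∈ E)) ∧
      ∀ᵐ t : ℝ, (t ∈ E ↔ ρ t ∉ E) := by
  obtain ⟨x, hx, hn⟩ := exists_null hC h
  obtain ⟨i, j, hij, hty⟩ := types hC h hx
  refine ⟨{t | Dens1 (A i) (x + (γ t + γ (T t)))}, ?_, ?_, ?_⟩
  · have hcont : Continuous fun t : ℝ => x + (γ t + γ (T t)) :=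
      continuous_const.add (w_c1 hC).continuous
    exact hcont.measurable (measurable_dens1 (h.meas i))
  · refine Eventually.of_forall fun t => ?_
    simp only [mem_ofPred_eq, hC.γ_per, hC.T_add]
  · filter_upwards [hn, ae_comp (ρ_c1 hC) hC.ρ_pos hn, hty, ae_comp (ρ_c1 hC) hC.ρ_pos hty]
      with t h1 h2 h3 h4
    obtain ⟨m, hm⟩ := not_mix h1
    obtain ⟨m', hm'⟩ := not_mix h2
    have e : x + (γ t + γ (T t)) - (x + (γ (ρ t) + γ (T (ρ t)))) =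
        (γ t + γ (T t)) - (γ (ρ t) + γ (T (ρ t))) := by abel
    have hD : x + (γ t + γ (T t)) - (x + (γ (ρ t) + γ (T (ρ t)))) ∈ D := by
      rw [e]; exact hC.wρ t
    have hmm : m ≠ m' := key h (dens1_not_dens0 hm') hm (Or.inl hD)
    have hm1 := h3 m (dens1_not_dens0 hm)
    have hm2 := h4 m' (dens1_not_dens0 hm')
    have i1 : Dens1 (A i) (x + (γ t + γ (T t))) ↔ m = i :=
      ⟨fun hd => dens1_unique h hm hd, fun hd => hd ▸ hm⟩
    have i2 : Dens1 (A i) (x + (γ (ρ t) + γ (T (ρ t)))) ↔ m' = i :=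
      ⟨fun hd => dens1_unique h hm' hd, fun hd => hd ▸ hm'⟩
    change Dens1 (A i) (x + (γ t + γ (T t))) ↔ ¬ Dens1 (A i) (x + (γ (ρ t) + γ (T (ρ t))))
    rw [i1, i2]
    constructor
    · rintro rfl h5
      exact hmm h5.symm
    · intro h5
      rcases hm1 with h6 | h6
      · exact h6
      · rcases hm2 with h7 | h7
        · exact absurd h7 h5
        · exact absurd (h6.trans h7.symm) hmm

end Pool.Agent.Helper2.LM
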