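import Pool.Agent.Helper2.LM.F1
import Pool.Agent.Helper2.LM.D2
import Pool.Agent.Helper2.LM.D7
import Pool.Agent.Helper2.LM.M4

/-!
# Irrational rotation numbers and the final argument
-/

open Set MeasureTheory Filter Topology Metric

namespace Pool.Agent.Helper2.LM

theorem exists_lift {ε : ℝ} {ρ : ℝ → ℝ → ℝ}
    (h : ∀ p ∈ Ico 2 (2 + ε), StrictMono (ρ p) ∧ ∀ t, ρ p (t + 1) = ρ p t + 1) :
    ∃ F : ℝ → CircleDeg1Lift, ∀ p ∈ Ico 2 (2 + ε), ∀ x, F p x = ρ p x := by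
  classical
  refine ⟨fun p => if hp : p ∈ Ico 2 (2 + ε) then
    ⟨⟨ρ p, (h p hp).1.monotone⟩, (h p hp).2⟩ else 1, fun p hp x => ?_⟩
  simp only [dif_pos hp]
  rfl

theorem continuousOn_iter {ε : ℝ} {ρ : ℝ → ℝ → ℝ}
    (hc : ContinuousOn (fun z : ℝ × ℝ => ρ z.1 z.2) (Ico 2 (2 + ε) ×ˢ univ)) (n : ℕ) :
    ContinuousOn (fun p => (ρ p)^[n] 0) (Ico 2 (2 + ε)) := by
  induction n with
  | zero => exact continuousOn_const
  | succ n ih =>
    have h1 : ContinuousOn (fun p => ρ p ((ρ p)^[n] 0)) (Ico 2 (2 + ε)) :=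
      hc.comp (continuousOn_id.prodMk ih) fun p hp => ⟨hp, trivial⟩
    refine h1.congr fun p _ => ?_
    exact Function.iterate_succ_apply' _ _ _

theorem continuousOn_rot {ε : ℝ} {ρ : ℝ → ℝ → ℝ}
    (hc : ContinuousOn (fun z : ℝ × ℝ => ρ z.1 z.2) (Ico 2 (2 + ε) ×ˢ univ))
    {F : ℝ → CircleDeg1Lift} (hF : ∀ p ∈ Ico 2 (2 + ε), ∀ x, F p x = ρ p x) :
    ContinuousOn (fun p => CircleDeg1Lift.translationNumber (F p)) (Ico 2 (2 + ε)) := by
  have hb : ∀ (n : ℕ), ∀ p ∈ Ico 2 (2 + ε),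
      |CircleDeg1Lift.translationNumber (F p) - (ρ p)^[n + 1] 0 / ((n : ℝ) + 1)| ≤
        1 / ((n : ℝ) + 1) := by
    intro n p hp
    have h1 := (F p).dist_pow_map_zero_mul_translationNumber_le (n + 1)
    have h2 : (F p ^ (n + 1)) 0 = (ρ p)^[n + 1] 0 := by
      rw [CircleDeg1Lift.coe_pow, show (F p : ℝ → ℝ) = ρ p from funext (hF p hp)]
    rw [h2, Real.dist_eq] at h1
    have hpos : (0 : ℝ) < (n : ℝ) + 1 := by positivity
    rw [abs_le] at h1 ⊢
    push_cast at h1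
    constructor
    · rw [neg_le_iff_add_nonneg, ← sub_nonneg] at *
      have : 0 ≤ (1 / ((n : ℝ) + 1)) * (1 - ((ρ p)^[n + 1] 0 -
          ((n : ℝ) + 1) * CircleDeg1Lift.translationNumber (F p))) :=
        mul_nonneg (by positivity) (by linarith [h1.2])
      calc (0 : ℝ) ≤ _ := this
        _ = _ := by field_simp; ring
    · have : 0 ≤ (1 / ((n : ℝ) + 1)) * (1 + ((ρ p)^[n + 1] 0 -
          ((n : ℝ) + 1) * CircleDeg1Lift.translationNumber (F p))) :=
        mul_nonneg (by positivity) (by linarith [h1.1])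
      rw [← sub_nonneg]
      calc (0 : ℝ) ≤ _ := this
        _ = _ := by field_simp; ring
  have hu : TendstoUniformlyOn (fun (n : ℕ) p => (ρ p)^[n + 1] 0 / ((n : ℝ) + 1))
      (fun p => CircleDeg1Lift.translationNumber (F p)) atTop (Ico 2 (2 + ε)) := by
    rw [Metric.tendstoUniformlyOn_iff]
    intro δ hδ
    filter_upwards [(tendsto_one_div_add_atTop_nhds_zero_nat (𝕜 := ℝ)).eventually
      (gt_mem_nhds hδ)] with n hn p hp
    rw [Real.dist_eq]
    exact (hb n p hp).trans_lt hn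
  refine hu.continuousOn (Eventually.of_forall fun n => ?_).frequently
  exact (continuousOn_iter hc (n + 1)).div_const _

theorem not_countable_Ioo {a b : ℝ} (hab : a < b) : ¬ (Ioo a b).Countable := by
  intro h
  have h1 := h.measure_zero volume
  rw [Real.volume_Ioo] at h1
  simp only [ENNReal.ofReal_eq_zero, tsub_le_iff_right, zero_add] at h1
  linarith

theorem uncountable_irr {δ : ℝ} (hδ : 0 < δ) {τ : ℝ → ℝ} (hτ : ContinuousOn τ (Ico 2 (2 + δ)))
    (h2 : Irrational (τ 2)) : ¬ {p | p ∈ Ioo 2 (2 + δ) ∧ Irrational (τ p)}.Countable := by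
  intro hcount
  -- some value is rational
  obtain ⟨p₁, hp₁, hr⟩ : ∃ p₁ ∈ Ioo 2 (2 + δ), ¬ Irrational (τ p₁) := by
    by_contra hcon
    push Not at hcon
    apply not_countable_Ioo (show (2 : ℝ) < 2 + δ by linarith)
    have hs : Ioo 2 (2 + δ) ⊆ {p | p ∈ Ioo 2 (2 + δ) ∧ Irrational (τ p)} :=
      fun p hp => ⟨hp, hcon p hp⟩
    exact hcount.mono hs
  have hne : τ p₁ ≠ τ 2 := fun h => hr (h ▸ h2)
  have hsub : Icc 2 p₁ ⊆ Ico 2 (2 + δ) := fun x hx => ⟨hx.1, hx.2.trans_lt hp₁.2⟩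
  have hivt := intermediate_value_uIcc (f := τ) (a := 2) (b := p₁)
    (by rw [uIcc_of_le hp₁.1.le]; exact hτ.mono hsub)
  rw [uIcc_of_le hp₁.1.le] at hivt
  -- all irrational numbers strictly between are values
  have hval : Ioo (min (τ 2) (τ p₁)) (max (τ 2) (τ p₁)) ⊆
      τ '' {p | p ∈ Ioo 2 (2 + δ) ∧ Irrational (τ p)} ∪ range ((↑) : ℚ → ℝ) := by
    intro y hy
    by_cases hyi : Irrational y
    · left
      have hyy : y ∈ uIcc (τ 2) (τ p₁) := ⟨hy.1.le, hy.2.le⟩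
      obtain ⟨p, hp, rfl⟩ := hivt hyy
      refine ⟨p, ⟨⟨lt_of_le_of_ne hp.1 ?_, hp.2.trans_lt hp₁.2⟩, hyi⟩, rfl⟩
      rintro rfl
      rcases le_total (τ 2) (τ p₁) with hle | hle
      · rw [min_eq_left hle] at hy
        exact lt_irrefl _ hy.1
      · rw [max_eq_left hle] at hy
        exact lt_irrefl _ hy.2
    · right
      simpa [Irrational] using hyi
  refine not_countable_Ioo ?_ (((hcount.image τ).union (countable_range _)).mono hval)
  rcases lt_or_gt_of_ne hne with hlt | hgt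
  · rw [min_eq_right hlt.le, max_eq_left hlt.le]; exact hlt
  · rw [min_eq_left hgt.le, max_eq_right hgt.le]; exact hgt

/-- from a colouring with null measurable classes to measurable sets -/
theorem avoid_of {D : Set (ℝ × ℝ)} {κ : ℝ × ℝ → Fin 4}
    (hm : ∀ i, NullMeasurableSet (κ ⁻¹' {i})) (h : ∀ x y, κ x = κ y → x - y ∉ D) :
    ∃ A, Avoid D A := by
  have h1 : ∀ i, ∃ t, t ⊆ κ ⁻¹' {i} ∧ MeasurableSet t ∧ t =ᵐ[volume] κ ⁻¹' {i} := fun i => by
    obtain ⟨t, ht1, ht2, ht3⟩ := (hm i).exists_measurable_subset_ae_eq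
    exact ⟨t, ht1, ht2, ht3⟩
  choose A hA1 hA2 hA3 using h1
  refine ⟨A, hA2, ?_, ?_, ?_⟩
  · intro i j hij
    rw [Set.disjoint_left]
    intro x hx hy
    exact hij ((hA1 i hx : κ x = i).symm.trans (hA1 j hy : κ x = j))
  · have h2 : ∀ᵐ x : ℝ × ℝ, ∀ i, (x ∈ A i ↔ x ∈ κ ⁻¹' {i}) := by
      rw [ae_all_iff]
      intro i
      filter_upwards [hA3 i] with x hx
      exact Iff.of_eq hx
    filter_upwards [h2] with x hx
    exact ⟨κ x, (hx (κ x)).2 rfl⟩
  · intro i x hx y hy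
    exact h x y ((hA1 i hx : κ x = i).trans (hA1 i hy : κ y = i).symm)

/-- Arbitrarily close to `2` there are uncountably many `p > 2` for which no colouring of the
`l_p` plane with four colours and Lebesgue measurable classes is proper. -/
theorem main {δ : ℝ} (hδ : 0 < δ) : ¬ {p : ℝ | 2 < p ∧ p < 2 + δ ∧
    ∀ κ : ℝ × ℝ → Fin 4, (∀ i, NullMeasurableSet (κ ⁻¹' {i})) →
      ∃ x y : ℝ × ℝ, κ x = κ y ∧ |x.1 - y.1| ^ p + |x.2 - y.2| ^ p = 1}.Countable := by
  obtain ⟨ε, α, T, ρ, hε, hirr, hρc, hρ2, hρm, hconf⟩ := family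
  obtain ⟨F, hF⟩ := exists_lift hρm
  have hrot := continuousOn_rot hρc hF
  have h2 : CircleDeg1Lift.translationNumber (F 2) = α := by
    have : F 2 = CircleDeg1Lift.translate (Multiplicative.ofAdd α) := by
      apply CircleDeg1Lift.ext
      intro x
      rw [hF 2 ⟨le_rfl, by linarith⟩, hρ2, CircleDeg1Lift.translate_apply, add_comm]
    rw [this, CircleDeg1Lift.translationNumber_translate]
  have hmin : 0 < min δ ε := lt_min hδ hε
  have hle1 := min_le_left δ ε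
  have hle2 := min_le_right δ ε
  have hunc := uncountable_irr hmin (hrot.mono (Ico_subset_Ico_right (by linarith)))
    (by rw [h2]; exact hirr)
  intro hcount
  apply hunc
  refine hcount.mono ?_
  rintro p ⟨hp, hpi⟩
  refine ⟨hp.1, by linarith [hp.2], fun κ hκ => ?_⟩
  by_contra hcon
  push Not at hcon
  have hpε : p ∈ Ioo 2 (2 + ε) := ⟨hp.1, by linarith [hp.2]⟩
  have hC := hconf p hpε
  obtain ⟨A, hA⟩ := avoid_of (D := {v | LM.hp p v = 1}) hκ (fun x y hxy hmem => hcon x y hxy hmem)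
  obtain ⟨E, hE1, hE2, hE3⟩ := exists_anti hC hA
  obtain ⟨g, hg⟩ := cdiff_of hC.ρ_c hC.ρ_pos hC.ρ_add (hF p (Ioo_subset_Ico_self hpε)) hpi
  exact no_anti hg hE1 hE2 hE3

end Pool.Agent.Helper2.LM
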