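import Pool.Agent.Helper2.LM.Defs

open Set MeasureTheory Filter Topology Metric

namespace Pool.Agent.Helper2.LM

/-- distance of `n α` to the nearest integer -/
noncomputable def dn (α : ℝ) (n : ℕ) : ℝ := |(n : ℝ) * α - round ((n : ℝ) * α)|

theorem dn_le (α : ℝ) (n : ℕ) (m : ℤ) : dn α n ≤ |(n : ℝ) * α - m| := round_le _ _

theorem dn_pos {α : ℝ} (hα : Irrational α) {n : ℕ} (hn : 1 ≤ n) : 0 < dn α n := by
  unfold dn
  rw [abs_pos, sub_ne_zero]
  have h : Irrational ((n : ℝ) * α) := hα.natCast_mul (by omega)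
  exact h.ne_int _

theorem exists_delta {α : ℝ} (hα : Irrational α) {ε : ℝ} (hε : 0 < ε) (N : ℕ) :
    ∃ δ : ℝ, 0 < δ ∧ δ ≤ ε ∧ ∀ j : ℕ, 1 ≤ j → j ≤ N → δ ≤ dn α j := by
  induction N with
  | zero => exact ⟨ε, hε, le_rfl, fun j h1 h2 => by omega⟩
  | succ N ih =>
    obtain ⟨δ, h0, h1, h2⟩ := ih
    refine ⟨min δ (dn α (N + 1)), lt_min h0 (dn_pos hα (by omega)), (min_le_left _ _).trans h1, ?_⟩
    intro j hj hj'
    rcases Nat.lt_or_ge j (N + 1) with h | h
    · exact (min_le_left _ _).trans (h2 j hj (by omega))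
    · have : j = N + 1 := by omega
      subst this
      exact min_le_right _ _

theorem exists_dn_lt (α : ℝ) {δ : ℝ} (hδ : 0 < δ) : ∃ k : ℕ, 1 ≤ k ∧ dn α k < δ := by
  obtain ⟨n, hn⟩ := exists_nat_one_div_lt hδ
  obtain ⟨k, hk, hk', h⟩ := Real.exists_nat_abs_mul_sub_round_le α (n := n + 1) (by omega)
  refine ⟨k, hk, lt_of_le_of_lt h (lt_of_le_of_lt ?_ hn)⟩
  push_cast
  apply one_div_le_one_div_of_le (by positivity)
  linarith

/-- the first index with a value below `δ` -/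
theorem exists_first (α : ℝ) {δ : ℝ} (hδ : 0 < δ) :
    ∃ q : ℕ, 1 ≤ q ∧ dn α q < δ ∧ ∀ j : ℕ, 1 ≤ j → j < q → δ ≤ dn α j := by
  classical
  have h := exists_dn_lt α hδ
  refine ⟨Nat.find h, (Nat.find_spec h).1, (Nat.find_spec h).2, ?_⟩
  intro j hj hjq
  by_contra hc
  exact Nat.find_min h hjq ⟨hj, not_le.1 hc⟩

theorem best_of_record {α : ℝ} {q : ℕ} (hq : 1 ≤ q)
    (h : ∀ j : ℕ, 1 ≤ j → j < q → dn α q < dn α j) : Best α q (round ((q : ℝ) * α)) :=
  ⟨hq, fun j hj hjq m => lt_of_lt_of_le (h j hj hjq) (dn_le α j m)⟩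

/-- Infinitely many odd denominators of best approximations. Proof: the best denominators are an
infinite sequence with errors tending to zero; for two consecutive ones `q < q'` (numerators
`p, p'`): no `j < q'` has error < |q α - p|, so by Dirichlet (Real.exists_nat_abs_mul_sub_round_le
with n = q' - 1) q' |q α - p| <= 1, and q |q' α - p'| < 1; so the integer
p q' - p' q = -(q' (q α - p)) + q (q' α - p') has absolute value < 2, and it is not zero (otherwise
|q' α - p'| = (q'/q) |q α - p| > |q α - p|). Hence q, q' are not both even. -/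
theorem exists_odd_best {α : ℝ} (hα : Irrational α) {ε : ℝ} (hε : 0 < ε) (N : ℕ) :
    ∃ (q : ℕ) (p : ℤ), N < q ∧ Odd q ∧ Best α q p ∧ |(q : ℝ) * α - p| < ε := by
  obtain ⟨δ, hδ, hδε, hδN⟩ := exists_delta hα hε N
  obtain ⟨q, hq1, hqδ, hq⟩ := exists_first α hδ
  have hqN : N < q := by
    by_contra hc
    exact absurd (hδN q hq1 (not_lt.1 hc)) (not_le.2 hqδ)
  have hqr : ∀ j : ℕ, 1 ≤ j → j < q → dn α q < dn α j :=
    fun j hj hjq => lt_of_lt_of_le hqδ (hq j hj hjq)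
  obtain ⟨r, hr1, hrδ, hr⟩ := exists_first α (dn_pos hα hq1)
  have hqr' : q < r := by
    by_contra hc
    rcases Nat.lt_or_ge r q with h | h
    · exact absurd (hqr r hr1 h) (not_lt.2 hrδ.le)
    · have : r = q := by omega
      subst this
      exact lt_irrefl _ hrδ
  have hrr : ∀ j : ℕ, 1 ≤ j → j < r → dn α r < dn α j :=
    fun j hj hjr => lt_of_lt_of_le hrδ (hr j hj hjr)
  have hq0 : (0 : ℝ) < q := by exact_mod_cast hq1
  have hr0 : (0 : ℝ) < r := by exact_mod_cast hr1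
  have hqrR : (q : ℝ) < r := by exact_mod_cast hqr'
  -- Dirichlet
  have hdir : (r : ℝ) * dn α q ≤ 1 := by
    obtain ⟨k, hk, hk', h⟩ := Real.exists_nat_abs_mul_sub_round_le α (n := r - 1) (by omega)
    have h1 : dn α q ≤ dn α k := by
      rcases Nat.lt_or_ge k q with h2 | h2
      · exact (hqr k hk h2).le
      · exact hr k hk (by omega)
    have h2 : ((r - 1 : ℕ) : ℝ) + 1 = r := by
      rw [Nat.cast_sub hr1]; push_cast; ring
    rw [h2] at h
    have h3 : dn α q ≤ 1 / r := h1.trans h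
    rw [le_div_iff₀ hr0] at h3
    linarith
  have hdir2 : (q : ℝ) * dn α r < 1 := by
    have h1 : (q : ℝ) * dn α r < q * dn α q := mul_lt_mul_of_pos_left hrδ hq0
    have h2 : (q : ℝ) * dn α q ≤ r * dn α q :=
      mul_le_mul_of_nonneg_right hqrR.le (dn_pos hα hq1).le
    linarith
  set p : ℤ := round ((q : ℝ) * α) with hp
  set s : ℤ := round ((r : ℝ) * α) with hs
  have hdq : dn α q = |(q : ℝ) * α - p| := rfl
  have hdr : dn α r = |(r : ℝ) * α - s| := rfl
  have hid : ((p * (r : ℤ) - s * (q : ℤ) : ℤ) : ℝ)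
      = (q : ℝ) * ((r : ℝ) * α - s) - (r : ℝ) * ((q : ℝ) * α - p) := by
    push_cast; ring
  have habs : |((p * (r : ℤ) - s * (q : ℤ) : ℤ) : ℝ)| < 2 := by
    rw [hid]
    calc |(q : ℝ) * ((r : ℝ) * α - s) - (r : ℝ) * ((q : ℝ) * α - p)|
        ≤ |(q : ℝ) * ((r : ℝ) * α - s)| + |(r : ℝ) * ((q : ℝ) * α - p)| := abs_sub _ _
      _ = q * dn α r + r * dn α q := by
        rw [abs_mul, abs_mul, abs_of_pos hq0, abs_of_pos hr0, hdq, hdr]
      _ < 2 := by linarith
  have hne : p * (r : ℤ) - s * (q : ℤ) ≠ 0 := by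
    intro h0
    have h1 : (q : ℝ) * ((r : ℝ) * α - s) = (r : ℝ) * ((q : ℝ) * α - p) := by
      have : ((p * (r : ℤ) - s * (q : ℤ) : ℤ) : ℝ) = 0 := by rw [h0]; simp
      linarith [hid.symm.trans this]
    have h2 : (q : ℝ) * dn α r = r * dn α q := by
      rw [hdq, hdr, ← abs_of_pos hq0, ← abs_of_pos hr0, ← abs_mul, ← abs_mul,
        abs_of_pos hq0, abs_of_pos hr0, h1]
    have h3 : (q : ℝ) * dn α r < q * dn α q := mul_lt_mul_of_pos_left hrδ hq0
    have h4 : (q : ℝ) * dn α q ≤ r * dn α q :=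
      mul_le_mul_of_nonneg_right hqrR.le (dn_pos hα hq1).le
    linarith
  have habsZ : |p * (r : ℤ) - s * (q : ℤ)| < 2 := by exact_mod_cast habs
  have hodd : Odd q ∨ Odd r := by
    by_contra hc
    rw [not_or, Nat.not_odd_iff_even, Nat.not_odd_iff_even] at hc
    obtain ⟨⟨a, ha⟩, ⟨b, hb⟩⟩ := hc
    have hE : p * (r : ℤ) - s * (q : ℤ) = 2 * (p * b - s * a) := by
      rw [ha, hb]; push_cast; ring
    rw [hE] at habsZ hne
    have : p * (b : ℤ) - s * a = 0 := by
      rw [abs_lt] at habsZ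
      omega
    rw [this] at hne
    exact hne (by norm_num)
  rcases hodd with h | h
  · exact ⟨q, p, hqN, h, best_of_record hq1 hqr, lt_of_lt_of_le hqδ hδε⟩
  · exact ⟨r, s, by omega, h, best_of_record hr1 hrr,
      lt_of_lt_of_le (hrδ.trans hqδ) hδε⟩

end Pool.Agent.Helper2.LM
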