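import Pool.Agent.Helper2.LM.Defs

open Set MeasureTheory Filter Topology Metric

namespace Pool.Agent.Helper2.LM

private theorem d3_add_int {f g : ℝ → ℝ} {α : ℝ} (h : CDiff f g α) (m : ℤ) :
    ∀ x, f (x + m) = f x + m := by
  induction m using Int.induction_on with
  | zero => intro x; simp
  | succ i ih =>
    intro x
    push_cast
    have e : x + ((i : ℝ) + 1) = (x + i) + 1 := by ring
    rw [e, h.add]
    have := ih x
    push_cast at this
    rw [this]; ring
  | pred i ih =>
    intro x
    have h1 := h.add (x + ((-(i : ℤ) - 1 : ℤ) : ℝ))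
    have e : x + ((-(i : ℤ) - 1 : ℤ) : ℝ) + 1 = x + ((-(i : ℤ) : ℤ) : ℝ) := by
      push_cast; ring
    rw [e, ih x] at h1
    push_cast at h1 ⊢
    linarith

private theorem d3_iter_add_int {f g : ℝ → ℝ} {α : ℝ} (h : CDiff f g α) (n : ℕ) (m : ℤ) :
    ∀ x, f^[n] (x + m) = f^[n] x + m := by
  induction n with
  | zero => intro x; simp
  | succ n ih =>
    intro x
    rw [Function.iterate_succ_apply, Function.iterate_succ_apply, d3_add_int h, ih]

private theorem d3_mono {f g : ℝ → ℝ} {α : ℝ} (h : CDiff f g α) (n : ℕ) :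
    StrictMono f^[n] :=
  (strictMono_of_deriv_pos h.pos).iterate n

/-- comparison of the intervals `(y, z)` and `(f^d y + m, f^d z + m)` -/
private theorem d3_key {f g : ℝ → ℝ} {α : ℝ} (h : CDiff f g α) {q : ℕ} {p : ℤ}
    (hq : Best α q p) (h1 : |(q : ℝ) * α - p| < 1) {y z : ℝ} (hyz : y < z)
    (hc : z = f^[q] y - p ∨ y = f^[q] z - p) (d : ℕ) (hd : d < q) (m : ℤ)
    (hdm : ¬ (d = 0 ∧ m = 0)) :
    z ≤ f^[d] y + m ∨ f^[d] z + m ≤ y := by
  -- the error of `(d, m)` is larger
  have herr : |(q : ℝ) * α - p| < |(d : ℝ) * α + m| := by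
    rcases Nat.eq_zero_or_pos d with h0 | h0
    · subst h0
      have hm : m ≠ 0 := fun hm => hdm ⟨rfl, hm⟩
      have hm1 : (1 : ℝ) ≤ |(m : ℝ)| := by
        have : (1 : ℤ) ≤ |m| := Int.one_le_abs hm
        exact_mod_cast this
      simp only [Nat.cast_zero, zero_mul, zero_add]
      linarith
    · have := hq.2 d h0 hd (-m)
      push_cast at this
      rwa [sub_neg_eq_add] at this
  -- the sign of `d α + m`
  have hne : (d : ℝ) * α + m ≠ 0 := by
    intro h0
    rw [h0, abs_zero] at herr
    exact absurd herr (not_lt.mpr (abs_nonneg _))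
  have hq0 : (q : ℝ) * α - p ≠ 0 := by
    intro h0
    have hqpos : (q : ℝ) ≠ 0 := by
      have := hq.1
      positivity
    apply h.irr
    refine ⟨(p : ℚ) / (q : ℚ), ?_⟩
    push_cast
    field_simp
    linarith
  have hcast : ((q - d : ℕ) : ℝ) = (q : ℝ) - d := by
    rw [Nat.cast_sub hd.le]
  rcases hc with hz | hy
  · -- `z = f^q y - p`
    have hpos : 0 < (q : ℝ) * α - p := by
      rcases lt_or_gt_of_ne hq0 with hlt | hgt
      · exfalso
        have := h.lt q p y (by linarith)
        linarith
      · exact hgt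
    rw [abs_of_pos hpos] at herr
    rcases lt_or_gt_of_ne hne with hlt | hgt
    · right
      rw [abs_of_neg hlt] at herr
      have h2 := h.lt (d + q) (p - m) y (by push_cast; linarith)
      rw [Function.iterate_add_apply] at h2
      have h3 := d3_iter_add_int h d (-p) (f^[q] y)
      push_cast at h2 h3
      rw [hz, sub_eq_add_neg, h3]
      linarith
    · left
      rw [abs_of_pos hgt] at herr
      have h2 := h.lt (q - d) (m + p) (f^[d] y) (by rw [hcast]; push_cast; linarith)
      rw [← Function.iterate_add_apply, Nat.sub_add_cancel hd.le] at h2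
      push_cast at h2
      linarith
  · -- `y = f^q z - p`
    have hneg : (q : ℝ) * α - p < 0 := by
      rcases lt_or_gt_of_ne hq0 with hlt | hgt
      · exact hlt
      · exfalso
        have := h.gt q p z (by linarith)
        linarith
    rw [abs_of_neg hneg] at herr
    rcases lt_or_gt_of_ne hne with hlt | hgt
    · right
      rw [abs_of_neg hlt] at herr
      have h2 := h.gt (q - d) (m + p) (f^[d] z) (by rw [hcast]; push_cast; linarith)
      rw [← Function.iterate_add_apply, Nat.sub_add_cancel hd.le] at h2
      push_cast at h2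
      linarith
    · left
      rw [abs_of_pos hgt] at herr
      have h2 := h.gt (d + q) (p - m) z (by push_cast; linarith)
      rw [Function.iterate_add_apply] at h2
      have h3 := d3_iter_add_int h d (-p) (f^[q] z)
      push_cast at h2 h3
      rw [hy, sub_eq_add_neg, h3]
      linarith

/-- the translated iterates of `(y, z)` are disjoint -/
private theorem d3_disj {f g : ℝ → ℝ} {α : ℝ} (h : CDiff f g α) {q : ℕ} {p : ℤ}
    (hq : Best α q p) (h1 : |(q : ℝ) * α - p| < 1) {y z : ℝ} (hyz : y < z)
    (hc : z = f^[q] y - p ∨ y = f^[q] z - p) (i j : ℕ) (hij : i < j) (hj : j < q) (m n : ℤ) :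
    Disjoint (Ioo (f^[i] y + m) (f^[i] z + m)) (Ioo (f^[j] y + n) (f^[j] z + n)) := by
  have hk := d3_key h hq h1 hyz hc (j - i) (by omega) (n - m) (by omega)
  have hj' : j = i + (j - i) := by omega
  have hy : f^[j] y + n = f^[i] (f^[j - i] y + ((n - m : ℤ) : ℝ)) + m := by
    rw [d3_iter_add_int h, ← Function.iterate_add_apply, ← hj']
    push_cast; ring
  have hz : f^[j] z + n = f^[i] (f^[j - i] z + ((n - m : ℤ) : ℝ)) + m := by
    rw [d3_iter_add_int h, ← Function.iterate_add_apply, ← hj']
    push_cast; ring
  rw [Set.disjoint_left]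
  rintro x ⟨hx1, hx2⟩ ⟨hx3, hx4⟩
  rcases hk with hk | hk
  · have := (d3_mono h i).monotone hk
    rw [hy] at hx3
    linarith
  · have := (d3_mono h i).monotone hk
    rw [hz] at hx4
    linarith

/-- Disjointness of the first `q` iterates of an interval between `y` and `f^q y - p`.
Proof. Claim: for `0 ≤ i < j < q` and an integer `m`, or `i = j` and `m ≠ 0`, the open intervals
(f^i y, f^i z) and (f^j y + m, f^j z + m) are disjoint. Applying `g^i` it is enough to
consider i = 0, d = j - i < q, (d, m) ≠ (0, 0), h = f^d + m. If h z > z and they meet then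
h y < z. When z = f^q y - p =: k y (k = f^q - p, commutes with h), h z = h (k y) = k (h y) < k z,
so z < h z < k z; by `lt`, `gt` (contrapositive) 0 < d α + m < q α - p
(use h z > z gives d α + m ≥ 0 and irrationality; for h z < k z: f^d z + m < f^q z - p, i.e. with
z = f^... use g^d or the fact that x ↦ comparison of f^d and f^q - p - m at one point decides
(q - d) α - (p + m) > 0). Then |d α + m| < |q α - p| contradicts `Best` if d ≥ 1, and d = 0
gives 0 < m < |q α - p| < 1 (for q = 1 use: the error of a best numerator p; note that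
`Best α 1 p` says nothing about p, then q = 1 and the sum has the single term z - y, so treat
q = 1 separately if needed: the claim of the theorem then needs z - y ≤ 2, which is guaranteed
by the additional hypothesis `h1`). If h z < z the same with the roles exchanged; h z = z
contradicts irrationality. The other case y = f^q z - p is symmetric. Then choose integers m_j
with f^j z + m_j in (0, 1]; all intervals (f^j y + m_j, f^j z + m_j) are disjoint, of length ≤ 1
(y + 1 > z by the case i = j), so they lie in (-1, 1], and the sum of their lengths is at most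
2 (measure of a disjoint union). -/
theorem sum_le {f g : ℝ → ℝ} {α : ℝ} (h : CDiff f g α) {q : ℕ} {p : ℤ} (hq : Best α q p)
    (h1 : |(q : ℝ) * α - p| < 1) {y z : ℝ} (hyz : y < z)
    (hc : z = f^[q] y - p ∨ y = f^[q] z - p) :
    ∑ j ∈ Finset.range q, (f^[j] z - f^[j] y) ≤ 2 := by
  classical
  -- the length is at most one
  have hlen0 : z ≤ y + 1 := by
    have hq1 : 1 ≤ q := hq.1
    have hk := d3_key h hq h1 hyz hc 0 (by omega) 1 (by simp)
    simp only [Function.iterate_zero, id_eq, Int.cast_one] at hk
    rcases hk with hk | hk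
    · exact hk
    · linarith
  have hlen : ∀ j : ℕ, f^[j] z ≤ f^[j] y + 1 := by
    intro j
    have := (d3_mono h j).monotone hlen0
    have h3 := d3_iter_add_int h j 1 y
    push_cast at h3
    rw [h3] at this
    exact this
  let m : ℕ → ℤ := fun j => 1 - ⌈f^[j] z⌉
  let I : ℕ → Set ℝ := fun j => Ioo (f^[j] y + m j) (f^[j] z + m j)
  have hI : ∀ j, I j ⊆ Ioc (-1) 1 := by
    intro j x hx
    have hx1 : f^[j] y + m j < x := hx.1
    have hx2 : x < f^[j] z + m j := hx.2
    have hm : (m j : ℝ) = 1 - (⌈f^[j] z⌉ : ℝ) := by simp [m]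
    have hc1 := Int.le_ceil (f^[j] z)
    have hc2 := Int.ceil_lt_add_one (f^[j] z)
    have hl := hlen j
    rw [hm] at hx1 hx2
    constructor
    · linarith
    · linarith
  have hdisj : Set.PairwiseDisjoint (↑(Finset.range q)) I := by
    intro i hi j hj hij
    have hi' : i < q := by simpa using hi
    have hj' : j < q := by simpa using hj
    rcases lt_or_gt_of_ne hij with hlt | hgt
    · exact d3_disj h hq h1 hyz hc i j hlt hj' (m i) (m j)
    · exact (d3_disj h hq h1 hyz hc j i hgt hi' (m j) (m i)).symm
  have hvol : volume (⋃ j ∈ Finset.range q, I j) = ∑ j ∈ Finset.range q, volume (I j) :=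
    measure_biUnion_finset hdisj (fun j _ => measurableSet_Ioo)
  have hle : volume (⋃ j ∈ Finset.range q, I j) ≤ volume (Ioc (-1 : ℝ) 1) :=
    measure_mono (Set.iUnion₂_subset fun j _ => hI j)
  have hv : ∀ j, volume (I j) = ENNReal.ofReal (f^[j] z - f^[j] y) := by
    intro j
    simp only [I, Real.volume_Ioo]
    congr 1
    ring
  rw [hvol, Real.volume_Ioc] at hle
  simp only [hv] at hle
  rw [← ENNReal.ofReal_sum_of_nonneg] at hle
  · rw [ENNReal.ofReal_le_ofReal_iff (by norm_num)] at hle
    linarith
  · intro j _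
    have := (d3_mono h j).monotone hyz.le
    linarith

end Pool.Agent.Helper2.LM
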