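import Pool.Agent.Helper2.LM.Defs

open Set MeasureTheory Filter Topology Metric

namespace Pool.Agent.Helper2.LM

private theorem hasDerivAt_iter {f : ℝ → ℝ} (hf : Differentiable ℝ f) (q : ℕ) (u : ℝ) :
    HasDerivAt f^[q] (∏ j ∈ Finset.range q, deriv f (f^[j] u)) u := by
  induction q with
  | zero => simpa using hasDerivAt_id u
  | succ q ih =>
    rw [Finset.prod_range_succ, Function.iterate_succ', mul_comm]
    exact (hf (f^[q] u)).hasDerivAt.comp u ih

/-- Proof: log (deriv f) is `C¹` and 1-periodic, so Lipschitz with some constant K; by the chain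
rule deriv f^[q] u = ∏ deriv f (f^[j] u), and |f^[j] u - f^[j] v| ≤ f^[j] z - f^[j] y. -/
theorem distortion {f g : ℝ → ℝ} {α : ℝ} (h : CDiff f g α) :
    ∃ K : ℝ, 0 ≤ K ∧ ∀ (q : ℕ) (y z : ℝ), y ≤ z →
      ∑ j ∈ Finset.range q, (f^[j] z - f^[j] y) ≤ 2 →
      ∀ u ∈ Icc y z, ∀ v ∈ Icc y z, deriv f^[q] u ≤ Real.exp (2 * K) * deriv f^[q] v := by
  have hd : Differentiable ℝ f := h.f2.differentiable (by norm_num)
  have hd1 : ContDiff ℝ 1 (deriv f) := by
    have h2 : ContDiff ℝ (1 + 1) f := by
      have h3 := h.f2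
      norm_num
      exact h3
    exact h2.deriv'
  have hmono : StrictMono f := strictMono_of_deriv_pos h.pos
  set L : ℝ → ℝ := fun x => Real.log (deriv f x) with hL
  have hL1 : ContDiff ℝ 1 L := hd1.log fun x => (h.pos x).ne'
  have hper : Function.Periodic (deriv f) 1 := by
    intro x
    have h1 : deriv (fun y => f (y + 1)) x = deriv f (x + 1) := deriv_comp_add_const f 1 x
    have h2 : (fun y => f (y + 1)) = fun y => f y + 1 := funext h.add
    rw [h2, deriv_add_const] at h1
    exact h1.symm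
  have hLper : Function.Periodic L 1 := by
    intro x
    simp only [hL]
    rw [hper x]
  have hdLper : Function.Periodic (deriv L) 1 := by
    intro x
    have h1 : deriv (fun y => L (y + 1)) x = deriv L (x + 1) := deriv_comp_add_const L 1 x
    have h2 : (fun y => L (y + 1)) = L := funext hLper
    rw [h2] at h1
    exact h1.symm
  have hdLc : Continuous (deriv L) := hL1.continuous_deriv le_rfl
  have hb := hdLper.isBounded_of_continuous one_ne_zero hdLc
  obtain ⟨K, hK⟩ := hb.exists_norm_le
  have hK' : ∀ x, ‖deriv L x‖ ≤ K := fun x => hK _ (mem_range_self x)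
  have hK0 : 0 ≤ K := (norm_nonneg _).trans (hK' 0)
  have hLip : ∀ a b : ℝ, L a - L b ≤ K * |a - b| := by
    intro a b
    have h1 := Convex.norm_image_sub_le_of_norm_deriv_le (f := L) (s := univ) (C := K)
      (fun x _ => (hL1.differentiable (by norm_num)) x) (fun x _ => hK' x) convex_univ
      (mem_univ b) (mem_univ a)
    rw [Real.norm_eq_abs, Real.norm_eq_abs] at h1
    exact (le_abs_self _).trans h1
  refine ⟨K, hK0, ?_⟩
  intro q y z hyz hsum u hu v hv
  rw [(hasDerivAt_iter hd q u).deriv, (hasDerivAt_iter hd q v).deriv]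
  have hexp : ∀ w : ℝ, ∏ j ∈ Finset.range q, deriv f (f^[j] w) =
      Real.exp (∑ j ∈ Finset.range q, L (f^[j] w)) := by
    intro w
    rw [Real.exp_sum]
    exact Finset.prod_congr rfl fun j _ => (Real.exp_log (h.pos _)).symm
  rw [hexp, hexp, ← Real.exp_add, Real.exp_le_exp]
  have hterm : ∀ j ∈ Finset.range q, L (f^[j] u) - L (f^[j] v) ≤ K * (f^[j] z - f^[j] y) := by
    intro j _
    have hm : Monotone f^[j] := hmono.monotone.iterate j
    refine (hLip _ _).trans (mul_le_mul_of_nonneg_left ?_ hK0)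
    have h1 := hm hu.1
    have h2 := hm hu.2
    have h3 := hm hv.1
    have h4 := hm hv.2
    rw [abs_le]
    constructor <;> linarith
  have hs := Finset.sum_le_sum hterm
  rw [Finset.sum_sub_distrib, ← Finset.mul_sum] at hs
  have h5 : K * ∑ j ∈ Finset.range q, (f^[j] z - f^[j] y) ≤ K * 2 :=
    mul_le_mul_of_nonneg_left hsum hK0
  linarith

end Pool.Agent.Helper2.LM
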