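import Pool.Agent.Helper2.LM.D1
import Pool.Agent.Helper2.LM.D3
import Pool.Agent.Helper2.LM.D4

open Set MeasureTheory Filter Topology Metric

namespace Pool.Agent.Helper2.LM

/-! ### disjoint intervals -/

private lemma d5_sum_le_two {N : ℕ} {l r : ℕ → ℝ} (hlr : ∀ n, l n ≤ r n)
    (h0 : ∀ n, 0 ≤ l n) (h2 : ∀ n, r n ≤ 2)
    (hd : ∀ i j : ℕ, i ≠ j → Disjoint (Ioo (l i) (r i)) (Ioo (l j) (r j))) :
    ∑ n ∈ Finset.range N, (r n - l n) ≤ 2 := by
  have h1 : volume (⋃ n ∈ Finset.range N, Ioo (l n) (r n)) =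
      ∑ n ∈ Finset.range N, volume (Ioo (l n) (r n)) :=
    measure_biUnion_finset (fun i _ j _ hij => hd i j hij) (fun i _ => measurableSet_Ioo)
  have h3 : volume (⋃ n ∈ Finset.range N, Ioo (l n) (r n)) ≤ volume (Icc (0 : ℝ) 2) := by
    apply measure_mono
    intro x hx
    simp only [mem_iUnion] at hx
    obtain ⟨n, _, hx⟩ := hx
    exact ⟨(h0 n).trans hx.1.le, hx.2.le.trans (h2 n)⟩
  rw [h1] at h3
  simp only [Real.volume_Ioo, Real.volume_Icc] at h3
  rw [← ENNReal.ofReal_sum_of_nonneg (fun i _ => sub_nonneg.2 (hlr i))] at h3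
  have := (ENNReal.ofReal_le_ofReal_iff (by norm_num : (0 : ℝ) ≤ 2 - 0)).1 h3
  linarith

private lemma d5_tendsto {l r : ℕ → ℝ} (hlr : ∀ n, l n < r n)
    (hd : ∀ (i j : ℕ) (m k : ℤ), ¬ (i = j ∧ m = k) →
      Disjoint (Ioo (l i + m) (r i + m)) (Ioo (l j + k) (r j + k))) :
    Tendsto (fun n => r n - l n) atTop (𝓝 0) := by
  have hone : ∀ n, r n ≤ l n + 1 := by
    intro n
    by_contra hcon
    push Not at hcon
    have := hd n n 0 1 (by simp)
    rw [Set.disjoint_left] at this
    apply this (a := l n + 1 + min (r n - (l n + 1)) (r n - l n) / 2)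
    · simp only [Int.cast_zero, add_zero]
      have h1 : 0 < min (r n - (l n + 1)) (r n - l n) := lt_min (by linarith) (by linarith)
      have h2 : min (r n - (l n + 1)) (r n - l n) ≤ r n - (l n + 1) := min_le_left _ _
      constructor <;> linarith
    · simp only [Int.cast_one]
      have h1 : 0 < min (r n - (l n + 1)) (r n - l n) := lt_min (by linarith) (by linarith)
      have h2 : min (r n - (l n + 1)) (r n - l n) ≤ r n - (l n + 1) := min_le_left _ _
      constructor <;> linarith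
  have hsum : ∀ N, ∑ n ∈ Finset.range N, (r n - l n) ≤ 2 := by
    intro N
    have := d5_sum_le_two (N := N) (l := fun n => l n + ((-⌊l n⌋ : ℤ) : ℝ))
      (r := fun n => r n + ((-⌊l n⌋ : ℤ) : ℝ)) (fun n => by have := hlr n; linarith)
      (fun n => by
        push_cast
        have := Int.floor_le (l n)
        linarith)
      (fun n => by
        push_cast
        have := Int.lt_floor_add_one (l n)
        have := hone n
        linarith)
      (fun i j hij => hd i j _ _ (fun h => hij h.1))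
    simpa using this
  have hsummable : Summable (fun n => r n - l n) :=
    summable_of_sum_range_le (fun n => sub_nonneg.2 (hlr n).le) hsum
  exact hsummable.tendsto_atTop_zero

/-! ### elementary properties of the iterates -/

private lemma d5_f_mono {f g : ℝ → ℝ} {α : ℝ} (h : CDiff f g α) : StrictMono f :=
  strictMono_of_deriv_pos h.pos

private lemma d5_g_mono {f g : ℝ → ℝ} {α : ℝ} (h : CDiff f g α) : StrictMono g := by
  intro x y hxy
  by_contra hcon
  push Not at hcon
  have := (d5_f_mono h).monotone hcon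
  rw [h.fg, h.fg] at this
  linarith

private lemma d5_g_cont {f g : ℝ → ℝ} {α : ℝ} (h : CDiff f g α) : Continuous g :=
  (d5_g_mono h).monotone.continuous_of_surjective (fun x => ⟨f x, h.gf x⟩)

private lemma d5_fg_iter {f g : ℝ → ℝ} {α : ℝ} (h : CDiff f g α) (n : ℕ) (x : ℝ) :
    f^[n] (g^[n] x) = x :=
  Function.LeftInverse.iterate (h.fg : Function.LeftInverse f g) n x

private lemma d5_gf_iter {f g : ℝ → ℝ} {α : ℝ} (h : CDiff f g α) (n : ℕ) (x : ℝ) :
    g^[n] (f^[n] x) = x :=
  Function.LeftInverse.iterate (h.gf : Function.LeftInverse g f) n x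

private lemma d5_add_int {u : ℝ → ℝ} (hu : ∀ x, u (x + 1) = u x + 1) (m : ℤ) (x : ℝ) :
    u (x + m) = u x + m := by
  have hnat : ∀ (k : ℕ) (x : ℝ), u (x + k) = u x + k := by
    intro k
    induction k with
    | zero => intro x; simp
    | succ k ih =>
      intro x
      push_cast
      rw [← add_assoc, hu, ih]
      ring
  rcases Int.eq_nat_or_neg m with ⟨k, rfl | rfl⟩
  · exact_mod_cast hnat k x
  · have := hnat k (x + ((-(k : ℤ) : ℤ) : ℝ))
    push_cast at this ⊢
    rw [neg_add_cancel_right] at this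
    linarith

private lemma d5_iter_add {u : ℝ → ℝ} (hu : ∀ x, u (x + 1) = u x + 1) (n : ℕ) (x : ℝ) :
    u^[n] (x + 1) = u^[n] x + 1 := by
  induction n generalizing x with
  | zero => rfl
  | succ n ih => rw [Function.iterate_succ_apply, Function.iterate_succ_apply, hu, ih]

private lemma d5_g_add {f g : ℝ → ℝ} {α : ℝ} (h : CDiff f g α) (x : ℝ) :
    g (x + 1) = g x + 1 := by
  apply (d5_f_mono h).injective
  rw [h.fg, h.add, h.fg]

private lemma d5_deriv_iter {f g : ℝ → ℝ} {α : ℝ} (h : CDiff f g α) (n : ℕ) :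
    Differentiable ℝ f^[n] ∧ ∀ x, 0 < deriv f^[n] x := by
  have hf : Differentiable ℝ f := h.f2.differentiable (by norm_num)
  induction n with
  | zero =>
    refine ⟨differentiable_id, fun x => ?_⟩
    rw [Function.iterate_zero]
    simp
  | succ n ih =>
    refine ⟨?_, fun x => ?_⟩
    · rw [Function.iterate_succ]
      exact ih.1.comp hf
    · rw [Function.iterate_succ, deriv_comp x (ih.1 (f x)) (hf x)]
      exact mul_pos (ih.2 _) (h.pos x)

private lemma d5_g_deriv {f g : ℝ → ℝ} {α : ℝ} (h : CDiff f g α) (n : ℕ) (x : ℝ) :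
    HasDerivAt g^[n] (deriv f^[n] (g^[n] x))⁻¹ x :=
  HasDerivAt.of_local_left_inverse ((d5_g_cont h).iterate n).continuousAt
    (((d5_deriv_iter h n).1 _).hasDerivAt) ((d5_deriv_iter h n).2 _).ne'
    (Eventually.of_forall (fun y => d5_fg_iter h n y))

private lemma d5_deriv_add {f g : ℝ → ℝ} {α : ℝ} (h : CDiff f g α) (n : ℕ) (p : ℤ) (x : ℝ) :
    deriv f^[n] (x + p) = deriv f^[n] x := by
  rw [← deriv_comp_add_const]
  have : (fun x => f^[n] (x + p)) = fun x => f^[n] x + p := by
    funext y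
    exact d5_add_int (d5_iter_add h.add n) p y
  rw [this, deriv_add_const]

private lemma d5_disj_image {u : ℝ → ℝ} (hu : StrictMono u) {a b c d : ℝ}
    (hd : Disjoint (Ioo (u a) (u b)) (Ioo (u c) (u d))) : Disjoint (Ioo a b) (Ioo c d) := by
  rw [Set.disjoint_left] at hd ⊢
  intro x hx hx'
  exact hd ⟨hu hx.1, hu hx.2⟩ ⟨hu hx'.1, hu hx'.2⟩

private lemma d5_shift {a b c d : ℝ} (t : ℝ)
    (hd : Disjoint (Ioo (a + t) (b + t)) (Ioo (c + t) (d + t))) : Disjoint (Ioo a b) (Ioo c d) := by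
  rw [Set.disjoint_left] at hd ⊢
  intro x hx hx'
  exact hd (a := x + t) ⟨by linarith [hx.1], by linarith [hx.2]⟩
    ⟨by linarith [hx'.1], by linarith [hx'.2]⟩

/-- disjointness of the forward images -/
private lemma d5_disj_f {f g : ℝ → ℝ} {α : ℝ} (h : CDiff f g α) {a b : ℝ}
    (hw : ∀ (n : ℕ) (m : ℤ), ¬ (n = 0 ∧ m = 0) →
      Disjoint (Ioo (f^[n] a + m) (f^[n] b + m)) (Ioo a b))
    (i j : ℕ) (m k : ℤ) (hne : ¬ (i = j ∧ m = k)) :
    Disjoint (Ioo (f^[i] a + m) (f^[i] b + m)) (Ioo (f^[j] a + k) (f^[j] b + k)) := by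
  wlog hij : i ≤ j generalizing i j m k with H
  · exact (H j i k m (fun hh => hne ⟨hh.1.symm, hh.2.symm⟩) (by omega)).symm
  obtain ⟨d, rfl⟩ := Nat.exists_eq_add_of_le hij
  have h1 := hw d (k - m) (fun hh => hne ⟨by omega, by omega⟩)
  have hg : StrictMono g^[i] := (d5_g_mono h).iterate i
  have hadd : ∀ (m : ℤ) (x : ℝ), g^[i] (x + m) = g^[i] x + m :=
    d5_add_int (d5_iter_add (d5_g_add h) i)
  apply d5_disj_image hg
  rw [hadd, hadd, hadd, hadd, Function.iterate_add_apply, Function.iterate_add_apply,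
    d5_gf_iter h, d5_gf_iter h, d5_gf_iter h, d5_gf_iter h]
  apply d5_shift (-(m : ℝ))
  have e : ∀ x : ℝ, x + (k : ℝ) + -(m : ℝ) = x + ((k - m : ℤ) : ℝ) := by
    intro x
    push_cast
    ring
  rw [e, e, add_neg_cancel_right, add_neg_cancel_right]
  exact h1.symm

/-- disjointness of the backward images -/
private lemma d5_disj_g {f g : ℝ → ℝ} {α : ℝ} (h : CDiff f g α) {a b : ℝ}
    (hw : ∀ (n : ℕ) (m : ℤ), ¬ (n = 0 ∧ m = 0) →
      Disjoint (Ioo (f^[n] a + m) (f^[n] b + m)) (Ioo a b))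
    (i j : ℕ) (m k : ℤ) (hne : ¬ (i = j ∧ m = k)) :
    Disjoint (Ioo (g^[i] a + m) (g^[i] b + m)) (Ioo (g^[j] a + k) (g^[j] b + k)) := by
  wlog hij : i ≤ j generalizing i j m k with H
  · exact (H j i k m (fun hh => hne ⟨hh.1.symm, hh.2.symm⟩) (by omega)).symm
  obtain ⟨d, rfl⟩ := Nat.exists_eq_add_of_le hij
  have h1 := hw d (m - k) (fun hh => hne ⟨by omega, by omega⟩)
  have hf : StrictMono f^[i + d] := (d5_f_mono h).iterate _
  have hadd : ∀ (m : ℤ) (x : ℝ), f^[i + d] (x + m) = f^[i + d] x + m :=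
    d5_add_int (d5_iter_add h.add _)
  apply d5_disj_image hf
  have e1 : ∀ x, f^[i + d] (g^[i] x) = f^[d] x := by
    intro x
    rw [add_comm i d, Function.iterate_add_apply, d5_fg_iter h]
  rw [hadd, hadd, hadd, hadd, e1, e1, d5_fg_iter h, d5_fg_iter h]
  apply d5_shift (-(k : ℝ))
  have e : ∀ x : ℝ, x + (m : ℝ) + -(k : ℝ) = x + ((m - k : ℤ) : ℝ) := by
    intro x
    push_cast
    ring
  rw [e, e, add_neg_cancel_right, add_neg_cancel_right]
  exact h1

/-- Denjoy: no wandering interval. Proof. Let I = (a, b). By `hw` (and applying g^n) the intervals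
f^n I + m (n : ℕ, m : ℤ) are pairwise disjoint, and so are the intervals g^n I + m; so
∑ |f^n I| and ∑ |g^n I| converge (same argument as in `sum_le`), and |f^n I|, |g^n I| → 0.
For a best q (arbitrarily large by exists_odd_best, with error < 1) and x in I put
y = g^[q] x + p, so x = f^[q] y - p. By sum_le for the interval between x and y and `distortion`,
deriv f^[q] x ≥ exp (-2K) deriv f^[q] y, and deriv g^[q] x = 1 / deriv f^[q] (g^[q] x) =
1 / deriv f^[q] y. So deriv f^[q] x * deriv g^[q] x ≥ exp (-2K), hence the sum of the two is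
≥ 2 exp (-K), and integrating over I: |f^q I| + |g^q I| ≥ 2 exp (-K) |I|. Contradiction. -/
theorem no_wandering {f g : ℝ → ℝ} {α : ℝ} (h : CDiff f g α) {a b : ℝ} (hab : a < b)
    (hw : ∀ (n : ℕ) (m : ℤ), ¬ (n = 0 ∧ m = 0) →
      Disjoint (Ioo (f^[n] a + m) (f^[n] b + m)) (Ioo a b)) : False := by
  obtain ⟨K, hK, hdist⟩ := distortion h
  have hfm := d5_f_mono h
  have hgm := d5_g_mono h
  have htf : Tendsto (fun n => f^[n] b - f^[n] a) atTop (𝓝 0) :=
    d5_tendsto (fun n => hfm.iterate n hab) (d5_disj_f h hw)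
  have htg : Tendsto (fun n => g^[n] b - g^[n] a) atTop (𝓝 0) :=
    d5_tendsto (fun n => hgm.iterate n hab) (d5_disj_g h hw)
  have hε : 0 < Real.exp (-K) * (b - a) := mul_pos (Real.exp_pos _) (sub_pos.2 hab)
  have hev := (htf.eventually (gt_mem_nhds hε)).and (htg.eventually (gt_mem_nhds hε))
  obtain ⟨N, hN⟩ := eventually_atTop.1 hev
  obtain ⟨q, p, hNq, -, hbest, herr⟩ := exists_odd_best h.irr one_pos N
  have hq := hN q hNq.le
  -- the derivative estimate
  have key : ∀ x, 2 * Real.exp (-K) ≤ deriv f^[q] x + (deriv f^[q] (g^[q] x))⁻¹ := by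
    intro x
    set y : ℝ := g^[q] x + p with hy
    have hxy : x = f^[q] y - p := by
      rw [hy, d5_add_int (d5_iter_add h.add q), d5_fg_iter h]
      ring
    have hd1 : deriv f^[q] y = deriv f^[q] (g^[q] x) := d5_deriv_add h q p _
    have hpos1 := (d5_deriv_iter h q).2 x
    have hpos2 := (d5_deriv_iter h q).2 (g^[q] x)
    have hle : deriv f^[q] (g^[q] x) ≤ Real.exp (2 * K) * deriv f^[q] x := by
      rw [← hd1]
      rcases lt_trichotomy x y with hlt | heq | hgt
      · exact hdist q x y hlt.le (sum_le h hbest herr hlt (Or.inr hxy)) y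
          (right_mem_Icc.2 hlt.le) x (left_mem_Icc.2 hlt.le)
      · rw [← heq]
        have h1 : (1 : ℝ) ≤ Real.exp (2 * K) := Real.one_le_exp (by linarith)
        nlinarith
      · exact hdist q y x hgt.le (sum_le h hbest herr hgt (Or.inl hxy)) y
          (left_mem_Icc.2 hgt.le) x (right_mem_Icc.2 hgt.le)
    set A := deriv f^[q] x
    set B := deriv f^[q] (g^[q] x)
    have hE : Real.exp (2 * K) = (Real.exp (-K))⁻¹ ^ 2 := by
      rw [← Real.exp_neg, neg_neg, ← Real.exp_nat_mul]
      norm_num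
    set E := Real.exp (-K) with hEdef
    have hEpos : 0 < E := Real.exp_pos _
    rw [hE] at hle
    have h3 : E ^ 2 * B ≤ A := by
      have : E ^ 2 * B ≤ E ^ 2 * (E⁻¹ ^ 2 * A) := mul_le_mul_of_nonneg_left hle (by positivity)
      have e : E ^ 2 * (E⁻¹ ^ 2 * A) = A := by
        field_simp
      linarith
    have h4 : 2 * E ≤ E ^ 2 * B + B⁻¹ := by
      have : 0 ≤ (E * B - 1) ^ 2 * B⁻¹ := by positivity
      have e : (E * B - 1) ^ 2 * B⁻¹ = E ^ 2 * B + B⁻¹ - 2 * E := by
        field_simp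
        ring
      linarith
    linarith
  -- integrate
  have hmono : MonotoneOn (fun x => f^[q] x + g^[q] x - 2 * Real.exp (-K) * x) (Icc a b) := by
    have hder : ∀ x, HasDerivAt (fun x => f^[q] x + g^[q] x - 2 * Real.exp (-K) * x)
        (deriv f^[q] x + (deriv f^[q] (g^[q] x))⁻¹ - 2 * Real.exp (-K)) x := by
      intro x
      have h1 := ((d5_deriv_iter h q).1 x).hasDerivAt
      have h2 := d5_g_deriv h q x
      have h3 : HasDerivAt (fun x : ℝ => 2 * Real.exp (-K) * x) (2 * Real.exp (-K)) x := by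
        simpa using (hasDerivAt_id x).const_mul (2 * Real.exp (-K))
      exact (h1.add h2).sub h3
    apply monotoneOn_of_deriv_nonneg (convex_Icc a b)
    · exact fun x _ => (hder x).continuousAt.continuousWithinAt
    · exact fun x _ => (hder x).differentiableAt.differentiableWithinAt
    · intro x _
      rw [(hder x).deriv]
      linarith [key x]
  have := hmono (left_mem_Icc.2 hab.le) (right_mem_Icc.2 hab.le) hab.le
  simp only at this
  have h1 := hq.1
  have h2 := hq.2
  nlinarith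

end Pool.Agent.Helper2.LM
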