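import Pool.Agent.Helper2.LM.D5

/-!
# Small rotation means small displacement
-/

open Set MeasureTheory Filter Topology Metric

namespace Pool.Agent.Helper2.LM

namespace CDiff

variable {f g : ℝ → ℝ} {α : ℝ}

theorem mono (h : CDiff f g α) : StrictMono f := strictMono_of_deriv_pos h.pos

theorem gmono (h : CDiff f g α) : StrictMono g := by
  intro x y hxy
  rw [← h.mono.lt_iff_lt, h.fg, h.fg]
  exact hxy

theorem add_int (h : CDiff f g α) (x : ℝ) (m : ℤ) : f (x + m) = f x + m := by
  induction m using Int.induction_on generalizing x with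
  | zero => simp
  | succ n ih =>
    have e : x + ((n + 1 : ℤ) : ℝ) = x + (n : ℤ) + 1 := by push_cast; ring
    rw [e, h.add, ih]; push_cast; ring
  | pred n ih =>
    have e : x + ((-n - 1 : ℤ) : ℝ) + 1 = x + ((-n : ℤ) : ℝ) := by push_cast; ring
    have := h.add (x + ((-n - 1 : ℤ) : ℝ))
    rw [e, ih] at this
    push_cast at this ⊢
    linarith

theorem gadd_int (h : CDiff f g α) (x : ℝ) (m : ℤ) : g (x + m) = g x + m := by
  apply h.mono.injective
  rw [h.fg, h.add_int, h.fg]

theorem iter_add (h : CDiff f g α) (n : ℕ) (x : ℝ) (m : ℤ) : f^[n] (x + m) = f^[n] x + m := by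
  induction n generalizing x with
  | zero => rfl
  | succ n ih => rw [Function.iterate_succ_apply, Function.iterate_succ_apply, h.add_int, ih]

theorem giter_add (h : CDiff f g α) (n : ℕ) (x : ℝ) (m : ℤ) : g^[n] (x + m) = g^[n] x + m := by
  induction n generalizing x with
  | zero => rfl
  | succ n ih => rw [Function.iterate_succ_apply, Function.iterate_succ_apply, h.gadd_int, ih]

theorem fg_iter (h : CDiff f g α) (n : ℕ) (x : ℝ) : f^[n] (g^[n] x) = x :=
  Function.LeftInverse.iterate (g := f) (f := g) h.fg n x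

theorem gf_iter (h : CDiff f g α) (n : ℕ) (x : ℝ) : g^[n] (f^[n] x) = x :=
  Function.LeftInverse.iterate (g := g) (f := f) h.gf n x

theorem iter_mono (h : CDiff f g α) (n : ℕ) : StrictMono f^[n] := h.mono.iterate n

theorem cmp1 (h : CDiff f g α) {n n' : ℕ} {m m' : ℤ} (z : ℝ)
    (hlt : (n : ℝ) * α + m < n' * α + m') : f^[n] z + m < f^[n'] z + m' := by
  rcases le_total n' n with hn | hn
  · obtain ⟨k, rfl⟩ := Nat.exists_eq_add_of_le hn
    have h1 : (k : ℝ) * α < ((m' - m : ℤ) : ℝ) := by push_cast at hlt ⊢; linarith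
    have h2 := h.lt k (m' - m) (f^[n'] z) h1
    rw [← Function.iterate_add_apply, add_comm k n'] at h2
    push_cast at h2
    linarith
  · obtain ⟨k, rfl⟩ := Nat.exists_eq_add_of_le hn
    have h1 : ((m - m' : ℤ) : ℝ) < (k : ℝ) * α := by push_cast at hlt ⊢; linarith
    have h2 := h.gt k (m - m') (f^[n] z) h1
    rw [← Function.iterate_add_apply, add_comm k n] at h2
    push_cast at h2
    linarith

theorem cmp (h : CDiff f g α) {a b a' b' : ℕ} {m m' : ℤ} (z : ℝ)
    (hlt : ((b : ℝ) - a) * α + m < ((b' : ℝ) - a') * α + m') :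
    g^[a] (f^[b] z) + m < g^[a'] (f^[b'] z) + m' := by
  rw [← (h.iter_mono (a + a')).lt_iff_lt, h.iter_add, h.iter_add]
  have e1 : f^[a + a'] (g^[a] (f^[b] z)) = f^[a' + b] z := by
    rw [add_comm a a', Function.iterate_add_apply, h.fg_iter, ← Function.iterate_add_apply]
  have e2 : f^[a + a'] (g^[a'] (f^[b'] z)) = f^[a + b'] z := by
    rw [Function.iterate_add_apply, h.fg_iter, ← Function.iterate_add_apply]
  rw [e1, e2]
  apply h.cmp1
  push_cast
  linarith

theorem ne (h : CDiff f g α) {n : ℕ} {m : ℤ} (hnm : ¬ (n = 0 ∧ m = 0)) :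
    (n : ℝ) * α + m ≠ 0 := by
  intro h0
  rcases Nat.eq_zero_or_pos n with hn | hn
  · subst hn
    simp only [CharP.cast_eq_zero, zero_mul, zero_add, Int.cast_eq_zero] at h0
    exact hnm ⟨rfl, h0⟩
  · apply h.irr
    refine ⟨-(m : ℚ) / n, ?_⟩
    have : (n : ℝ) ≠ 0 := by positivity
    push_cast
    field_simp
    linarith

end CDiff

theorem exists_pos {f g : ℝ → ℝ} {α : ℝ} (h : CDiff f g α) (z : ℝ) {ε : ℝ} (hε : 0 < ε) :
    ∃ (a b : ℕ) (m : ℤ), z < g^[a] (f^[b] z) + m ∧ g^[a] (f^[b] z) + m < z + ε := by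
  by_contra hcon
  push Not at hcon
  refine no_wandering h (a := z) (b := z + ε) (by linarith) fun n m hnm => ?_
  rcases lt_or_gt_of_ne (h.ne hnm) with hlt | hgt
  · have h1 : z < g^[n] (f^[0] z) + ((-m : ℤ) : ℝ) := by
      have := h.cmp (a := 0) (b := 0) (a' := n) (b' := 0) (m := 0) (m' := -m) z
        (by push_cast; linarith)
      simpa using this
    have h2 := hcon _ _ _ h1
    have h3 : f^[n] (z + ε) ≤ f^[n] (g^[n] (f^[0] z) + ((-m : ℤ) : ℝ)) :=
      (h.iter_mono n).monotone h2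
    rw [h.iter_add, h.fg_iter] at h3
    simp only [Function.iterate_zero, id_eq, Int.cast_neg] at h3
    rw [Set.disjoint_left]
    rintro x ⟨hx1, hx2⟩ ⟨hx3, hx4⟩
    linarith
  · have h1 : z < g^[0] (f^[n] z) + (m : ℝ) := by
      have := h.cmp (a := 0) (b := 0) (a' := 0) (b' := n) (m := 0) (m' := m) z
        (by push_cast; linarith)
      simpa using this
    have h2 := hcon _ _ _ h1
    simp only [Function.iterate_zero, id_eq] at h2
    rw [Set.disjoint_left]
    rintro x ⟨hx1, hx2⟩ ⟨hx3, hx4⟩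
    linarith

theorem exists_neg {f g : ℝ → ℝ} {α : ℝ} (h : CDiff f g α) (z : ℝ) {ε : ℝ} (hε : 0 < ε) :
    ∃ (a b : ℕ) (m : ℤ), g^[a] (f^[b] z) + m < z ∧ z - ε < g^[a] (f^[b] z) + m := by
  by_contra hcon
  push Not at hcon
  refine no_wandering h (a := z - ε) (b := z) (by linarith) fun n m hnm => ?_
  rcases lt_or_gt_of_ne (h.ne hnm) with hlt | hgt
  · have h1 : g^[0] (f^[n] z) + (m : ℝ) < z := by
      have := h.cmp (a := 0) (b := n) (a' := 0) (b' := 0) (m := m) (m' := 0) z
        (by push_cast; linarith)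
      simpa using this
    have h2 := hcon _ _ _ h1
    simp only [Function.iterate_zero, id_eq] at h2
    rw [Set.disjoint_left]
    rintro x ⟨hx1, hx2⟩ ⟨hx3, hx4⟩
    linarith
  · have h1 : g^[n] (f^[0] z) + ((-m : ℤ) : ℝ) < z := by
      have := h.cmp (a := n) (b := 0) (a' := 0) (b' := 0) (m := -m) (m' := 0) z
        (by push_cast; linarith)
      simpa using this
    have h2 := hcon _ _ _ h1
    have h3 : f^[n] (g^[n] (f^[0] z) + ((-m : ℤ) : ℝ)) ≤ f^[n] (z - ε) :=
      (h.iter_mono n).monotone h2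
    rw [h.iter_add, h.fg_iter] at h3
    simp only [Function.iterate_zero, id_eq, Int.cast_neg] at h3
    rw [Set.disjoint_left]
    rintro x ⟨hx1, hx2⟩ ⟨hx3, hx4⟩
    linarith

/-- Small rotation means small displacement. -/
theorem shrink {f g : ℝ → ℝ} {α : ℝ} (h : CDiff f g α) (z : ℝ) {ε : ℝ} (hε : 0 < ε) :
    ∃ δ > 0, ∀ (n : ℕ) (m : ℤ), |(n : ℝ) * α - m| < δ →
      |f^[n] z - m - z| < ε ∧ |g^[n] z + m - z| < ε := by
  obtain ⟨a, b, m₁, h1, h2⟩ := exists_pos h z hε
  obtain ⟨a', b', m₂, h3, h4⟩ := exists_neg h z hε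
  have p1 : 0 < ((b : ℝ) - a) * α + m₁ := by
    by_contra hcon
    have hne : ((b : ℝ) - a) * α + m₁ ≠ 0 ∨ (b = a ∧ m₁ = 0) := by
      by_cases hba : b = a
      · subst hba
        by_cases hm : m₁ = 0
        · exact Or.inr ⟨rfl, hm⟩
        · left
          simpa using hm
      · left
        intro h0
        apply h.irr
        have : ((b : ℝ) - a) ≠ 0 := sub_ne_zero.2 (by exact_mod_cast hba)
        refine ⟨-(m₁ : ℚ) / (b - a), ?_⟩
        push_cast
        field_simp
        linarith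
    rcases hne with hne | ⟨rfl, rfl⟩
    · have hlt : ((b : ℝ) - a) * α + m₁ < ((0 : ℕ) - (0 : ℕ)) * α + ((0 : ℤ) : ℝ) := by
        push_cast
        simpa using lt_of_le_of_ne (not_lt.1 hcon) hne
      have := h.cmp z hlt
      simp at this
      linarith
    · rw [h.gf_iter] at h1
      simp at h1
  have p2 : ((b' : ℝ) - a') * α + m₂ < 0 := by
    by_contra hcon
    have hne : ((b' : ℝ) - a') * α + m₂ ≠ 0 ∨ (b' = a' ∧ m₂ = 0) := by
      by_cases hba : b' = a'
      · subst hba
        by_cases hm : m₂ = 0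
        · exact Or.inr ⟨rfl, hm⟩
        · left
          simpa using hm
      · left
        intro h0
        apply h.irr
        have : ((b' : ℝ) - a') ≠ 0 := sub_ne_zero.2 (by exact_mod_cast hba)
        refine ⟨-(m₂ : ℚ) / (b' - a'), ?_⟩
        push_cast
        field_simp
        linarith
    rcases hne with hne | ⟨rfl, rfl⟩
    · have hlt : ((0 : ℕ) - (0 : ℕ)) * α + ((0 : ℤ) : ℝ) < ((b' : ℝ) - a') * α + m₂ := by
        push_cast
        simpa using lt_of_le_of_ne (not_lt.1 hcon) hne.symm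
      have := h.cmp z hlt
      simp at this
      linarith
    · rw [h.gf_iter] at h3
      simp at h3
  refine ⟨min (((b : ℝ) - a) * α + m₁) (-(((b' : ℝ) - a') * α + m₂)), lt_min p1 (by linarith),
    fun n m hnm => ?_⟩
  obtain ⟨q1, q2⟩ := lt_min_iff.1 hnm
  rw [abs_lt] at q1 q2
  have r1 := h.cmp (a := 0) (b := n) (a' := a) (b' := b) (m := -m) (m' := m₁) z
    (by push_cast; linarith)
  have r2 := h.cmp (a := a') (b := b') (a' := 0) (b' := n) (m := m₂) (m' := -m) z
    (by push_cast; linarith)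
  have r3 := h.cmp (a := n) (b := 0) (a' := a) (b' := b) (m := m) (m' := m₁) z
    (by push_cast; linarith)
  have r4 := h.cmp (a := a') (b := b') (a' := n) (b' := 0) (m := m₂) (m' := m) z
    (by push_cast; linarith)
  simp only [Function.iterate_zero, id_eq, Int.cast_neg] at r1 r2 r3 r4
  constructor <;> rw [abs_lt] <;> constructor <;> linarith

end Pool.Agent.Helper2.LM
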