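import Mathlib

/-!
# Definitions for measurable colourings that avoid a set of differences
-/

open Set MeasureTheory Filter Topology Metric

namespace Pool.Agent.Helper2.LM

/-- determinant of two plane vectors -/
def det2 (a b : ℝ × ℝ) : ℝ := a.1 * b.2 - a.2 * b.1

/-- the radius `2⁻ⁿ` -/
noncomputable def rad (n : ℕ) : ℝ := (1 / 2) ^ n

/-- the proportion of `A` in the (sup norm) ball of radius `2⁻ⁿ` around `x` -/
noncomputable def dens (A : Set (ℝ × ℝ)) (n : ℕ) (x : ℝ × ℝ) : ENNReal :=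
  volume (A ∩ closedBall x (rad n)) / volume (closedBall x (rad n))

/-- `x` is a (dyadic) density one point of `A` -/
def Dens1 (A : Set (ℝ × ℝ)) (x : ℝ × ℝ) : Prop :=
  Tendsto (fun n => dens A n x) atTop (𝓝 1)

/-- `x` is a (dyadic) density zero point of `A` -/
def Dens0 (A : Set (ℝ × ℝ)) (x : ℝ × ℝ) : Prop :=
  Tendsto (fun n => dens A n x) atTop (𝓝 0)

/-- four disjoint measurable sets, covering almost everything, none of which contains two points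
with difference in `D` -/
structure Avoid (D : Set (ℝ × ℝ)) (A : Fin 4 → Set (ℝ × ℝ)) : Prop where
  meas : ∀ i, MeasurableSet (A i)
  disj : ∀ i j, i ≠ j → Disjoint (A i) (A j)
  cover : ∀ᵐ x : ℝ × ℝ, ∃ i, x ∈ A i
  avoid : ∀ i, ∀ x ∈ A i, ∀ y ∈ A i, x - y ∉ D

/-- the points of density one for no class -/
def Mix (A : Fin 4 → Set (ℝ × ℝ)) : Set (ℝ × ℝ) := {x | ∀ i, ¬ Dens1 (A i) x}

/-- the geometric data: a curve `γ` in `D`, circle diffeomorphisms `T`, `ρ` (lifted to the line),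
the second curve is `w t = γ t + γ (T t)` -/
structure Config (D : Set (ℝ × ℝ)) (γ : ℝ → ℝ × ℝ) (T ρ : ℝ → ℝ) : Prop where
  γ_c : ContDiff ℝ 1 γ
  γ_per : ∀ t, γ (t + 1) = γ t
  γ_mem : ∀ t, γ t ∈ D
  T_c : ContDiff ℝ 1 T
  T_pos : ∀ t, 0 < deriv T t
  T_add : ∀ t, T (t + 1) = T t + 1
  γT : ∀ t, γ t - γ (T t) ∈ D
  ρ_c : ContDiff ℝ 2 ρ
  ρ_pos : ∀ t, 0 < deriv ρ t
  ρ_add : ∀ t, ρ (t + 1) = ρ t + 1
  wρ : ∀ t, (γ t + γ (T t)) - (γ (ρ t) + γ (T (ρ t))) ∈ D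
  dir : ∀ v : ℝ × ℝ, v ≠ 0 → ∀ᵐ t, det2 v (deriv γ t) ≠ 0
  ww : ∀ t, det2 (deriv (fun s => γ s + γ (T s)) t) (deriv (fun s => γ s + γ (T s)) (ρ t)) ≠ 0

/-- lift of a circle diffeomorphism of class `C²` with its inverse and irrational rotation
number `α` -/
structure CDiff (f g : ℝ → ℝ) (α : ℝ) : Prop where
  f2 : ContDiff ℝ 2 f
  pos : ∀ x, 0 < deriv f x
  add : ∀ x, f (x + 1) = f x + 1
  fg : ∀ x, f (g x) = x
  gf : ∀ x, g (f x) = x
  lt : ∀ (n : ℕ) (m : ℤ) (x : ℝ), (n : ℝ) * α < m → f^[n] x < x + m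
  gt : ∀ (n : ℕ) (m : ℤ) (x : ℝ), (m : ℝ) < n * α → x + m < f^[n] x
  irr : Irrational α

/-- `q` is the denominator of a best approximation of `α`, with numerator `p` -/
def Best (α : ℝ) (q : ℕ) (p : ℤ) : Prop :=
  1 ≤ q ∧ ∀ j : ℕ, 1 ≤ j → j < q → ∀ m : ℤ, |(q : ℝ) * α - p| < |(j : ℝ) * α - m|

/-- `p`-th power sum (the `p`-th power of the `l_p` norm) -/
noncomputable def hp (p : ℝ) (v : ℝ × ℝ) : ℝ := |v.1| ^ p + |v.2| ^ p

/-- odd power `|x|^(p-2) x` -/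
noncomputable def op (p x : ℝ) : ℝ := |x| ^ (p - 2) * x

/-- derivative of `hp p` at `v` in the direction `u` -/
noncomputable def Dhp (p : ℝ) (v u : ℝ × ℝ) : ℝ := p * (op p v.1 * u.1 + op p v.2 * u.2)

/-- Euclidean unit circle -/
noncomputable def ee (t : ℝ) : ℝ × ℝ := (Real.cos (2 * Real.pi * t), Real.sin (2 * Real.pi * t))

/-- derivative of `ee` -/
noncomputable def ee' (t : ℝ) : ℝ × ℝ :=
  (-(2 * Real.pi) * Real.sin (2 * Real.pi * t), 2 * Real.pi * Real.cos (2 * Real.pi * t))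

/-- the unit circle of the `l_p` norm, parametrised by the angle -/
noncomputable def gam (p t : ℝ) : ℝ × ℝ := (hp p (ee t)) ^ (-(1 / p)) • ee t

/-- a family of closed curves, jointly continuous with its derivative for `2 ≤ p < 2 + ε` -/
structure Curve (ε : ℝ) (c c' : ℝ → ℝ → ℝ × ℝ) : Prop where
  cont : ContinuousOn (fun z : ℝ × ℝ => c z.1 z.2) (Ico 2 (2 + ε) ×ˢ univ)
  cont' : ContinuousOn (fun z : ℝ × ℝ => c' z.1 z.2) (Ico 2 (2 + ε) ×ˢ univ)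
  der : ∀ p ∈ Ico 2 (2 + ε), ∀ t, HasDerivAt (c p) (c' p t) t
  c2 : ∀ p ∈ Ioo 2 (2 + ε), ContDiff ℝ 2 (c p)
  per : ∀ p ∈ Ico 2 (2 + ε), ∀ t, c p (t + 1) = c p t

end Pool.Agent.Helper2.LM
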