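import Pool.Agent.Helper2.LM.G1

open Set MeasureTheory Filter Topology Metric

namespace Pool.Agent.Helper2.LM

theorem tube_aux {Z : Type*} [TopologicalSpace Z] {ε : ℝ} (hε : 0 < ε) {Φ : ℝ × Z → ℝ} {K : Set Z}
    (hK : IsCompact K) (hΦ : ContinuousOn Φ (Ico 2 (2 + ε) ×ˢ K)) (h : ∀ z ∈ K, Φ (2, z) < 0) :
    ∃ ε' : ℝ, 0 < ε' ∧ ε' ≤ ε ∧ ∀ p ∈ Ico 2 (2 + ε'), ∀ z ∈ K, Φ (p, z) < 0 := by
  have h2 : (2 : ℝ) ∈ Ico 2 (2 + ε) := ⟨le_rfl, by linarith⟩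
  have hev : ∀ᶠ p in 𝓝 (2 : ℝ), ∀ z ∈ K, p ∈ Ico 2 (2 + ε) → z ∈ K → Φ (p, z) < 0 := by
    apply hK.eventually_forall_of_forall_eventually
    intro z hz
    have hc : ContinuousWithinAt Φ (Ico 2 (2 + ε) ×ˢ K) (2, z) := hΦ (2, z) ⟨h2, hz⟩
    have h1 : ∀ᶠ w in 𝓝[Ico 2 (2 + ε) ×ˢ K] ((2 : ℝ), z), Φ w < 0 :=
      hc.eventually_lt_const (h z hz)
    rw [eventually_nhdsWithin_iff] at h1
    filter_upwards [h1] with w hw h3 h4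
    exact hw ⟨h3, h4⟩
  obtain ⟨δ, hδ, hb⟩ := Metric.eventually_nhds_iff.mp hev
  refine ⟨min δ ε, lt_min hδ hε, min_le_right _ _, fun p hp z hz => ?_⟩
  have hp1 : p < 2 + δ := hp.2.trans_le (by linarith [min_le_left δ ε])
  have hp2 : p < 2 + ε := hp.2.trans_le (by linarith [min_le_right δ ε])
  refine hb ?_ z hz ⟨hp.1, hp2⟩ hz
  rw [Real.dist_eq, abs_of_nonneg (by linarith [hp.1])]
  linarith

theorem Curve.per_int {ε : ℝ} {c c' : ℝ → ℝ → ℝ × ℝ} (hc : Curve ε c c') {p : ℝ}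
    (hp : p ∈ Ico 2 (2 + ε)) (n : ℤ) (t : ℝ) : c p (t - n) = c p t := by
  have h : Function.Periodic (c p) 1 := fun t => hc.per p hp t
  exact h.sub_int_mul_eq n |> fun h' => by simpa using h'

theorem Curve.per' {ε : ℝ} {c c' : ℝ → ℝ → ℝ × ℝ} (hc : Curve ε c c') {p : ℝ}
    (hp : p ∈ Ico 2 (2 + ε)) (n : ℤ) (t : ℝ) : c' p (t - n) = c' p t := by
  have h1 : HasDerivAt (c p) (c' p (t - n)) (t - n) := hc.der p hp (t - n)
  have h2 : HasDerivAt (fun s : ℝ => c p (s - n)) (c' p (t - n)) t :=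
    HasDerivAt.comp_sub_const t (n : ℝ) h1
  have h3 : (fun s : ℝ => c p (s - n)) = c p := funext fun s => hc.per_int hp n s
  rw [h3] at h2
  exact h2.unique (hc.der p hp t)

/-- Compactness in (t, s) (everything is periodic: c' is also 1-periodic in t) and continuity at
p = 2. -/
theorem tube {ε : ℝ} (hε : 0 < ε) {c c' : ℝ → ℝ → ℝ × ℝ} (hc : Curve ε c c') {a b : ℝ}
    (hab : a < b) (h1 : ∀ t, hp 2 (c 2 t - c 2 (t + a)) < 1)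
    (h2 : ∀ t, 1 < hp 2 (c 2 t - c 2 (t + b)))
    (h3 : ∀ t, ∀ s ∈ Icc (t + a) (t + b), Dhp 2 (c 2 t - c 2 s) (c' 2 s) < 0)
    (h4 : ∀ t, ∀ s ∈ Icc (t + a) (t + b), Dhp 2 (c 2 t - c 2 s) (c' 2 t) < 0) :
    ∃ ε' : ℝ, 0 < ε' ∧ ε' ≤ ε ∧ ∀ p ∈ Ico 2 (2 + ε'), ∀ t,
      hp p (c p t - c p (t + a)) < 1 ∧ 1 < hp p (c p t - c p (t + b)) ∧
      ∀ s ∈ Icc (t + a) (t + b),
        Dhp p (c p t - c p s) (c' p s) < 0 ∧ Dhp p (c p t - c p s) (c' p t) < 0 := by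
  have hsub : ∀ p ∈ Ico 2 (2 + ε), p ∈ Ioi (1 : ℝ) := fun p hp =>
    lt_of_lt_of_le one_lt_two hp.1
  have hgen : ∀ f : ℝ × (ℝ × ℝ) → ℝ, Continuous f →
      ContinuousOn (fun w : ℝ × (ℝ × ℝ) => c w.1 (f w)) (Ico 2 (2 + ε) ×ˢ univ) := by
    intro f hf
    have h := hc.cont.comp (s := Ico 2 (2 + ε) ×ˢ (univ : Set (ℝ × ℝ)))
      (f := fun w : ℝ × (ℝ × ℝ) => (w.1, f w)) (by fun_prop)
      (fun w hw => ⟨hw.1, mem_univ _⟩)
    exact h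
  have hgen' : ∀ f : ℝ × (ℝ × ℝ) → ℝ, Continuous f →
      ContinuousOn (fun w : ℝ × (ℝ × ℝ) => c' w.1 (f w)) (Ico 2 (2 + ε) ×ˢ univ) := by
    intro f hf
    have h := hc.cont'.comp (s := Ico 2 (2 + ε) ×ˢ (univ : Set (ℝ × ℝ)))
      (f := fun w : ℝ × (ℝ × ℝ) => (w.1, f w)) (by fun_prop)
      (fun w hw => ⟨hw.1, mem_univ _⟩)
    exact h
  have hhp : ∀ f : ℝ × (ℝ × ℝ) → ℝ, Continuous f →
      ContinuousOn (fun w : ℝ × (ℝ × ℝ) => hp w.1 (c w.1 w.2.1 - c w.1 (f w)))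
        (Ico 2 (2 + ε) ×ˢ univ) := by
    intro f hf
    have h1 : ContinuousOn (fun w : ℝ × (ℝ × ℝ) => (w.1, c w.1 w.2.1 - c w.1 (f w)))
        (Ico 2 (2 + ε) ×ˢ univ) :=
      continuousOn_fst.prodMk ((hgen (fun w => w.2.1) (by fun_prop)).sub (hgen f hf))
    exact continuousOn_hp.comp h1 (fun w hw => ⟨hsub w.1 hw.1, mem_univ _⟩)
  have hD : ∀ f g : ℝ × (ℝ × ℝ) → ℝ, Continuous f → Continuous g →
      ContinuousOn (fun w : ℝ × (ℝ × ℝ) => Dhp w.1 (c w.1 w.2.1 - c w.1 (f w)) (c' w.1 (g w)))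
        (Ico 2 (2 + ε) ×ˢ univ) := by
    intro f g hf hg
    have h1 : ContinuousOn (fun w : ℝ × (ℝ × ℝ) =>
        (w.1, (c w.1 w.2.1 - c w.1 (f w)), c' w.1 (g w))) (Ico 2 (2 + ε) ×ˢ univ) :=
      continuousOn_fst.prodMk
        (((hgen (fun w => w.2.1) (by fun_prop)).sub (hgen f hf)).prodMk (hgen' g hg))
    exact continuousOn_Dhp.comp h1 (fun w hw => ⟨hsub w.1 hw.1, mem_univ _⟩)
  let K : Set (ℝ × ℝ) := Icc 0 1 ×ˢ Icc a b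
  have hK : IsCompact K := isCompact_Icc.prod isCompact_Icc
  have hmono : Ico 2 (2 + ε) ×ˢ K ⊆ Ico 2 (2 + ε) ×ˢ univ := prod_mono_right (subset_univ _)
  obtain ⟨e1, he1, hle1, H1⟩ := tube_aux hε hK
    (Φ := fun w => hp w.1 (c w.1 w.2.1 - c w.1 (w.2.1 + a)) - 1)
    (((hhp (fun w => w.2.1 + a) (by fun_prop)).sub continuousOn_const).mono hmono)
    (fun z _ => by have := h1 z.1; simp only; linarith)
  obtain ⟨e2, he2, hle2, H2⟩ := tube_aux hε hK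
    (Φ := fun w => 1 - hp w.1 (c w.1 w.2.1 - c w.1 (w.2.1 + b)))
    ((continuousOn_const.sub (hhp (fun w => w.2.1 + b) (by fun_prop))).mono hmono)
    (fun z _ => by have := h2 z.1; simp only; linarith)
  obtain ⟨e3, he3, hle3, H3⟩ := tube_aux hε hK
    (Φ := fun w => Dhp w.1 (c w.1 w.2.1 - c w.1 (w.2.1 + w.2.2)) (c' w.1 (w.2.1 + w.2.2)))
    ((hD (fun w => w.2.1 + w.2.2) (fun w => w.2.1 + w.2.2) (by fun_prop) (by fun_prop)).mono hmono)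
    (fun z hz => h3 z.1 (z.1 + z.2) ⟨by linarith [hz.2.1], by linarith [hz.2.2]⟩)
  obtain ⟨e4, he4, hle4, H4⟩ := tube_aux hε hK
    (Φ := fun w => Dhp w.1 (c w.1 w.2.1 - c w.1 (w.2.1 + w.2.2)) (c' w.1 w.2.1))
    ((hD (fun w => w.2.1 + w.2.2) (fun w => w.2.1) (by fun_prop) (by fun_prop)).mono hmono)
    (fun z hz => h4 z.1 (z.1 + z.2) ⟨by linarith [hz.2.1], by linarith [hz.2.2]⟩)
  refine ⟨min (min e1 e2) (min e3 e4), lt_min (lt_min he1 he2) (lt_min he3 he4),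
    ((min_le_left _ _).trans (min_le_left _ _)).trans hle1, fun p hp' t => ?_⟩
  have m1 : min (min e1 e2) (min e3 e4) ≤ e1 := (min_le_left _ _).trans (min_le_left _ _)
  have m2 : min (min e1 e2) (min e3 e4) ≤ e2 := (min_le_left _ _).trans (min_le_right _ _)
  have m3 : min (min e1 e2) (min e3 e4) ≤ e3 := (min_le_right _ _).trans (min_le_left _ _)
  have m4 : min (min e1 e2) (min e3 e4) ≤ e4 := (min_le_right _ _).trans (min_le_right _ _)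
  have hpε : p ∈ Ico 2 (2 + ε) := ⟨hp'.1, hp'.2.trans_le (by linarith)⟩
  have hfr : Int.fract t ∈ Icc (0 : ℝ) 1 := ⟨Int.fract_nonneg t, (Int.fract_lt_one t).le⟩
  have q1 := fun x => hc.per_int hpε ⌊t⌋ x
  have q2 := fun x => hc.per' hpε ⌊t⌋ x
  have ef : Int.fract t = t - (⌊t⌋ : ℝ) := rfl
  have g1 := H1 p ⟨hp'.1, hp'.2.trans_le (by linarith)⟩ (Int.fract t, a) ⟨hfr, le_rfl, hab.le⟩
  have g2 := H2 p ⟨hp'.1, hp'.2.trans_le (by linarith)⟩ (Int.fract t, a) ⟨hfr, le_rfl, hab.le⟩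
  simp only at g1 g2
  rw [ef, show t - (⌊t⌋ : ℝ) + a = (t + a) - (⌊t⌋ : ℝ) by ring, q1, q1] at g1
  rw [ef, show t - (⌊t⌋ : ℝ) + b = (t + b) - (⌊t⌋ : ℝ) by ring, q1, q1] at g2
  refine ⟨by linarith, by linarith, fun s hs => ?_⟩
  have g3 := H3 p ⟨hp'.1, hp'.2.trans_le (by linarith)⟩ (Int.fract t, s - t)
    ⟨hfr, by linarith [hs.1], by linarith [hs.2]⟩
  have g4 := H4 p ⟨hp'.1, hp'.2.trans_le (by linarith)⟩ (Int.fract t, s - t)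
    ⟨hfr, by linarith [hs.1], by linarith [hs.2]⟩
  simp only at g3 g4
  rw [ef, show t - (⌊t⌋ : ℝ) + (s - t) = s - (⌊t⌋ : ℝ) by ring, q1, q1, q2] at g3
  rw [ef, show t - (⌊t⌋ : ℝ) + (s - t) = s - (⌊t⌋ : ℝ) by ring, q1, q1, q2] at g4
  exact ⟨g3, g4⟩

end Pool.Agent.Helper2.LM
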