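import Pool.Agent.Helper2.LM.G1

open Set MeasureTheory Filter Topology Metric

namespace Pool.Agent.Helper2.LM

private theorem impl_deriv {Φ : ℝ × ℝ → ℝ} {L : ℝ × ℝ →L[ℝ] ℝ} {g : ℝ → ℝ} {t κ : ℝ}
    (hΦ : HasFDerivAt Φ L (t, g t)) (hB : L (0, 1) ≠ 0) (hg : ContinuousAt g t)
    (h1 : ∀ s, Φ (s, g s) = κ) : HasDerivAt g (-(L (1, 0)) / L (0, 1)) t := by
  have htend : Tendsto (fun s => (s, g s)) (𝓝 t) (𝓝 (t, g t)) := continuousAt_id.prodMk hg
  have ho := (hasFDerivAt_iff_isLittleO.1 hΦ).comp_tendsto htend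
  set A := L (1, 0) with hA
  set B := L (0, 1) with hBd
  have hL : ∀ u y : ℝ, L (u, y) = u * A + y * B := by
    intro u y
    have : ((u, y) : ℝ × ℝ) = u • (1, 0) + y • (0, 1) := by simp
    rw [this, map_add, map_smul, map_smul, smul_eq_mul, smul_eq_mul]
  have hr : (fun s => g s - g t - (s - t) * (-A / B)) =o[𝓝 t]
      (fun s => ((s, g s) - (t, g t) : ℝ × ℝ)) := by
    have h2 := ho.const_mul_left (-1 / B)
    refine h2.congr_left ?_
    intro s
    simp only [Function.comp]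
    rw [h1 s, h1 t, Prod.mk_sub_mk, hL]
    field_simp
    ring
  have hO : (fun s => ((s, g s) - (t, g t) : ℝ × ℝ)) =O[𝓝 t] (fun s => s - t) := by
    have h3 := hr.def (c := 1 / 2) (by norm_num)
    refine Asymptotics.IsBigO.of_bound (2 * |A / B| + 1) ?_
    filter_upwards [h3] with s hs
    rw [Prod.mk_sub_mk, Prod.norm_mk] at hs ⊢
    rw [Real.norm_eq_abs, Real.norm_eq_abs, Real.norm_eq_abs] at hs
    rw [Real.norm_eq_abs, Real.norm_eq_abs]
    have h4 : |g s - g t| ≤ |A / B| * |s - t| + 1 / 2 * max |s - t| |g s - g t| := by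
      have : g s - g t = (g s - g t - (s - t) * (-A / B)) + (s - t) * (-A / B) := by ring
      calc |g s - g t| = |(g s - g t - (s - t) * (-A / B)) + (s - t) * (-A / B)| := by
            rw [← this]
        _ ≤ |g s - g t - (s - t) * (-A / B)| + |(s - t) * (-A / B)| := abs_add_le _ _
        _ ≤ 1 / 2 * max |s - t| |g s - g t| + |A / B| * |s - t| := by
            refine add_le_add hs (le_of_eq ?_)
            rw [abs_mul, neg_div, abs_neg, mul_comm]
        _ = _ := add_comm _ _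
    have h5 : 0 ≤ |A / B| * |s - t| := by positivity
    have h6 : 0 ≤ |s - t| := abs_nonneg _
    rcases le_total |s - t| |g s - g t| with h | h
    · rw [max_eq_right h] at h4 ⊢
      nlinarith
    · rw [max_eq_left h]
      nlinarith
  rw [hasDerivAt_iff_isLittleO]
  refine (hr.trans_isBigO hO).congr_left ?_
  intro s
  rw [smul_eq_mul]

private theorem Dhp_neg (p : ℝ) (v u : ℝ × ℝ) : Dhp p v (-u) = - Dhp p v u := by
  simp [Dhp]
  ring

/-- Implicit function. For each p, t the function s ↦ hp p (c p t - c p s) has derivative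
- Dhp p (c p t - c p s) (c' p s) > 0 on [t+a, t+b], so there is exactly one `g p t` in
(t+a, t+b) with value 1 (and one in the closed interval). Joint continuity of g: if
s₁ < g p t < s₂ then the values at s₁, s₂ are < 1 < and this persists nearby. Derivative: the
function (t, s) ↦ hp p (c p t - c p s) is `C¹` (contDiff_hp1, contDiff_hp2), implicit function
theorem (or: HasStrictFDerivAt and continuity of g); g' = Dhp (..) (c' p t) / Dhp (..)
(c' p (g p t)) is positive and jointly continuous; `C²` for p > 2. -/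
theorem imp {ε : ℝ} (hε : 0 < ε) {c c' : ℝ → ℝ → ℝ × ℝ} (hc : Curve ε c c') {a b : ℝ}
    (hab : a < b)
    (h : ∀ p ∈ Ico 2 (2 + ε), ∀ t,
      hp p (c p t - c p (t + a)) < 1 ∧ 1 < hp p (c p t - c p (t + b)) ∧
      ∀ s ∈ Icc (t + a) (t + b),
        Dhp p (c p t - c p s) (c' p s) < 0 ∧ Dhp p (c p t - c p s) (c' p t) < 0) :
    ∃ g g' : ℝ → ℝ → ℝ,
      ContinuousOn (fun z : ℝ × ℝ => g z.1 z.2) (Ico 2 (2 + ε) ×ˢ univ) ∧
      ContinuousOn (fun z : ℝ × ℝ => g' z.1 z.2) (Ico 2 (2 + ε) ×ˢ univ) ∧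
      (∀ p ∈ Ico 2 (2 + ε), ∀ t, HasDerivAt (g p) (g' p t) t ∧ 0 < g' p t ∧
        g p (t + 1) = g p t + 1 ∧ g p t ∈ Ioo (t + a) (t + b) ∧
        hp p (c p t - c p (g p t)) = 1) ∧
      (∀ p ∈ Ioo 2 (2 + ε), ContDiff ℝ 2 (g p)) ∧
      (∀ t s, s ∈ Icc (t + a) (t + b) → hp 2 (c 2 t - c 2 s) = 1 → s = g 2 t) := by
  have hS1 : ∀ p ∈ Ico 2 (2 + ε), (1 : ℝ) < p := fun p hp => lt_of_lt_of_le (by norm_num) hp.1
  -- the derivative in `s`
  have hds : ∀ p ∈ Ico 2 (2 + ε), ∀ t s, HasDerivAt (fun s => hp p (c p t - c p s))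
      (- Dhp p (c p t - c p s) (c' p s)) s := by
    intro p hp t s
    have h1 : HasDerivAt (fun s => c p t - c p s) (-(c' p s)) s := by
      simpa using (hc.der p hp s).const_sub (c p t)
    have h2 := hasDerivAt_hp (hS1 p hp) h1
    rwa [Dhp_neg] at h2
  have hdt : ∀ p ∈ Ico 2 (2 + ε), ∀ t s, HasDerivAt (fun t => hp p (c p t - c p s))
      (Dhp p (c p t - c p s) (c' p t)) t := by
    intro p hp t s
    have h1 : HasDerivAt (fun t => c p t - c p s) (c' p t) t := (hc.der p hp t).sub_const _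
    exact hasDerivAt_hp (hS1 p hp) h1
  have hmono : ∀ p ∈ Ico 2 (2 + ε), ∀ t,
      StrictMonoOn (fun s => hp p (c p t - c p s)) (Icc (t + a) (t + b)) := by
    intro p hp t
    apply strictMonoOn_of_deriv_pos (convex_Icc _ _)
    · exact fun s _ => (hds p hp t s).continuousAt.continuousWithinAt
    · intro s hs
      rw [interior_Icc] at hs
      rw [(hds p hp t s).deriv]
      have := ((h p hp t).2.2 s (Ioo_subset_Icc_self hs)).1
      linarith
  have hex : ∀ p t, ∃ s, p ∈ Ico 2 (2 + ε) →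
      s ∈ Ioo (t + a) (t + b) ∧ hp p (c p t - c p s) = 1 := by
    intro p t
    by_cases hp' : p ∈ Ico 2 (2 + ε)
    · have hcont : ContinuousOn (fun s => hp p (c p t - c p s)) (Icc (t + a) (t + b)) :=
        fun s _ => (hds p hp' t s).continuousAt.continuousWithinAt
      have hiv := intermediate_value_Ioo (by linarith : t + a ≤ t + b) hcont
      obtain ⟨s, hs, hs1⟩ := hiv ⟨(h p hp' t).1, (h p hp' t).2.1⟩
      exact ⟨s, fun _ => ⟨hs, hs1⟩⟩
    · exact ⟨0, fun h => absurd h hp'⟩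
  choose g hg using hex
  have huniq : ∀ p ∈ Ico 2 (2 + ε), ∀ t s, s ∈ Icc (t + a) (t + b) →
      hp p (c p t - c p s) = 1 → s = g p t := by
    intro p hp' t s hs hs1
    exact (hmono p hp' t).injOn hs (Ioo_subset_Icc_self (hg p t hp').1)
      (hs1.trans (hg p t hp').2.symm)
  -- joint continuity of `F`
  have hFc : ∀ s, ContinuousOn (fun z : ℝ × ℝ => hp z.1 (c z.1 z.2 - c z.1 s))
      (Ico 2 (2 + ε) ×ˢ univ) := by
    intro s
    have h1 : ContinuousOn (fun z : ℝ × ℝ => ((z.1, c z.1 z.2 - c z.1 s) : ℝ × (ℝ × ℝ)))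
        (Ico 2 (2 + ε) ×ˢ univ) := by
      refine continuousOn_fst.prodMk (hc.cont.sub ?_)
      have h2 : ContinuousOn (fun z : ℝ × ℝ => ((z.1, s) : ℝ × ℝ)) (Ico 2 (2 + ε) ×ˢ univ) :=
        continuousOn_fst.prodMk continuousOn_const
      exact hc.cont.comp h2 (fun z hz => ⟨hz.1, mem_univ _⟩)
    exact continuousOn_hp.comp h1 (fun z hz => ⟨hS1 z.1 hz.1, mem_univ _⟩)
  have hgc : ContinuousOn (fun z : ℝ × ℝ => g z.1 z.2) (Ico 2 (2 + ε) ×ˢ univ) := by
    rintro ⟨p₀, t₀⟩ hz₀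
    have hp₀ : p₀ ∈ Ico 2 (2 + ε) := hz₀.1
    obtain ⟨hg0, hg1⟩ := hg p₀ t₀ hp₀
    have hmem : ∀ᶠ z : ℝ × ℝ in 𝓝[Ico 2 (2 + ε) ×ˢ univ] (p₀, t₀), z.1 ∈ Ico 2 (2 + ε) := by
      filter_upwards [self_mem_nhdsWithin] with z hz using hz.1
    have hsnd : Tendsto (fun z : ℝ × ℝ => z.2) (𝓝[Ico 2 (2 + ε) ×ˢ univ] (p₀, t₀)) (𝓝 t₀) :=
      (continuous_snd.tendsto _).mono_left nhdsWithin_le_nhds
    refine tendsto_order.2 ⟨?_, ?_⟩
    · intro s₁ hs₁
      simp only at hs₁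
      obtain ⟨s₂, h12, h2⟩ := exists_between (max_lt hs₁ hg0.1)
      have hs2a : t₀ + a < s₂ := lt_of_le_of_lt (le_max_right _ _) h12
      have hs2b : s₂ < t₀ + b := h2.trans hg0.2
      have hlt : hp p₀ (c p₀ t₀ - c p₀ s₂) < 1 := by
        rw [← hg1]
        exact hmono p₀ hp₀ t₀ ⟨hs2a.le, hs2b.le⟩ (Ioo_subset_Icc_self hg0) h2
      have e1 := (hFc s₂ (p₀, t₀) hz₀).eventually (gt_mem_nhds hlt)
      have e2 := hsnd.eventually (gt_mem_nhds (by linarith : t₀ < s₂ - a))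
      have e3 := hsnd.eventually (lt_mem_nhds (by linarith : s₂ - b < t₀))
      filter_upwards [e1, e2, e3, hmem] with z f1 f2 f3 f4
      by_contra hcon
      rw [not_lt] at hcon
      obtain ⟨k0, k1⟩ := hg z.1 z.2 f4
      have hle : g z.1 z.2 ≤ s₂ :=
        hcon.trans ((le_max_left _ _).trans h12.le)
      have := (hmono z.1 f4 z.2).monotoneOn (Ioo_subset_Icc_self k0)
        ⟨by linarith, by linarith⟩ hle
      linarith
    · intro s₁ hs₁
      simp only at hs₁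
      obtain ⟨s₂, h2, h12⟩ := exists_between (lt_min hs₁ hg0.2)
      have hs2b : s₂ < t₀ + b := lt_of_lt_of_le h12 (min_le_right _ _)
      have hs2a : t₀ + a < s₂ := hg0.1.trans h2
      have hlt : 1 < hp p₀ (c p₀ t₀ - c p₀ s₂) := by
        rw [← hg1]
        exact hmono p₀ hp₀ t₀ (Ioo_subset_Icc_self hg0) ⟨hs2a.le, hs2b.le⟩ h2
      have e1 := (hFc s₂ (p₀, t₀) hz₀).eventually (lt_mem_nhds hlt)
      have e2 := hsnd.eventually (gt_mem_nhds (by linarith : t₀ < s₂ - a))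
      have e3 := hsnd.eventually (lt_mem_nhds (by linarith : s₂ - b < t₀))
      filter_upwards [e1, e2, e3, hmem] with z f1 f2 f3 f4
      by_contra hcon
      rw [not_lt] at hcon
      obtain ⟨k0, k1⟩ := hg z.1 z.2 f4
      have hle : s₂ ≤ g z.1 z.2 :=
        (h12.le.trans (min_le_left _ _)).trans hcon
      have := (hmono z.1 f4 z.2).monotoneOn ⟨by linarith, by linarith⟩
        (Ioo_subset_Icc_self k0) hle
      linarith
  -- the derivative
  set g' : ℝ → ℝ → ℝ := fun p t => Dhp p (c p t - c p (g p t)) (c' p t) /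
    Dhp p (c p t - c p (g p t)) (c' p (g p t)) with hg'
  have hcg : ContinuousOn (fun z : ℝ × ℝ => c z.1 (g z.1 z.2)) (Ico 2 (2 + ε) ×ˢ univ) := by
    have h2 : ContinuousOn (fun z : ℝ × ℝ => ((z.1, g z.1 z.2) : ℝ × ℝ))
        (Ico 2 (2 + ε) ×ˢ univ) := continuousOn_fst.prodMk hgc
    exact hc.cont.comp h2 (fun z hz => ⟨hz.1, mem_univ _⟩)
  have hcg' : ContinuousOn (fun z : ℝ × ℝ => c' z.1 (g z.1 z.2)) (Ico 2 (2 + ε) ×ˢ univ) := by
    have h2 : ContinuousOn (fun z : ℝ × ℝ => ((z.1, g z.1 z.2) : ℝ × ℝ))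
        (Ico 2 (2 + ε) ×ˢ univ) := continuousOn_fst.prodMk hgc
    exact hc.cont'.comp h2 (fun z hz => ⟨hz.1, mem_univ _⟩)
  have hDc : ∀ w : ℝ × ℝ → ℝ × ℝ, ContinuousOn w (Ico 2 (2 + ε) ×ˢ univ) →
      ContinuousOn (fun z : ℝ × ℝ => Dhp z.1 (c z.1 z.2 - c z.1 (g z.1 z.2)) (w z))
        (Ico 2 (2 + ε) ×ˢ univ) := by
    intro w hw
    have h1 : ContinuousOn (fun z : ℝ × ℝ =>
        ((z.1, (c z.1 z.2 - c z.1 (g z.1 z.2), w z)) : ℝ × (ℝ × ℝ) × (ℝ × ℝ)))
        (Ico 2 (2 + ε) ×ˢ univ) :=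
      continuousOn_fst.prodMk ((hc.cont.sub hcg).prodMk hw)
    exact continuousOn_Dhp.comp h1 (fun z hz => ⟨hS1 z.1 hz.1, mem_univ _⟩)
  have hg'c : ContinuousOn (fun z : ℝ × ℝ => g' z.1 z.2) (Ico 2 (2 + ε) ×ˢ univ) := by
    refine (hDc _ hc.cont').div (hDc _ hcg') ?_
    rintro ⟨p, t⟩ hz
    have := ((h p hz.1 t).2.2 (g p t) (Ioo_subset_Icc_self (hg p t hz.1).1)).1
    exact this.ne
  have hΦd : ∀ p ∈ Ico 2 (2 + ε),
      Differentiable ℝ (fun z : ℝ × ℝ => hp p (c p z.1 - c p z.2)) := by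
    intro p hp'
    have hd : Differentiable ℝ (c p) := fun t => (hc.der p hp' t).differentiableAt
    have h1 : Differentiable ℝ (hp p) := (contDiff_hp1 (hS1 p hp')).differentiable (by norm_num)
    exact h1.comp ((hd.comp differentiable_fst).sub (hd.comp differentiable_snd))
  have hΦ1 : ∀ p ∈ Ico 2 (2 + ε), ∀ t s,
      fderiv ℝ (fun z : ℝ × ℝ => hp p (c p z.1 - c p z.2)) (t, s) (1, 0) =
        Dhp p (c p t - c p s) (c' p t) := by
    intro p hp' t s
    have h1 := (hΦd p hp' (t, s)).hasFDerivAt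
    have h2 : HasDerivAt (fun u : ℝ => ((u, s) : ℝ × ℝ)) (1, 0) t :=
      (hasDerivAt_id t).prodMk (hasDerivAt_const t s)
    have h3 := HasFDerivAt.comp_hasDerivAt t h1 h2
    exact h3.unique (hdt p hp' t s)
  have hΦ2 : ∀ p ∈ Ico 2 (2 + ε), ∀ t s,
      fderiv ℝ (fun z : ℝ × ℝ => hp p (c p z.1 - c p z.2)) (t, s) (0, 1) =
        - Dhp p (c p t - c p s) (c' p s) := by
    intro p hp' t s
    have h1 := (hΦd p hp' (t, s)).hasFDerivAt
    have h2 : HasDerivAt (fun u : ℝ => ((t, u) : ℝ × ℝ)) (0, 1) s :=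
      (hasDerivAt_const s t).prodMk (hasDerivAt_id s)
    have h3 := HasFDerivAt.comp_hasDerivAt s h1 h2
    exact h3.unique (hds p hp' t s)
  have hgcont : ∀ p ∈ Ico 2 (2 + ε), Continuous (g p) := by
    intro p hp'
    have h1 : ContinuousOn (fun t : ℝ => ((p, t) : ℝ × ℝ)) univ := by fun_prop
    have h2 := hgc.comp h1 (fun t _ => ⟨hp', mem_univ _⟩)
    exact continuousOn_univ.1 h2
  have hg'cont : ∀ p ∈ Ico 2 (2 + ε), Continuous (g' p) := by
    intro p hp'
    have h1 : ContinuousOn (fun t : ℝ => ((p, t) : ℝ × ℝ)) univ := by fun_prop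
    have h2 := hg'c.comp h1 (fun t _ => ⟨hp', mem_univ _⟩)
    exact continuousOn_univ.1 h2
  have hgd' : ∀ p ∈ Ico 2 (2 + ε), ∀ t, HasDerivAt (g p)
      (-(fderiv ℝ (fun z : ℝ × ℝ => hp p (c p z.1 - c p z.2)) (t, g p t) (1, 0)) /
        fderiv ℝ (fun z : ℝ × ℝ => hp p (c p z.1 - c p z.2)) (t, g p t) (0, 1)) t := by
    intro p hp' t
    refine impl_deriv (κ := 1) (hΦd p hp' (t, g p t)).hasFDerivAt ?_
      (hgcont p hp').continuousAt (fun s => (hg p s hp').2)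
    rw [hΦ2 p hp']
    have := ((h p hp' t).2.2 (g p t) (Ioo_subset_Icc_self (hg p t hp').1)).1
    exact neg_ne_zero.2 this.ne
  have hgd : ∀ p ∈ Ico 2 (2 + ε), ∀ t, HasDerivAt (g p) (g' p t) t := by
    intro p hp' t
    have := hgd' p hp' t
    rwa [hΦ1 p hp', hΦ2 p hp', neg_div_neg_eq] at this
  refine ⟨g, g', hgc, hg'c, ?_, ?_, ?_⟩
  · intro p hp' t
    obtain ⟨k0, k1⟩ := hg p t hp'
    refine ⟨hgd p hp' t, ?_, ?_, k0, k1⟩
    · have := (h p hp' t).2.2 (g p t) (Ioo_subset_Icc_self k0)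
      exact div_pos_of_neg_of_neg this.2 this.1
    · symm
      apply huniq p hp'
      · exact ⟨by linarith [k0.1], by linarith [k0.2]⟩
      · rw [hc.per p hp', hc.per p hp', k1]
  · intro p hp'
    have hpI : p ∈ Ico 2 (2 + ε) := ⟨hp'.1.le, hp'.2⟩
    have hderiv : deriv (g p) = g' p := funext fun t => (hgd p hpI t).deriv
    have hdiff : Differentiable ℝ (g p) := fun t => (hgd p hpI t).differentiableAt
    have hC1 : ContDiff ℝ 1 (g p) := by
      rw [contDiff_one_iff_deriv]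
      exact ⟨hdiff, by rw [hderiv]; exact hg'cont p hpI⟩
    have hΦC : ContDiff ℝ 2 (fun z : ℝ × ℝ => hp p (c p z.1 - c p z.2)) :=
      (contDiff_hp2 hp'.1).comp
        (((hc.c2 p hp').comp contDiff_fst).sub ((hc.c2 p hp').comp contDiff_snd))
    have hΦf : ContDiff ℝ 1 (fderiv ℝ (fun z : ℝ × ℝ => hp p (c p z.1 - c p z.2))) :=
      hΦC.fderiv_right (m := 1) (by norm_num)
    have hcomp : ContDiff ℝ 1 (fun t =>
        fderiv ℝ (fun z : ℝ × ℝ => hp p (c p z.1 - c p z.2)) (t, g p t)) :=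
      hΦf.comp (contDiff_id.prodMk hC1)
    have hdc : ContDiff ℝ 1 (deriv (g p)) := by
      have he : deriv (g p) = fun t =>
          -(fderiv ℝ (fun z : ℝ × ℝ => hp p (c p z.1 - c p z.2)) (t, g p t) (1, 0)) /
          fderiv ℝ (fun z : ℝ × ℝ => hp p (c p z.1 - c p z.2)) (t, g p t) (0, 1) :=
        funext fun t => (hgd' p hpI t).deriv
      rw [he]
      refine ContDiff.div (hcomp.clm_apply contDiff_const).neg
        (hcomp.clm_apply contDiff_const) ?_
      intro t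
      rw [hΦ2 p hpI]
      have := ((h p hpI t).2.2 (g p t) (Ioo_subset_Icc_self (hg p t hpI).1)).1
      exact neg_ne_zero.2 this.ne
    have h2 : ContDiff ℝ (1 + 1) (g p) :=
      contDiff_succ_iff_deriv.2 ⟨hdiff, by simp, hdc⟩
    rwa [one_add_one_eq_two] at h2
  · intro t s hs hs1
    exact huniq 2 ⟨le_refl _, by linarith⟩ t s hs hs1

end Pool.Agent.Helper2.LM
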