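import Pool.Agent.Helper2.LM.G1

open Set MeasureTheory Filter Topology Metric

namespace Pool.Agent.Helper2.LM

theorem g5_hp (t s : ℝ) : hp 2 (ee t - ee s) = 2 - 2 * Real.cos (2 * Real.pi * (s - t)) := by
  rw [hp_two]
  have h1 : 2 * Real.pi * (s - t) = 2 * Real.pi * s - 2 * Real.pi * t := by ring
  rw [h1, Real.cos_sub]
  simp only [ee, Prod.fst_sub, Prod.snd_sub]
  have h2 := Real.sin_sq_add_cos_sq (2 * Real.pi * t)
  have h3 := Real.sin_sq_add_cos_sq (2 * Real.pi * s)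
  linear_combination h2 + h3

theorem g5_D1 (t s : ℝ) :
    Dhp 2 (ee t - ee s) (ee' s) = -(4 * Real.pi * Real.sin (2 * Real.pi * (s - t))) := by
  rw [Dhp_two]
  have h1 : 2 * Real.pi * (s - t) = 2 * Real.pi * s - 2 * Real.pi * t := by ring
  rw [h1, Real.sin_sub]
  simp only [ee, ee', Prod.fst_sub, Prod.snd_sub]
  ring

theorem g5_D2 (t s : ℝ) :
    Dhp 2 (ee t - ee s) (ee' t) = -(4 * Real.pi * Real.sin (2 * Real.pi * (s - t))) := by
  rw [Dhp_two]
  have h1 : 2 * Real.pi * (s - t) = 2 * Real.pi * s - 2 * Real.pi * t := by ring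
  rw [h1, Real.sin_sub]
  simp only [ee, ee', Prod.fst_sub, Prod.snd_sub]
  ring

theorem g5_cos_shift (t : ℝ) : Real.cos (2 * Real.pi * (t + 1 / 6)) =
    Real.cos (2 * Real.pi * t) / 2 - Real.sin (2 * Real.pi * t) * (√3 / 2) := by
  have h1 : 2 * Real.pi * (t + 1 / 6) = 2 * Real.pi * t + Real.pi / 3 := by ring
  rw [h1, Real.cos_add, Real.cos_pi_div_three, Real.sin_pi_div_three]
  ring

theorem g5_sin_shift (t : ℝ) : Real.sin (2 * Real.pi * (t + 1 / 6)) =
    Real.sin (2 * Real.pi * t) / 2 + Real.cos (2 * Real.pi * t) * (√3 / 2) := by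
  have h1 : 2 * Real.pi * (t + 1 / 6) = 2 * Real.pi * t + Real.pi / 3 := by ring
  rw [h1, Real.sin_add, Real.cos_pi_div_three, Real.sin_pi_div_three]
  ring

theorem g5_sq3 : √(3 : ℝ) ^ 2 = 3 := Real.sq_sqrt (by norm_num)

theorem g5_hpW (t s : ℝ) : hp 2 ((ee t + ee (t + 1 / 6)) - (ee s + ee (s + 1 / 6))) =
    3 * (2 - 2 * Real.cos (2 * Real.pi * (s - t))) := by
  rw [hp_two]
  have h1 : 2 * Real.pi * (s - t) = 2 * Real.pi * s - 2 * Real.pi * t := by ring
  rw [h1, Real.cos_sub]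
  simp only [ee, Prod.fst_sub, Prod.snd_sub, Prod.fst_add, Prod.snd_add]
  rw [g5_cos_shift t, g5_sin_shift t, g5_cos_shift s, g5_sin_shift s]
  have h2 := Real.sin_sq_add_cos_sq (2 * Real.pi * t)
  have h3 := Real.sin_sq_add_cos_sq (2 * Real.pi * s)
  generalize Real.sin (2 * Real.pi * t) = a at *
  generalize Real.cos (2 * Real.pi * t) = b at *
  generalize Real.sin (2 * Real.pi * s) = c at *
  generalize Real.cos (2 * Real.pi * s) = d at *
  have h4 := g5_sq3
  linear_combination 3 * h2 + 3 * h3 + ((a - c) ^ 2 + (b - d) ^ 2) / 4 * h4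

theorem g5_DW1 (t s : ℝ) :
    Dhp 2 ((ee t + ee (t + 1 / 6)) - (ee s + ee (s + 1 / 6))) (ee' s + ee' (s + 1 / 6)) =
      -(12 * Real.pi * Real.sin (2 * Real.pi * (s - t))) := by
  rw [Dhp_two]
  have h1 : 2 * Real.pi * (s - t) = 2 * Real.pi * s - 2 * Real.pi * t := by ring
  rw [h1, Real.sin_sub]
  simp only [ee, ee', Prod.fst_sub, Prod.snd_sub, Prod.fst_add, Prod.snd_add]
  rw [g5_cos_shift t, g5_sin_shift t, g5_cos_shift s, g5_sin_shift s]
  have h4 := g5_sq3
  generalize Real.sin (2 * Real.pi * t) = a at *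
  generalize Real.cos (2 * Real.pi * t) = b at *
  generalize Real.sin (2 * Real.pi * s) = c at *
  generalize Real.cos (2 * Real.pi * s) = d at *
  linear_combination (Real.pi * (a * d - b * c)) * h4

theorem g5_DW2 (t s : ℝ) :
    Dhp 2 ((ee t + ee (t + 1 / 6)) - (ee s + ee (s + 1 / 6))) (ee' t + ee' (t + 1 / 6)) =
      -(12 * Real.pi * Real.sin (2 * Real.pi * (s - t))) := by
  rw [Dhp_two]
  have h1 : 2 * Real.pi * (s - t) = 2 * Real.pi * s - 2 * Real.pi * t := by ring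
  rw [h1, Real.sin_sub]
  simp only [ee, ee', Prod.fst_sub, Prod.snd_sub, Prod.fst_add, Prod.snd_add]
  rw [g5_cos_shift t, g5_sin_shift t, g5_cos_shift s, g5_sin_shift s]
  have h4 := g5_sq3
  generalize Real.sin (2 * Real.pi * t) = a at *
  generalize Real.cos (2 * Real.pi * t) = b at *
  generalize Real.sin (2 * Real.pi * s) = c at *
  generalize Real.cos (2 * Real.pi * s) = d at *
  linear_combination (Real.pi * (a * d - b * c)) * h4

theorem g5_det (t s : ℝ) :
    det2 (ee' t + ee' (t + 1 / 6)) (ee' s + ee' (s + 1 / 6)) =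
      12 * Real.pi ^ 2 * Real.sin (2 * Real.pi * (s - t)) := by
  have h1 : 2 * Real.pi * (s - t) = 2 * Real.pi * s - 2 * Real.pi * t := by ring
  rw [h1, Real.sin_sub]
  simp only [det2, ee', Prod.fst_add, Prod.snd_add]
  rw [g5_cos_shift t, g5_sin_shift t, g5_cos_shift s, g5_sin_shift s]
  have h4 := g5_sq3
  generalize Real.sin (2 * Real.pi * t) = a at *
  generalize Real.cos (2 * Real.pi * t) = b at *
  generalize Real.sin (2 * Real.pi * s) = c at *
  generalize Real.cos (2 * Real.pi * s) = d at *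
  linear_combination (Real.pi ^ 2 * (b * c - a * d)) * h4

/-- Euclidean computations for the unit circle: hp 2 (ee t - ee s) = 2 - 2 cos (2π(s-t)). -/
theorem euclid1 (t : ℝ) :
    hp 2 (ee t - ee (t + 1 / 12)) < 1 ∧ 1 < hp 2 (ee t - ee (t + 1 / 4)) ∧
    (∀ s ∈ Icc (t + 1 / 12) (t + 1 / 4),
      Dhp 2 (ee t - ee s) (ee' s) < 0 ∧ Dhp 2 (ee t - ee s) (ee' t) < 0) ∧
    hp 2 (ee t - ee (t + 1 / 6)) = 1 := by
  have hpi := Real.pi_pos
  refine ⟨?_, ?_, ?_, ?_⟩
  · rw [g5_hp]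
    have h1 : 2 * Real.pi * (t + 1 / 12 - t) = Real.pi / 6 := by ring
    rw [h1, Real.cos_pi_div_six]
    have h2 : (1 : ℝ) < √3 := by
      rw [Real.lt_sqrt (by norm_num)]; norm_num
    linarith
  · rw [g5_hp]
    have h1 : 2 * Real.pi * (t + 1 / 4 - t) = Real.pi / 2 := by ring
    rw [h1, Real.cos_pi_div_two]
    norm_num
  · intro s hs
    rw [g5_D1, g5_D2]
    have h1 : 0 < Real.sin (2 * Real.pi * (s - t)) := by
      apply Real.sin_pos_of_pos_of_lt_pi
      · have : 0 < s - t := by linarith [hs.1]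
        positivity
      · nlinarith [hs.2]
    have h2 : 0 < 4 * Real.pi * Real.sin (2 * Real.pi * (s - t)) := by positivity
    constructor <;> linarith
  · rw [g5_hp]
    have h1 : 2 * Real.pi * (t + 1 / 6 - t) = Real.pi / 3 := by ring
    rw [h1, Real.cos_pi_div_three]
    norm_num

theorem g5_cos12 : (5 : ℝ) / 6 < Real.cos (Real.pi / 12) := by
  have h1 : Real.cos (Real.pi / 12) ^ 2 = 1 / 2 + Real.cos (Real.pi / 6) / 2 := by
    rw [Real.cos_sq]
    have : 2 * (Real.pi / 12) = Real.pi / 6 := by ring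
    rw [this]
  rw [Real.cos_pi_div_six] at h1
  have h2 : (1 : ℝ) < √3 := by
    rw [Real.lt_sqrt (by norm_num)]; norm_num
  have h3 : 0 ≤ Real.cos (Real.pi / 12) := by
    apply Real.cos_nonneg_of_mem_Icc
    constructor <;> linarith [Real.pi_pos]
  nlinarith

theorem g5_alpha : ∃ α : ℝ, α ∈ Ioo (1 / 24 : ℝ) (1 / 6) ∧ Irrational α ∧
    Real.cos (2 * Real.pi * α) = 5 / 6 ∧ 0 < Real.sin (2 * Real.pi * α) := by
  have hpi := Real.pi_pos
  have hcos : Real.cos (Real.arccos (5 / 6)) = 5 / 6 :=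
    Real.cos_arccos (by norm_num) (by norm_num)
  have h0 : 2 * Real.pi * (Real.arccos (5 / 6) / (2 * Real.pi)) = Real.arccos (5 / 6) := by
    field_simp
  have hlo : Real.pi / 12 < Real.arccos (5 / 6) := by
    have h1 : Real.arccos (Real.cos (Real.pi / 12)) = Real.pi / 12 :=
      Real.arccos_cos (by positivity) (by linarith)
    rw [← h1]
    exact Real.arccos_lt_arccos (by norm_num) g5_cos12 (Real.cos_le_one _)
  have hhi : Real.arccos (5 / 6) < Real.pi / 3 := by
    have h1 : Real.arccos (1 / 2) = Real.pi / 3 := by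
      rw [← Real.cos_pi_div_three, Real.arccos_cos (by positivity) (by linarith)]
    rw [← h1]
    exact Real.arccos_lt_arccos (by norm_num) (by norm_num) (by norm_num)
  refine ⟨Real.arccos (5 / 6) / (2 * Real.pi), ⟨?_, ?_⟩, ?_, ?_, ?_⟩
  · rw [lt_div_iff₀ (by positivity)]; linarith
  · rw [div_lt_iff₀ (by positivity)]; linarith
  · rintro ⟨r, hr⟩
    have h2 : Real.arccos (5 / 6) = ((2 * r : ℚ) : ℝ) * Real.pi := by
      rw [← h0, ← hr]; push_cast; ring
    have h3 := niven (θ := Real.arccos (5 / 6)) ⟨2 * r, h2⟩ ⟨5 / 6, by rw [hcos]; norm_num⟩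
    rw [hcos] at h3
    simp only [mem_insert_iff, mem_singleton_iff] at h3
    rcases h3 with h | h | h | h | h <;> norm_num at h
  · rw [h0, hcos]
  · rw [h0]
    apply Real.sin_pos_of_pos_of_lt_pi <;> linarith

/-- The same for W t = ee t + ee (t + 1/6), a circle of radius √3:
hp 2 (W t - W s) = 3 (2 - 2 cos (2π(s-t))); the chord of length one has cos = 5/6, and
arccos (5/6) / (2π) is irrational by Niven's theorem (Mathlib.NumberTheory.Niven). -/
theorem euclid2 :
    (∀ t : ℝ, hp 2 ((ee t + ee (t + 1 / 6)) - (ee (t + 1 / 24) + ee (t + 1 / 24 + 1 / 6))) < 1 ∧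
      1 < hp 2 ((ee t + ee (t + 1 / 6)) - (ee (t + 1 / 6) + ee (t + 1 / 6 + 1 / 6))) ∧
      ∀ s ∈ Icc (t + 1 / 24) (t + 1 / 6),
        Dhp 2 ((ee t + ee (t + 1 / 6)) - (ee s + ee (s + 1 / 6))) (ee' s + ee' (s + 1 / 6)) < 0 ∧
        Dhp 2 ((ee t + ee (t + 1 / 6)) - (ee s + ee (s + 1 / 6))) (ee' t + ee' (t + 1 / 6)) < 0) ∧
    ∃ α : ℝ, α ∈ Ioo (1 / 24 : ℝ) (1 / 6) ∧ Irrational α ∧
      ∀ t : ℝ, hp 2 ((ee t + ee (t + 1 / 6)) - (ee (t + α) + ee (t + α + 1 / 6))) = 1 ∧
        det2 (ee' t + ee' (t + 1 / 6)) (ee' (t + α) + ee' (t + α + 1 / 6)) ≠ 0 := by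
  have hpi := Real.pi_pos
  refine ⟨?_, ?_⟩
  · intro t
    refine ⟨?_, ?_, ?_⟩
    · rw [g5_hpW]
      have h1 : 2 * Real.pi * (t + 1 / 24 - t) = Real.pi / 12 := by ring
      rw [h1]
      linarith [g5_cos12]
    · rw [g5_hpW]
      have h1 : 2 * Real.pi * (t + 1 / 6 - t) = Real.pi / 3 := by ring
      rw [h1, Real.cos_pi_div_three]
      norm_num
    · intro s hs
      rw [g5_DW1, g5_DW2]
      have h1 : 0 < Real.sin (2 * Real.pi * (s - t)) := by
        apply Real.sin_pos_of_pos_of_lt_pi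
        · have : 0 < s - t := by linarith [hs.1]
          positivity
        · nlinarith [hs.2]
      have h2 : 0 < 12 * Real.pi * Real.sin (2 * Real.pi * (s - t)) := by positivity
      constructor <;> linarith
  · obtain ⟨α, hα, hirr, hc, hs⟩ := g5_alpha
    refine ⟨α, hα, hirr, fun t => ⟨?_, ?_⟩⟩
    · rw [g5_hpW]
      have h1 : t + α - t = α := by ring
      rw [h1, hc]
      norm_num
    · rw [g5_det]
      have h1 : t + α - t = α := by ring
      rw [h1]
      positivity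

end Pool.Agent.Helper2.LM
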