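import Pool.Agent.Helper2.LM.G2
import Pool.Agent.Helper2.LM.G3
import Pool.Agent.Helper2.LM.G4
import Pool.Agent.Helper2.LM.G5

/-!
# The configurations for `p` slightly above `2`
-/

open Set MeasureTheory Filter Topology Metric

namespace Pool.Agent.Helper2.LM

theorem Curve.mono {ε ε' : ℝ} {c c' : ℝ → ℝ → ℝ × ℝ} (h : Curve ε c c') (hε : ε' ≤ ε) :
    Curve ε' c c' := by
  have h1 : Ico 2 (2 + ε') ⊆ Ico 2 (2 + ε) := Ico_subset_Ico_right (by linarith)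
  have h2 : Ioo 2 (2 + ε') ⊆ Ioo 2 (2 + ε) := Ioo_subset_Ioo_right (by linarith)
  exact ⟨h.cont.mono (prod_mono h1 le_rfl), h.cont'.mono (prod_mono h1 le_rfl),
    fun p hp => h.der p (h1 hp), fun p hp => h.c2 p (h2 hp), fun p hp => h.per p (h1 hp)⟩

theorem nonzero_near {ε : ℝ} (hε : 0 < ε) {F : ℝ × ℝ → ℝ}
    (hF : ContinuousOn F (Ico 2 (2 + ε) ×ˢ univ)) (h : ∀ t, F (2, t) ≠ 0) :
    ∃ ε' : ℝ, 0 < ε' ∧ ε' ≤ ε ∧ ∀ p ∈ Ico 2 (2 + ε'), ∀ t ∈ Icc (0 : ℝ) 1, F (p, t) ≠ 0 := by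
  have h1 : ∀ᶠ p in 𝓝 (2 : ℝ), ∀ t ∈ Icc (0 : ℝ) 1, (p ∈ Ico 2 (2 + ε) → F (p, t) ≠ 0) := by
    refine isCompact_Icc.eventually_forall_of_forall_eventually ?_
    intro t _
    have h2 := hF (2, t) ⟨⟨le_rfl, by linarith⟩, trivial⟩
    have h3 : ∀ᶠ z in 𝓝[Ico 2 (2 + ε) ×ˢ univ] (2, t), F z ≠ 0 :=
      h2.eventually (isOpen_ne.mem_nhds (h t))
    rw [eventually_nhdsWithin_iff] at h3
    filter_upwards [h3] with z hz hz1
    exact hz ⟨hz1, trivial⟩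
  obtain ⟨r, hr, hr'⟩ := Metric.eventually_nhds_iff.1 h1
  refine ⟨min r ε, lt_min hr hε, min_le_right _ _, ?_⟩
  intro p hp t ht
  have := min_le_left r ε
  have := min_le_right r ε
  refine hr' ?_ t ht ⟨hp.1, by linarith [hp.2]⟩
  rw [Real.dist_eq, abs_lt]
  constructor
  · linarith [hp.1]
  · linarith [hp.2]

theorem continuous_det2 : Continuous fun z : (ℝ × ℝ) × (ℝ × ℝ) => det2 z.1 z.2 := by
  unfold det2
  fun_prop

theorem exists_mem_Icc_of_add_one {P : ℝ → Prop} (hP : ∀ t, P (t + 1) ↔ P t)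
    (h : ∀ t ∈ Icc (0 : ℝ) 1, P t) (t : ℝ) : P t := by
  have h1 : ∀ (n : ℤ) (t : ℝ), P (t + n) ↔ P t := by
    intro n
    induction n using Int.induction_on with
    | zero => simp
    | succ n ih =>
      intro t
      rw [show t + ((n + 1 : ℤ) : ℝ) = t + (n : ℤ) + 1 by push_cast; ring, hP, ih]
    | pred n ih =>
      intro t
      rw [← hP, show t + ((-n - 1 : ℤ) : ℝ) + 1 = t + ((-n : ℤ) : ℝ) by push_cast; ring, ih]
  have h2 := (h1 (-⌊t⌋) t).1 (h _ ?_)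
  · exact h2
  · have := Int.floor_le t
    have := Int.lt_floor_add_one t
    push_cast
    constructor <;> linarith

theorem sum_curve {ε : ℝ} {c c' : ℝ → ℝ → ℝ × ℝ} (hc : Curve ε c c') {T T' : ℝ → ℝ → ℝ}
    (hTc : ContinuousOn (fun z : ℝ × ℝ => T z.1 z.2) (Ico 2 (2 + ε) ×ˢ univ))
    (hT'c : ContinuousOn (fun z : ℝ × ℝ => T' z.1 z.2) (Ico 2 (2 + ε) ×ˢ univ))
    (hT : ∀ p ∈ Ico 2 (2 + ε), ∀ t, HasDerivAt (T p) (T' p t) t)
    (hT2 : ∀ p ∈ Ioo 2 (2 + ε), ContDiff ℝ 2 (T p))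
    (hTa : ∀ p ∈ Ico 2 (2 + ε), ∀ t, T p (t + 1) = T p t + 1) :
    Curve ε (fun p t => c p t + c p (T p t)) (fun p t => c' p t + T' p t • c' p (T p t)) := by
  have hmaps : MapsTo (fun z : ℝ × ℝ => (z.1, T z.1 z.2)) (Ico 2 (2 + ε) ×ˢ univ)
      (Ico 2 (2 + ε) ×ˢ univ) := fun z hz => ⟨hz.1, trivial⟩
  have hpT : ContinuousOn (fun z : ℝ × ℝ => (z.1, T z.1 z.2)) (Ico 2 (2 + ε) ×ˢ univ) :=
    continuousOn_fst.prodMk hTc
  have k1 : ContinuousOn (fun z : ℝ × ℝ => c z.1 (T z.1 z.2)) (Ico 2 (2 + ε) ×ˢ univ) :=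
    hc.cont.comp hpT hmaps
  have k2 : ContinuousOn (fun z : ℝ × ℝ => c' z.1 (T z.1 z.2)) (Ico 2 (2 + ε) ×ˢ univ) :=
    hc.cont'.comp hpT hmaps
  have k3 : ∀ p ∈ Ioo 2 (2 + ε), ContDiff ℝ 2 fun t => c p (T p t) := by
    intro p hp
    exact ContDiff.comp (hc.c2 p hp) (hT2 p hp)
  have k4 : ∀ p ∈ Ico 2 (2 + ε), ∀ t, HasDerivAt (fun s => c p (T p s))
      (T' p t • c' p (T p t)) t := by
    intro p hp t
    exact HasDerivAt.scomp t (hc.der p hp (T p t)) (hT p hp t)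
  refine ⟨hc.cont.add k1, hc.cont'.add (hT'c.smul k2), fun p hp t => (hc.der p hp t).add
    (k4 p hp t), fun p hp => (hc.c2 p hp).add (k3 p hp), fun p hp t => ?_⟩
  rw [hTa p hp t, hc.per p hp, hc.per p hp]

theorem family : ∃ (ε α : ℝ) (T ρ : ℝ → ℝ → ℝ), 0 < ε ∧ Irrational α ∧
    ContinuousOn (fun z : ℝ × ℝ => ρ z.1 z.2) (Ico 2 (2 + ε) ×ˢ univ) ∧ (∀ t, ρ 2 t = t + α) ∧
    (∀ p ∈ Ico 2 (2 + ε), StrictMono (ρ p) ∧ ∀ t, ρ p (t + 1) = ρ p t + 1) ∧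
    ∀ p ∈ Ioo 2 (2 + ε), Config {v | hp p v = 1} (gam p) (T p) (ρ p) := by
  obtain ⟨gam', hcurve, hgam2, hdir⟩ := gam_curve
  have e2 : gam 2 = ee := funext gam_two
  have e2' : gam' 2 = ee' := funext hgam2
  obtain ⟨ε₁, hε₁, -, ht1⟩ := tube one_pos (hcurve 1 one_pos) (a := 1 / 12) (b := 1 / 4)
    (by norm_num) (by rw [e2]; exact fun t => (euclid1 t).1)
    (by rw [e2]; exact fun t => (euclid1 t).2.1)
    (by rw [e2, e2']; exact fun t s hs => ((euclid1 t).2.2.1 s hs).1)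
    (by rw [e2, e2']; exact fun t s hs => ((euclid1 t).2.2.1 s hs).2)
  have hc1 := hcurve ε₁ hε₁
  obtain ⟨T, T', hTc, hT'c, hT, hT2, hTu⟩ := imp hε₁ hc1 (by norm_num) ht1
  have hTtwo : ∀ t, T 2 t = t + 1 / 6 := by
    intro t
    refine (hTu t (t + 1 / 6) ⟨by linarith, by linarith⟩ ?_).symm
    rw [e2]
    exact (euclid1 t).2.2.2
  have h2mem : (2 : ℝ) ∈ Ico (2 : ℝ) (2 + ε₁) := ⟨le_rfl, by linarith⟩
  have hT'two : ∀ t, T' 2 t = 1 := by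
    intro t
    have h1 := (hT 2 h2mem t).1
    have h2 : HasDerivAt (T 2) 1 t := by
      rw [funext hTtwo]
      exact (hasDerivAt_id t).add_const _
    exact h1.unique h2
  -- the second curve
  obtain ⟨w, hw⟩ : ∃ w : ℝ → ℝ → ℝ × ℝ, w = fun p t => gam p t + gam p (T p t) := ⟨_, rfl⟩
  obtain ⟨w', hw'⟩ : ∃ w' : ℝ → ℝ → ℝ × ℝ,
    w' = fun p t => gam' p t + T' p t • gam' p (T p t) := ⟨_, rfl⟩
  have hwcurve : Curve ε₁ w w' := by
    rw [hw, hw']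
    exact sum_curve hc1 hTc hT'c (fun p hp t => (hT p hp t).1) hT2 fun p hp t =>
      (hT p hp t).2.2.1
  have hw2 : ∀ t, w 2 t = ee t + ee (t + 1 / 6) := by
    intro t
    rw [hw]
    simp only [e2, hTtwo]
  have hw2' : ∀ t, w' 2 t = ee' t + ee' (t + 1 / 6) := by
    intro t
    rw [hw']
    simp only [e2', hTtwo, hT'two, one_smul]
  obtain ⟨heu, α, hα, hirr, hαt⟩ := euclid2
  obtain ⟨ε₂, hε₂, hε₂₁, ht2⟩ := tube hε₁ hwcurve (a := 1 / 24) (b := 1 / 6) (by norm_num)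
    (fun t => by rw [hw2, hw2]; exact (heu t).1)
    (fun t => by rw [hw2, hw2]; exact (heu t).2.1)
    (fun t s hs => by rw [hw2, hw2, hw2']; exact ((heu t).2.2 s hs).1)
    (fun t s hs => by rw [hw2, hw2, hw2']; exact ((heu t).2.2 s hs).2)
  have hwc2 := hwcurve.mono hε₂₁
  obtain ⟨ρ, ρ', hρc, hρ'c, hρ, hρ2, hρu⟩ := imp hε₂ hwc2 (by norm_num) ht2
  have hρtwo : ∀ t, ρ 2 t = t + α := by
    intro t
    refine (hρu t (t + α) ⟨by linarith [hα.1], by linarith [hα.2]⟩ ?_).symm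
    rw [hw2, hw2]
    exact (hαt t).1
  -- transversality
  have hmaps2 : MapsTo (fun z : ℝ × ℝ => (z.1, ρ z.1 z.2)) (Ico 2 (2 + ε₂) ×ˢ univ)
      (Ico 2 (2 + ε₂) ×ˢ univ) := fun z hz => ⟨hz.1, trivial⟩
  have hpρ : ContinuousOn (fun z : ℝ × ℝ => (z.1, ρ z.1 z.2)) (Ico 2 (2 + ε₂) ×ˢ univ) :=
    continuousOn_fst.prodMk hρc
  have hdet : ContinuousOn (fun z : ℝ × ℝ => det2 (w' z.1 z.2) (w' z.1 (ρ z.1 z.2)))
      (Ico 2 (2 + ε₂) ×ˢ univ) :=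
    continuous_det2.comp_continuousOn (hwc2.cont'.prodMk (hwc2.cont'.comp hpρ hmaps2))
  obtain ⟨ε₃, hε₃, hε₃₂, hnz⟩ := nonzero_near hε₂ hdet (fun t => by
    simp only
    rw [hρtwo, hw2', hw2']
    exact (hαt t).2)
  have hs1 : Ico 2 (2 + ε₃) ⊆ Ico 2 (2 + ε₂) := Ico_subset_Ico_right (by linarith)
  have hs2 : Ico 2 (2 + ε₂) ⊆ Ico 2 (2 + ε₁) := Ico_subset_Ico_right (by linarith)
  have hper' : ∀ p ∈ Ico 2 (2 + ε₂), ∀ t, w' p (t + 1) = w' p t := by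
    intro p hp t
    have h1 : HasDerivAt (fun s => w p (s + 1)) (w' p (t + 1)) t :=
      (hwc2.der p hp (t + 1)).comp_add_const t 1
    have h2 : (fun s => w p (s + 1)) = w p := funext (hwc2.per p hp)
    rw [h2] at h1
    exact h1.unique (hwc2.der p hp t)
  refine ⟨ε₃, α, T, ρ, hε₃, hirr, hρc.mono (prod_mono hs1 le_rfl), hρtwo, ?_, ?_⟩
  · intro p hp
    exact ⟨strictMono_of_hasDerivAt_pos (fun t => (hρ p (hs1 hp) t).1)
      (fun t => (hρ p (hs1 hp) t).2.1), fun t => (hρ p (hs1 hp) t).2.2.1⟩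
  · intro p hp
    have hp3 : p ∈ Ico 2 (2 + ε₃) := Ioo_subset_Ico_self hp
    have hp2 : p ∈ Ico 2 (2 + ε₂) := hs1 hp3
    have hp1 : p ∈ Ico 2 (2 + ε₁) := hs2 hp2
    have hp2o : p ∈ Ioo 2 (2 + ε₂) := ⟨hp.1, hp2.2⟩
    have hp1o : p ∈ Ioo 2 (2 + ε₁) := ⟨hp.1, hp1.2⟩
    have hwp : (fun s => gam p s + gam p (T p s)) = w p := by rw [hw]
    have dw : ∀ t, deriv (fun s => gam p s + gam p (T p s)) t = w' p t := by
      intro t
      rw [hwp]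
      exact (hwc2.der p hp2 t).deriv
    exact
    { γ_c := (hc1.c2 p hp1o).of_le (by norm_num)
      γ_per := hc1.per p hp1
      γ_mem := fun t => hp_gam (by linarith [hp.1]) t
      T_c := (hT2 p hp1o).of_le (by norm_num)
      T_pos := fun t => by
        rw [(hT p hp1 t).1.deriv]
        exact (hT p hp1 t).2.1
      T_add := fun t => (hT p hp1 t).2.2.1
      γT := fun t => (hT p hp1 t).2.2.2.2
      ρ_c := hρ2 p hp2o
      ρ_pos := fun t => by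
        rw [(hρ p hp2 t).1.deriv]
        exact (hρ p hp2 t).2.1
      ρ_add := fun t => (hρ p hp2 t).2.2.1
      wρ := fun t => by
        have := (hρ p hp2 t).2.2.2.2
        rw [hw] at this
        exact this
      dir := fun v hv => by
        filter_upwards [hdir p hp.1.le v hv] with t ht
        rw [(hc1.der p hp1 t).deriv]
        exact ht
      ww := fun t => by
        rw [dw, dw]
        refine exists_mem_Icc_of_add_one
          (P := fun t => det2 (w' p t) (w' p (ρ p t)) ≠ 0) (fun t => ?_) (fun t ht => ?_) t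
        · rw [(hρ p hp2 t).2.2.1, hper' p hp2, hper' p hp2]
        · exact hnz p hp3 t ht }

end Pool.Agent.Helper2.LM
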