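import Pool.Agent.Helper2.LM.G1

open Set MeasureTheory Filter Topology Metric

namespace Pool.Agent.Helper2.LM

private theorem g2_ee_ne (t : ℝ) : (ee t).1 ≠ 0 ∨ (ee t).2 ≠ 0 := by
  by_contra h
  push Not at h
  have h1 : Real.cos (2 * Real.pi * t) = 0 := h.1
  have h2 : Real.sin (2 * Real.pi * t) = 0 := h.2
  have := Real.sin_sq_add_cos_sq (2 * Real.pi * t)
  rw [h1, h2] at this
  norm_num at this

private theorem g2_k_pos (p t : ℝ) : 0 < hp p (ee t) := by
  unfold hp
  rcases g2_ee_ne t with h | h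
  · have h1 := Real.rpow_pos_of_pos (abs_pos.2 h) p
    have h2 := Real.rpow_nonneg (abs_nonneg (ee t).2) p
    linarith
  · have h1 := Real.rpow_pos_of_pos (abs_pos.2 h) p
    have h2 := Real.rpow_nonneg (abs_nonneg (ee t).1) p
    linarith

private theorem g2_hp_smul (p c : ℝ) (hc : 0 ≤ c) (v : ℝ × ℝ) : hp p (c • v) = c ^ p * hp p v := by
  unfold hp
  simp only [Prod.smul_fst, Prod.smul_snd, smul_eq_mul, abs_mul, abs_of_nonneg hc]
  rw [Real.mul_rpow hc (abs_nonneg _), Real.mul_rpow hc (abs_nonneg _)]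
  ring

theorem hp_gam {p : ℝ} (h : 0 < p) (t : ℝ) : hp p (gam p t) = 1 := by
  have hk := g2_k_pos p t
  unfold gam
  rw [g2_hp_smul p _ (Real.rpow_nonneg hk.le _), ← Real.rpow_mul hk.le]
  have : -(1 / p) * p = -1 := by field_simp
  rw [this, Real.rpow_neg_one]
  exact inv_mul_cancel₀ hk.ne'

private theorem g2_hp2_ee (t : ℝ) : hp 2 (ee t) = 1 := by
  rw [hp_two]
  unfold ee
  exact Real.cos_sq_add_sin_sq _

theorem gam_two (t : ℝ) : gam 2 t = ee t := by
  unfold gam
  rw [g2_hp2_ee, Real.one_rpow, one_smul]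

private theorem g2_hasDerivAt_ee (t : ℝ) : HasDerivAt ee (ee' t) t := by
  have h0 : HasDerivAt (fun s : ℝ => 2 * Real.pi * s) (2 * Real.pi) t := by
    simpa using (hasDerivAt_id t).const_mul (2 * Real.pi)
  have h1 := h0.cos
  have h2 := h0.sin
  have h3 : HasDerivAt (fun s => (Real.cos (2 * Real.pi * s), Real.sin (2 * Real.pi * s)))
      (-Real.sin (2 * Real.pi * t) * (2 * Real.pi), Real.cos (2 * Real.pi * t) * (2 * Real.pi)) t :=
    h1.prodMk h2
  have e : ee' t = (-Real.sin (2 * Real.pi * t) * (2 * Real.pi),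
      Real.cos (2 * Real.pi * t) * (2 * Real.pi)) := by
    unfold ee'
    ext
    · simp only; ring
    · simp only; ring
  rw [e]
  exact h3

private theorem g2_contDiff_ee : ContDiff ℝ 2 ee := by
  unfold ee
  fun_prop

private theorem g2_cont_ee : Continuous ee := by
  unfold ee
  fun_prop

private theorem g2_cont_ee' : Continuous ee' := by
  unfold ee'
  fun_prop

/-- explicit derivative -/
private noncomputable def g2d (p t : ℝ) : ℝ × ℝ :=
  (hp p (ee t)) ^ (-(1 / p)) • ee' t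
    + (Dhp p (ee t) (ee' t) * (-(1 / p)) * (hp p (ee t)) ^ (-(1 / p) - 1)) • ee t

private theorem g2_der {p : ℝ} (h : 1 < p) (t : ℝ) : HasDerivAt (gam p) (g2d p t) t := by
  have h1 := hasDerivAt_hp h (g2_hasDerivAt_ee t)
  have h2 := h1.rpow_const (p := -(1 / p)) (Or.inl (g2_k_pos p t).ne')
  exact h2.smul (g2_hasDerivAt_ee t)

private theorem g2_contk (s : Set ℝ) (hs : s ⊆ Ioi 1) :
    ContinuousOn (fun z : ℝ × ℝ => hp z.1 (ee z.2)) (s ×ˢ univ) := by
  have h : ContinuousOn (fun z : ℝ × ℝ => ((z.1, ee z.2) : ℝ × (ℝ × ℝ))) (s ×ˢ univ) := by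
    apply Continuous.continuousOn
    exact continuous_fst.prodMk (g2_cont_ee.comp continuous_snd)
  exact continuousOn_hp.comp h (fun z hz => ⟨hs hz.1, mem_univ _⟩)

private theorem g2_contD (s : Set ℝ) (hs : s ⊆ Ioi 1) :
    ContinuousOn (fun z : ℝ × ℝ => Dhp z.1 (ee z.2) (ee' z.2)) (s ×ˢ univ) := by
  have h : ContinuousOn (fun z : ℝ × ℝ => ((z.1, ee z.2, ee' z.2) : ℝ × (ℝ × ℝ) × (ℝ × ℝ)))
      (s ×ˢ univ) := by
    apply Continuous.continuousOn
    exact continuous_fst.prodMk ((g2_cont_ee.comp continuous_snd).prodMk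
      (g2_cont_ee'.comp continuous_snd))
  exact continuousOn_Dhp.comp h (fun z hz => ⟨hs hz.1, mem_univ _⟩)

private theorem g2_inv (s : Set ℝ) (hs : s ⊆ Ioi 1) :
    ContinuousOn (fun z : ℝ × ℝ => -(1 / z.1)) (s ×ˢ univ) := by
  apply ContinuousOn.neg
  apply ContinuousOn.div continuousOn_const continuousOn_fst
  intro z hz
  have : (1 : ℝ) < z.1 := hs hz.1
  linarith

private theorem g2_curve (ε : ℝ) : Curve ε gam g2d := by
  have hs : Ico (2 : ℝ) (2 + ε) ⊆ Ioi 1 := by
    intro x hx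
    have : (2 : ℝ) ≤ x := hx.1
    exact lt_of_lt_of_le (by norm_num) this
  have hee : ContinuousOn (fun z : ℝ × ℝ => ee z.2) (Ico (2 : ℝ) (2 + ε) ×ˢ univ) :=
    (g2_cont_ee.comp continuous_snd).continuousOn
  have hee' : ContinuousOn (fun z : ℝ × ℝ => ee' z.2) (Ico (2 : ℝ) (2 + ε) ×ˢ univ) :=
    (g2_cont_ee'.comp continuous_snd).continuousOn
  have hA : ContinuousOn (fun z : ℝ × ℝ => (hp z.1 (ee z.2)) ^ (-(1 / z.1)))
      (Ico (2 : ℝ) (2 + ε) ×ˢ univ) := by
    apply (g2_contk _ hs).rpow (g2_inv _ hs)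
    intro z _
    exact Or.inl (g2_k_pos _ _).ne'
  have hB : ContinuousOn (fun z : ℝ × ℝ => (hp z.1 (ee z.2)) ^ (-(1 / z.1) - 1))
      (Ico (2 : ℝ) (2 + ε) ×ˢ univ) := by
    apply (g2_contk _ hs).rpow ((g2_inv _ hs).sub continuousOn_const)
    intro z _
    exact Or.inl (g2_k_pos _ _).ne'
  refine ⟨?_, ?_, ?_, ?_, ?_⟩
  · exact hA.smul hee
  · exact (hA.smul hee').add ((((g2_contD _ hs).mul (g2_inv _ hs)).mul hB).smul hee)
  · intro p hp t
    exact g2_der (lt_of_lt_of_le (by norm_num) hp.1) t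
  · intro p hp
    have h1 : ContDiff ℝ 2 (fun t => (LM.hp p (ee t)) ^ (-(1 / p))) := by
      apply ContDiff.rpow_const_of_ne
      · exact (contDiff_hp2 hp.1).comp g2_contDiff_ee
      · intro t; exact (g2_k_pos p t).ne'
    exact h1.smul g2_contDiff_ee
  · intro p hp t
    have e : ee (t + 1) = ee t := by
      unfold ee
      have : 2 * Real.pi * (t + 1) = 2 * Real.pi * t + 2 * Real.pi := by ring
      rw [this, Real.cos_add_two_pi, Real.sin_add_two_pi]
    unfold gam
    rw [e]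

private theorem g2_op_mul (p x y : ℝ) : op p (x * y) = op p x * op p y := by
  unfold op
  rw [abs_mul, Real.mul_rpow (abs_nonneg _) (abs_nonneg _)]
  ring

private theorem g2_op_lt {p : ℝ} (h : 2 ≤ p) {x y : ℝ} (hxy : |x| < |y|) : |op p x| < |op p y| := by
  unfold op
  rw [abs_mul, abs_mul, abs_of_nonneg (Real.rpow_nonneg (abs_nonneg x) _),
    abs_of_nonneg (Real.rpow_nonneg (abs_nonneg y) _)]
  have hy : 0 < |y| := lt_of_le_of_lt (abs_nonneg x) hxy
  calc |x| ^ (p - 2) * |x| ≤ |y| ^ (p - 2) * |x| := by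
        apply mul_le_mul_of_nonneg_right _ (abs_nonneg x)
        exact Real.rpow_le_rpow (abs_nonneg x) hxy.le (by linarith)
    _ < |y| ^ (p - 2) * |y| := by
        apply mul_lt_mul_of_pos_left hxy
        exact Real.rpow_pos_of_pos hy _

private theorem g2_op_inj {p : ℝ} (h : 2 ≤ p) {x y : ℝ} (hxy : op p x = op p y) : x = y := by
  have habs : |x| = |y| := by
    rcases lt_trichotomy |x| |y| with h1 | h1 | h1
    · exact absurd (g2_op_lt h h1) (by rw [hxy]; exact lt_irrefl _)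
    · exact h1
    · exact absurd (g2_op_lt h h1) (by rw [hxy]; exact lt_irrefl _)
  rcases eq_or_lt_of_le (abs_nonneg y) with h0 | h0
  · have hy : y = 0 := abs_eq_zero.1 h0.symm
    have hx : x = 0 := abs_eq_zero.1 (by rw [habs, ← h0])
    rw [hx, hy]
  · unfold op at hxy
    rw [habs] at hxy
    exact mul_left_cancel₀ (Real.rpow_pos_of_pos h0 _).ne' hxy

private theorem g2_Dhp_smul_left (p c : ℝ) (v u : ℝ × ℝ) :
    Dhp p (c • v) u = op p c * Dhp p v u := by
  unfold Dhp
  simp only [Prod.smul_fst, Prod.smul_snd, smul_eq_mul, g2_op_mul]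
  ring

private theorem g2_tangent {p : ℝ} (h : 2 ≤ p) (t : ℝ) : Dhp p (gam p t) (g2d p t) = 0 := by
  have h1 : HasDerivAt (fun s => hp p (gam p s)) (Dhp p (gam p t) (g2d p t)) t :=
    hasDerivAt_hp (by linarith) (g2_der (by linarith) t)
  have h2 : (fun s => hp p (gam p s)) = fun _ => (1 : ℝ) := by
    funext s; exact hp_gam (by linarith) s
  rw [h2] at h1
  exact h1.unique (hasDerivAt_const t 1)

private theorem g2_det (p t : ℝ) : det2 (ee t) (g2d p t) = (hp p (ee t)) ^ (-(1 / p)) * (2 * Real.pi) := by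
  unfold det2 g2d
  have hs := Real.sin_sq_add_cos_sq (2 * Real.pi * t)
  simp only [ee, ee', Prod.fst_add, Prod.snd_add, Prod.smul_fst, Prod.smul_snd, smul_eq_mul]
  set c := Real.cos (2 * Real.pi * t)
  set s := Real.sin (2 * Real.pi * t)
  set A := hp p (c, s) ^ (-(1 / p))
  have : c ^ 2 = 1 - s ^ 2 := by linarith
  ring_nf
  rw [this]
  ring

private theorem g2_zero {p : ℝ} (h : 2 ≤ p) {v : ℝ × ℝ} {t : ℝ}
    (ht : det2 v (g2d p t) = 0) : op p (ee t).1 * v.1 + op p (ee t).2 * v.2 = 0 := by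
  have hk := g2_k_pos p t
  have hA : 0 < (hp p (ee t)) ^ (-(1 / p)) := Real.rpow_pos_of_pos hk _
  have hT := g2_tangent h t
  unfold gam at hT
  rw [g2_Dhp_smul_left p _] at hT
  have hop : op p ((hp p (ee t)) ^ (-(1 / p))) ≠ 0 := by
    unfold op
    exact mul_ne_zero (Real.rpow_pos_of_pos (abs_pos.2 hA.ne') _).ne' hA.ne'
  have hD : Dhp p (ee t) (g2d p t) = 0 := by
    rcases mul_eq_zero.1 hT with h1 | h1
    · exact absurd h1 hop
    · exact h1
  have hdet := g2_det p t
  have hdet0 : det2 (ee t) (g2d p t) ≠ 0 := by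
    rw [hdet]; positivity
  set u := g2d p t with hu
  unfold Dhp at hD
  have hD' : op p (ee t).1 * u.1 + op p (ee t).2 * u.2 = 0 := by
    rcases mul_eq_zero.1 hD with h1 | h1
    · linarith
    · exact h1
  unfold det2 at ht hdet0
  -- `v` is parallel to `u ≠ 0`
  by_cases hu1 : u.1 = 0
  · have hu2 : u.2 ≠ 0 := by
      intro h2
      apply hdet0
      rw [hu1, h2]; ring
    have hv1 : v.1 = 0 := by
      rw [hu1, mul_zero, sub_zero] at ht
      exact (mul_eq_zero.1 ht).resolve_right hu2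
    have ho : op p (ee t).2 = 0 := by
      rw [hu1, mul_zero, zero_add] at hD'
      exact (mul_eq_zero.1 hD').resolve_right hu2
    rw [hv1, ho]; ring
  · have h3 : u.1 * (op p (ee t).1 * v.1 + op p (ee t).2 * v.2)
        = v.1 * (op p (ee t).1 * u.1 + op p (ee t).2 * u.2)
          - op p (ee t).2 * (v.1 * u.2 - v.2 * u.1) := by ring
    rw [hD', ht] at h3
    have h4 : u.1 * (op p (ee t).1 * v.1 + op p (ee t).2 * v.2) = 0 := by rw [h3]; ring
    exact (mul_eq_zero.1 h4).resolve_left hu1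

private theorem g2_sin {p : ℝ} (h : 2 ≤ p) {v : ℝ × ℝ} (hv : v ≠ 0) {s t : ℝ}
    (hs : op p (ee s).1 * v.1 + op p (ee s).2 * v.2 = 0)
    (ht : op p (ee t).1 * v.1 + op p (ee t).2 * v.2 = 0) :
    Real.sin (2 * Real.pi * t - 2 * Real.pi * s) = 0 := by
  have hdet : op p (ee t).1 * op p (ee s).2 - op p (ee t).2 * op p (ee s).1 = 0 := by
    have a1 : v.1 * (op p (ee t).1 * op p (ee s).2 - op p (ee t).2 * op p (ee s).1) = 0 := by
      linear_combination op p (ee s).2 * ht - op p (ee t).2 * hs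
    have a2 : v.2 * (op p (ee t).1 * op p (ee s).2 - op p (ee t).2 * op p (ee s).1) = 0 := by
      linear_combination op p (ee t).1 * hs - op p (ee s).1 * ht
    by_contra hne
    apply hv
    have b1 : v.1 = 0 := (mul_eq_zero.1 a1).resolve_right hne
    have b2 : v.2 = 0 := (mul_eq_zero.1 a2).resolve_right hne
    exact Prod.ext b1 b2
  have h1 : op p ((ee t).1 * (ee s).2) = op p ((ee t).2 * (ee s).1) := by
    rw [g2_op_mul, g2_op_mul]; linarith
  have h2 := g2_op_inj h h1
  have h3 : Real.cos (2 * Real.pi * t) * Real.sin (2 * Real.pi * s)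
      = Real.sin (2 * Real.pi * t) * Real.cos (2 * Real.pi * s) := h2
  rw [Real.sin_sub]
  linarith

/-- The curves `gam p` form a family in the sense of `Curve`; explicit derivative
gam' p t = k^(-1/p) • ee' t - (1/p) k^(-1/p-1) k' • ee t with k = hp p (ee t) > 0,
k' = Dhp p (ee t) (ee' t). Last part: Dhp p (gam p t) (gam' p t) = 0 and gam' p t ≠ 0, so
det2 v (gam' p t) = 0 means that gam' p t is a multiple of v, Dhp p (gam p t) v = 0, i.e.
op p (cos) v.1 + op p (sin) v.2 = 0, i.e. (op p is odd and multiplicative, injective)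
cos (2 π t) m₁ + sin (2 π t) m₂ = 0 with m_i = sign(v_i) |v_i|^(1/(p-1)) not both zero, which
happens only for countably many t (two solutions differ by a half integer). -/
theorem gam_curve : ∃ gam' : ℝ → ℝ → ℝ × ℝ, (∀ ε : ℝ, 0 < ε → Curve ε gam gam') ∧
    (∀ t, gam' 2 t = ee' t) ∧
    (∀ p : ℝ, 2 ≤ p → ∀ v : ℝ × ℝ, v ≠ 0 → ∀ᵐ t : ℝ, det2 v (gam' p t) ≠ 0) := by
  refine ⟨g2d, fun ε _ => g2_curve ε, ?_, ?_⟩
  · intro t
    unfold g2d
    rw [g2_hp2_ee, Real.one_rpow, one_smul, Dhp_two]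
    have : (ee t).1 * (ee' t).1 + (ee t).2 * (ee' t).2 = 0 := by
      unfold ee ee'; simp only; ring
    rw [this]
    simp
  · intro p h v hv
    by_cases hne : ∃ s, det2 v (g2d p s) = 0
    · obtain ⟨s, hs⟩ := hne
      have hcount : (range (fun n : ℤ => s + (n : ℝ) / 2)).Countable := countable_range _
      filter_upwards [hcount.ae_notMem volume] with t ht hdt
      apply ht
      have hsin := g2_sin h hv (g2_zero h hs) (g2_zero h hdt)
      obtain ⟨n, hn⟩ := Real.sin_eq_zero_iff.1 hsin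
      refine ⟨n, ?_⟩
      have hpi := Real.pi_pos
      have h5 : Real.pi * (n : ℝ) = Real.pi * (2 * (t - s)) := by linarith
      have h6 := mul_left_cancel₀ hpi.ne' h5
      simp only
      linarith
    · push Not at hne
      exact Filter.Eventually.of_forall hne

end Pool.Agent.Helper2.LM
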