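import Pool.Agent.Helper2.LM.F2

/-!
# Lebesgue measurable colourings of `l_p` planes need at least five colours for
# uncountably many `p`
-/

namespace Pool.Agent.Helper2.LM.LebesgueFourOld

/-- For every `δ > 0` there are uncountably many `p` between `2` and `2 + δ` such that every
colouring of the plane with four colours and Lebesgue measurable classes has two points of the
same colour at `l_p` distance exactly one. -/
theorem lebesgueFour (δ : ℝ) (hδ : 0 < δ) :
    ¬ {p : ℝ | 2 < p ∧ p < 2 + δ ∧
      ∀ κ : ℝ × ℝ → Fin 4,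
        (∀ i, MeasureTheory.NullMeasurableSet (κ ⁻¹' {i}) MeasureTheory.volume) →
          ∃ x y : ℝ × ℝ, κ x = κ y ∧ |x.1 - y.1| ^ p + |x.2 - y.2| ^ p = 1}.Countable :=
  Pool.Agent.Helper2.LM.main hδ

end Pool.Agent.Helper2.LM.LebesgueFourOld
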