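import Pool.Agent.Helper2.LM.Defs

open Set MeasureTheory Filter Topology Metric

namespace Pool.Agent.Helper2.LM

variable {D : Set (ℝ × ℝ)} {A : Fin 4 → Set (ℝ × ℝ)}

theorem rad_pos (n : ℕ) : 0 < rad n := by
  unfold rad
  positivity

theorem tendsto_rad : Tendsto rad atTop (𝓝[>] 0) := by
  rw [tendsto_nhdsWithin_iff]
  refine ⟨tendsto_pow_atTop_nhds_zero_of_lt_one (by norm_num) (by norm_num), ?_⟩
  exact Eventually.of_forall fun n => rad_pos n

theorem vol_ball_pos (n : ℕ) (x : ℝ × ℝ) : 0 < volume (closedBall x (rad n)) :=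
  measure_closedBall_pos _ _ (rad_pos n)

theorem vol_ball_lt (n : ℕ) (x : ℝ × ℝ) : volume (closedBall x (rad n)) < ⊤ :=
  measure_closedBall_lt_top

theorem dens_le_one (B : Set (ℝ × ℝ)) (n : ℕ) (x : ℝ × ℝ) : dens B n x ≤ 1 := by
  unfold dens
  refine ENNReal.div_le_of_le_mul ?_
  rw [one_mul]
  exact measure_mono inter_subset_right

theorem dens_add_le {B C : Set (ℝ × ℝ)} (hC : MeasurableSet C) (hd : Disjoint B C)
    (n : ℕ) (x : ℝ × ℝ) : dens B n x + dens C n x ≤ 1 := by
  unfold dens
  rw [← ENNReal.add_div]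
  refine ENNReal.div_le_of_le_mul ?_
  rw [one_mul, ← measure_union (hd.mono inter_subset_left inter_subset_left)
    (hC.inter measurableSet_closedBall)]
  exact measure_mono (union_subset inter_subset_right inter_subset_right)

theorem sum_dens (h : Avoid D A) (n : ℕ) (x : ℝ × ℝ) : ∑ i, dens (A i) n x = 1 := by
  unfold dens
  simp only [div_eq_mul_inv]
  rw [← Finset.sum_mul]
  have h1 : ∑ i, volume (A i ∩ closedBall x (rad n)) = volume (closedBall x (rad n)) := by
    rw [← tsum_fintype (L := .unconditional _), ← measure_iUnion]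
    · apply measure_congr
      filter_upwards [h.cover] with y hy
      apply propext
      constructor
      · intro hy2
        obtain ⟨i, hi⟩ := mem_iUnion.1 hy2
        exact hi.2
      · intro hy2
        obtain ⟨i, hi⟩ := hy
        exact mem_iUnion.2 ⟨i, hi, hy2⟩
    · intro i j hij
      exact (h.disj i j hij).mono inter_subset_left inter_subset_left
    · intro i
      exact (h.meas i).inter measurableSet_closedBall
  rw [h1]
  exact ENNReal.mul_inv_cancel (vol_ball_pos n x).ne' (vol_ball_lt n x).ne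

/-- Lebesgue density theorem (Besicovitch.ae_tendsto_measure_inter_div or
IsUnifLocDoublingMeasure.ae_tendsto_measure_inter_div). -/
theorem mix_null (h : Avoid D A) : volume (Mix A) = 0 := by
  have h1 : ∀ i, ∀ᵐ x : ℝ × ℝ, x ∈ A i → Dens1 (A i) x := by
    intro i
    have h2 := Besicovitch.ae_tendsto_measure_inter_div (volume : Measure (ℝ × ℝ)) (A i)
    rw [ae_restrict_iff' (h.meas i)] at h2
    filter_upwards [h2] with x hx hxA
    exact (hx hxA).comp tendsto_rad
  have h3 : ∀ᵐ x : ℝ × ℝ, ∀ i, x ∈ A i → Dens1 (A i) x := by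
    rw [ae_all_iff]
    exact h1
  have h4 : ∀ᵐ x : ℝ × ℝ, x ∉ Mix A := by
    filter_upwards [h3, h.cover] with x hx hc hm
    obtain ⟨i, hi⟩ := hc
    exact hm i (hx i hi)
  exact measure_eq_zero_iff_ae_notMem.2 h4

theorem dens1_unique (h : Avoid D A) {i j : Fin 4} {x : ℝ × ℝ} (hi : Dens1 (A i) x)
    (hj : Dens1 (A j) x) : i = j := by
  by_contra hij
  have h1 : Tendsto (fun n => dens (A i) n x + dens (A j) n x) atTop (𝓝 (1 + 1)) := hi.add hj
  have h2 : (1 : ENNReal) + 1 ≤ 1 :=
    le_of_tendsto' h1 fun n => dens_add_le (h.meas j) (h.disj i j hij) n x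
  have h3 : (1 : ENNReal) < 1 + 1 := by norm_num
  exact absurd h2 (not_le.2 h3)

theorem dens1_not_dens0 {B : Set (ℝ × ℝ)} {x : ℝ × ℝ} (h : Dens1 B x) : ¬ Dens0 B x := by
  intro h0
  exact one_ne_zero (tendsto_nhds_unique h h0)

theorem far_aux {B : Set (ℝ × ℝ)} (hB : MeasurableSet B) {x y : ℝ × ℝ} (hx : ¬ Dens0 B x)
    (hy : Dens1 B y) : ∃ z, x + z ∈ B ∧ y + z ∈ B := by
  -- some `ε` with infinitely many scales
  have h1 : ∃ ε : ENNReal, 0 < ε ∧ ∃ᶠ n in atTop, ε ≤ dens B n x := by
    by_contra hne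
    push Not at hne
    apply hx
    unfold Dens0
    rw [ENNReal.tendsto_nhds_zero]
    intro ε hε
    filter_upwards [hne ε hε] with n hn
    exact hn.le
  obtain ⟨ε, hε, hf⟩ := h1
  have h2 : ∀ᶠ n in atTop, 1 < ε + dens B n y := by
    have h3 : Tendsto (fun n => ε + dens B n y) atTop (𝓝 (ε + 1)) := tendsto_const_nhds.add hy
    have h4 : (1 : ENNReal) < ε + 1 := by
      rw [add_comm]
      exact ENNReal.lt_add_right (by norm_num) hε.ne'
    exact h3.eventually_const_lt h4
  obtain ⟨n, hn1, hn2⟩ := (hf.and_eventually h2).exists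
  by_contra hno
  push Not at hno
  -- translates
  set P : Set (ℝ × ℝ) := {z | x + z ∈ B} ∩ closedBall 0 (rad n) with hP
  set Q : Set (ℝ × ℝ) := {z | y + z ∈ B} ∩ closedBall 0 (rad n) with hQ
  have htr : ∀ w : ℝ × ℝ, volume ({z | w + z ∈ B} ∩ closedBall 0 (rad n)) =
      volume (B ∩ closedBall w (rad n)) := by
    intro w
    have e : {z | w + z ∈ B} ∩ closedBall 0 (rad n) = (fun z => w + z) ⁻¹' (B ∩ closedBall w (rad n)) := by
      ext z
      simp [mem_closedBall, dist_eq_norm]
    rw [e, measure_preimage_add]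
  have hbx : ∀ w : ℝ × ℝ, volume (closedBall w (rad n)) = volume (closedBall (0 : ℝ × ℝ) (rad n)) := by
    intro w
    exact Measure.addHaar_closedBall_center volume w (rad n)
  have hQm : MeasurableSet Q :=
    (measurableSet_preimage (measurable_const_add y) hB).inter measurableSet_closedBall
  have hd : Disjoint P Q := by
    rw [Set.disjoint_left]
    rintro z ⟨h1, -⟩ ⟨h2, -⟩
    exact hno z h1 h2
  have h5 : volume P + volume Q ≤ volume (closedBall (0 : ℝ × ℝ) (rad n)) := by
    rw [← measure_union hd hQm]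
    exact measure_mono (union_subset inter_subset_right inter_subset_right)
  have h6 : dens B n x + dens B n y ≤ 1 := by
    unfold dens
    rw [hbx x, hbx y, ← htr x, ← htr y, ← ENNReal.add_div]
    refine ENNReal.div_le_of_le_mul ?_
    rw [one_mul]
    exact h5
  exact absurd (lt_of_lt_of_le hn2 ((add_le_add_left hn1 _).trans h6)) (lt_irrefl _)

/-- If the proportion of `A i` around `x` does not tend to `0` and the one around `y` tends to
`1`, then some translate by `z` puts both `x + z`, `y + z` into `A i`. -/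
theorem far (h : Avoid D A) {i : Fin 4} {x y : ℝ × ℝ} (hx : ¬ Dens0 (A i) x)
    (hy : Dens1 (A i) y) : x - y ∉ D ∧ y - x ∉ D := by
  obtain ⟨z, h1, h2⟩ := far_aux (h.meas i) hx hy
  constructor
  · have := h.avoid i _ h1 _ h2
    rwa [add_sub_add_right_eq_sub] at this
  · have := h.avoid i _ h2 _ h1
    rwa [add_sub_add_right_eq_sub] at this

/-- The four proportions add up to one. -/
theorem two_classes (h : Avoid D A) {x : ℝ × ℝ} (hx : x ∈ Mix A) :
    ∃ i j, i ≠ j ∧ ¬ Dens0 (A i) x ∧ ¬ Dens0 (A j) x := by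
  by_contra hno
  push Not at hno
  by_cases hall : ∀ i, Dens0 (A i) x
  · have h1 : Tendsto (fun n => ∑ i, dens (A i) n x) atTop (𝓝 (∑ i : Fin 4, (0 : ENNReal))) :=
      tendsto_finsetSum _ fun i _ => hall i
    simp only [sum_dens h, Finset.sum_const_zero] at h1
    exact one_ne_zero (tendsto_nhds_unique tendsto_const_nhds h1)
  · push Not at hall
    obtain ⟨i, hi⟩ := hall
    have h2 : ∀ j, i ≠ j → Dens0 (A j) x := fun j hj => hno i j hj hi
    apply hx i
    have h3 : Tendsto (fun n => ∑ j ∈ Finset.univ.erase i, dens (A j) n x) atTop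
        (𝓝 (∑ j ∈ Finset.univ.erase i, (0 : ENNReal))) :=
      tendsto_finsetSum _ fun j hj => h2 j (Finset.ne_of_mem_erase hj).symm
    rw [Finset.sum_const_zero] at h3
    have h4 : ∀ n, dens (A i) n x = 1 - ∑ j ∈ Finset.univ.erase i, dens (A j) n x := by
      intro n
      have h5 := sum_dens h n x
      rw [← Finset.add_sum_erase _ _ (Finset.mem_univ i)] at h5
      have h6 : ∑ j ∈ Finset.univ.erase i, dens (A j) n x ≠ ⊤ := by
        have : ∑ j ∈ Finset.univ.erase i, dens (A j) n x ≤ 1 := by
          rw [← h5]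
          exact le_add_self
        exact (lt_of_le_of_lt this ENNReal.one_lt_top).ne
      exact ENNReal.eq_sub_of_add_eq h6 h5
    have h7 : Tendsto (fun n => 1 - ∑ j ∈ Finset.univ.erase i, dens (A j) n x) atTop (𝓝 (1 - 0)) :=
      ENNReal.Tendsto.sub tendsto_const_nhds h3 (Or.inl ENNReal.one_ne_top)
    rw [tsub_zero] at h7
    unfold Dens1
    simp only [h4]
    exact h7

theorem measurable_dens {B : Set (ℝ × ℝ)} (hB : MeasurableSet B) (n : ℕ) :
    Measurable fun x => dens B n x := by
  unfold dens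
  have hbx : ∀ w : ℝ × ℝ, volume (closedBall w (rad n)) = volume (closedBall (0 : ℝ × ℝ) (rad n)) :=
    fun w => Measure.addHaar_closedBall_center volume w (rad n)
  simp only [hbx]
  apply Measurable.div_const
  have hs : MeasurableSet {p : (ℝ × ℝ) × (ℝ × ℝ) | p.2 ∈ B ∧ dist p.2 p.1 ≤ rad n} := by
    apply MeasurableSet.inter
    · exact measurable_snd hB
    · exact measurableSet_le (measurable_snd.dist measurable_fst) measurable_const
  exact measurable_measure_prodMk_left hs

/-- Use measurableSet_tendsto. -/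
theorem measurable_dens1 {B : Set (ℝ × ℝ)} (hB : MeasurableSet B) :
    MeasurableSet {x | Dens1 B x} := by
  exact measurableSet_tendsto_fun (fun n => measurable_dens hB n) measurable_const

end Pool.Agent.Helper2.LM
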